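import Mathlib

/-!
Definitions for MP_1c795d_co: real central hyperplane arrangements, their intersection lattice,
chambers and tope graph, and the magnitude homology of a graph.
-/

namespace Pool.Agent.Lib.MP_1c795d_co

open Finset

/-! ### Magnitude homology of a graph -/

section Magnitude

variable {V : Type*}

/-- The free abelian group on all tuples `(x₀, …, x_k)` of vertices. -/
abbrev Chains (V : Type*) (k : ℕ) : Type _ := (Fin (k + 1) → V) →₀ ℤ

/-- The tuples `(x₀, …, x_k)` with `x_i ≠ x_{i+1}` for all `i` and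
`d(x₀,x₁) + ⋯ + d(x_{k-1},x_k) = l`, where `d` is the (extended) path metric of `G`. -/
def Admissible (G : SimpleGraph V) (k l : ℕ) (x : Fin (k + 1) → V) : Prop :=
  (∀ i : Fin k, x i.castSucc ≠ x i.succ) ∧
    ∑ i : Fin k, G.edist (x i.castSucc) (x i.succ) = (l : ℕ∞)

/-- `MC_{k,l}(G)`: the free abelian group on the admissible tuples (as the subgroup of
`Chains V k` of elements supported on admissible tuples). -/
def MC (G : SimpleGraph V) (k l : ℕ) : Submodule ℤ (Chains V k) :=
  Finsupp.supported ℤ ℤ {x | Admissible G k l x}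

open Classical in
/-- For a tuple `(x₀, …, x_{k+1})` and `i < k`, the term `∂_{i+1}`: delete `x_{i+1}` if
`d(x_i, x_{i+2}) = d(x_i, x_{i+1}) + d(x_{i+1}, x_{i+2})`, and `0` otherwise. -/
noncomputable def faceTerm (G : SimpleGraph V) {k : ℕ} (i : Fin k) (x : Fin (k + 2) → V) :
    Chains V k :=
  if G.edist (x i.castSucc.castSucc) (x i.succ.succ) =
      G.edist (x i.castSucc.castSucc) (x i.succ.castSucc) +
        G.edist (x i.succ.castSucc) (x i.succ.succ)
  then Finsupp.single (fun j => x (i.succ.castSucc.succAbove j)) 1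
  else 0

/-- The differential `∂ = ∑_{i=1}^{k} (-1)^i ∂_i` on tuples `(x₀, …, x_{k+1})`. -/
noncomputable def bdry (G : SimpleGraph V) (k : ℕ) : Chains V (k + 1) →ₗ[ℤ] Chains V k :=
  Finsupp.linearCombination ℤ (fun x => ∑ i : Fin k, (-1 : ℤ) ^ ((i : ℕ) + 1) • faceTerm G i x)

/-- The differential leaving degree `k` (zero for `k = 0`). -/
noncomputable def dOut (G : SimpleGraph V) : (k : ℕ) → Chains V k →ₗ[ℤ] Chains V (k - 1)
  | 0 => 0
  | (k + 1) => bdry G k

/-- Cycles in `MC_{k,l}(G)`. -/
noncomputable def cycles (G : SimpleGraph V) (k l : ℕ) : Submodule ℤ (Chains V k) :=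
  MC G k l ⊓ LinearMap.ker (dOut G k)

/-- Boundaries of elements of `MC_{k+1,l}(G)`. -/
noncomputable def boundaries (G : SimpleGraph V) (k l : ℕ) : Submodule ℤ (Chains V k) :=
  (MC G (k + 1) l).map (bdry G k)

/-- Magnitude homology `MH_{k,l}(G)`: cycles modulo boundaries. -/
abbrev MH (G : SimpleGraph V) (k l : ℕ) : Type _ :=
  ↥(cycles G k l) ⧸ (boundaries G k l).submoduleOf (cycles G k l)

end Magnitude

/-! ### Arrangements -/

/-- A central arrangement: a finite set of linear hyperplanes in `ℝ^d`. -/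
structure Arrangement (d : ℕ) where
  /-- the hyperplanes -/
  planes : Finset (Submodule ℝ (EuclideanSpace ℝ (Fin d)))
  /-- each has codimension one -/
  codim_one : ∀ H ∈ planes, Module.finrank ℝ H + 1 = d

variable {d : ℕ}

/-- The complement of the union of the hyperplanes. -/
def Arrangement.compl (A : Arrangement d) : Set (EuclideanSpace ℝ (Fin d)) :=
  {v | ∀ H ∈ A.planes, v ∉ H}

/-- The chambers: connected components of the complement. -/
def Arrangement.Chamber (A : Arrangement d) : Type :=
  {C : Set (EuclideanSpace ℝ (Fin d)) // ∃ v ∈ A.compl, C = connectedComponentIn A.compl v}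

/-- `H` separates `C` and `D`: they lie strictly on different sides of `H`. -/
def Separates (H : Submodule ℝ (EuclideanSpace ℝ (Fin d)))
    (C D : Set (EuclideanSpace ℝ (Fin d))) : Prop :=
  ∃ f : EuclideanSpace ℝ (Fin d) →ₗ[ℝ] ℝ, LinearMap.ker f = H ∧
    (∀ v ∈ C, 0 < f v) ∧ (∀ v ∈ D, f v < 0)

/-- The tope graph: two chambers are adjacent when exactly one hyperplane of the arrangement
separates them. -/
def Arrangement.topeGraph (A : Arrangement d) : SimpleGraph A.Chamber where
  Adj C D := ∃! H, H ∈ A.planes ∧ Separates H C.1 D.1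
  symm := ⟨by
    have key : ∀ C D : A.Chamber, ∀ H, Separates H C.1 D.1 → Separates H D.1 C.1 := by
      rintro C D H ⟨f, hf, h1, h2⟩
      refine ⟨-f, ?_, ?_, ?_⟩
      · rw [← hf]; ext v; simp
      · intro v hv; simpa using h2 v hv
      · intro v hv; simpa using h1 v hv
    rintro C D ⟨H, ⟨hH, hs⟩, hu⟩
    exact ⟨H, ⟨hH, key C D H hs⟩, fun H' h' => hu H' ⟨h'.1, key D C H' h'.2⟩⟩⟩
  loopless := ⟨by
    rintro C ⟨H, ⟨_, f, _, h1, h2⟩, _⟩
    obtain ⟨v, hv, hC⟩ := C.2
    have hvC : v ∈ C.1 := by rw [hC]; exact mem_connectedComponentIn hv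
    exact absurd (h1 v hvC) (not_lt.2 (h2 v hvC).le)⟩

/-- The set of all intersections of subsets of the arrangement (the empty intersection being the
whole space). -/
def Arrangement.Flat (A : Arrangement d) : Type :=
  {X : Submodule ℝ (EuclideanSpace ℝ (Fin d)) // ∃ B ⊆ A.planes, X = B.inf id}

instance (A : Arrangement d) : PartialOrder A.Flat :=
  inferInstanceAs (PartialOrder
    {X : Submodule ℝ (EuclideanSpace ℝ (Fin d)) // ∃ B ⊆ A.planes, X = B.inf id})

/-- The intersection lattice `L(A)`, ordered by reverse inclusion. -/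
abbrev Arrangement.L (A : Arrangement d) : Type := A.Flatᵒᵈ

end Pool.Agent.Lib.MP_1c795d_co
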