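import Pool.Agent.Lib.MP_1c795d_co.Glob
import Pool.Agent.Lib.MP_1c795d_co.Defs

/-!
Assembly: magnitude homology of a graph with a sign system, from the homology of single boxes.
-/

set_option linter.unusedSectionVars false

namespace Pool.Agent.Lib.MP_1c795d_co

open Finset

variable {V ι : Type*} [Fintype ι] [DecidableEq ι]

/-- the list part of a tuple -/
def lst {k : ℕ} (x : Fin (k + 1) → V) : List V := List.ofFn (fun i : Fin k => x i.castSucc)

@[simp] lemma lst_length {k : ℕ} (x : Fin (k + 1) → V) : (lst x).length = k := by simp [lst]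

lemma lst_succ {k : ℕ} (x : Fin (k + 2) → V) : lst x = x 0 :: lst (fun i => x i.succ) := by
  unfold lst
  rw [List.ofFn_succ]
  rfl

lemma htop_lst {k : ℕ} (x : Fin (k + 1) → V) : htop (x (Fin.last k)) (lst x) = x 0 := by
  cases k with
  | zero => rfl
  | succ k => rw [lst_succ]; rfl

/-- indicator of a sign difference -/
def ind (sgn : V → ι → Bool) (u v : V) (H : ι) : ℕ := if sgn u H ≠ sgn v H then 1 else 0

lemma ind_tri (sgn : V → ι → Bool) (u v w : V) (H : ι) : ind sgn u w H ≤ ind sgn u v H + ind sgn v w H := by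
  unfold ind
  cases sgn u H <;> cases sgn v H <;> cases sgn w H <;> simp

lemma cr_cons' (sgn : V → ι → Bool) (x z : V) (R : List V) (H : ι) :
    cr sgn x (z :: R) H = cr sgn x R H + ind sgn z (htop x R) H := rfl

lemma cr_lst (sgn : V → ι → Bool) {k : ℕ} (x : Fin (k + 1) → V) (H : ι) :
    cr sgn (x (Fin.last k)) (lst x) H = ∑ i : Fin k, ind sgn (x i.castSucc) (x i.succ) H := by
  induction k with
  | zero => simp [lst, cr]
  | succ k ih =>
    rw [lst_succ, cr_cons', Fin.sum_univ_succ]
    have h1 := ih (fun i => x i.succ)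
    simp only [Fin.succ_last] at h1
    have h2 := htop_lst (fun i : Fin (k+1) => x i.succ)
    simp only [Fin.succ_last] at h2
    rw [h1, h2]
    simp only [Fin.castSucc_zero, Fin.succ_castSucc]
    rw [add_comm]

lemma nd_lst {k : ℕ} (x : Fin (k + 1) → V) :
    nd (x (Fin.last k)) (lst x) ↔ ∀ i : Fin k, x i.castSucc ≠ x i.succ := by
  induction k with
  | zero => simp [lst, nd]
  | succ k ih =>
    rw [lst_succ, Fin.forall_fin_succ]
    have h1 := ih (fun i => x i.succ)
    simp only [Fin.succ_last] at h1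
    have h2 := htop_lst (fun i : Fin (k+1) => x i.succ)
    simp only [Fin.succ_last] at h2
    show (x 0 ≠ htop (x (Fin.last (k+1))) (lst fun i => x i.succ) ∧ nd (x (Fin.last (k+1))) (lst fun i => x i.succ)) ↔ _
    rw [h1, h2]
    rfl

lemma lst_getElem {k : ℕ} (x : Fin (k + 1) → V) (j : ℕ) (hj : j < (lst x).length) :
    (lst x)[j] = x ⟨j, by rw [lst_length] at hj; omega⟩ := by
  simp only [lst, List.getElem_ofFn]
  rfl

lemma lst_getD {k : ℕ} (x : Fin (k + 1) → V) (j : ℕ) (hj : j < k + 1) :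
    (lst x).getD j (x (Fin.last k)) = x ⟨j, hj⟩ := by
  by_cases h : j < k
  · rw [List.getD_eq_getElem _ _ (by rw [lst_length]; exact h), lst_getElem]
  · have : j = k := by omega
    subst this
    rw [List.getD_eq_default _ _ (by rw [lst_length])]
    rfl

lemma erase_last {k : ℕ} (x : Fin (k + 2) → V) (i : Fin k) :
    x (i.succ.castSucc.succAbove (Fin.last k)) = x (Fin.last (k + 1)) := by
  congr 1
  rw [Fin.succAbove_of_le_castSucc]
  · rfl
  · rw [Fin.le_def]
    simp

lemma lst_erase {k : ℕ} (x : Fin (k + 2) → V) (i : Fin k) :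
    lst (fun j => x (i.succ.castSucc.succAbove j)) = (lst x).eraseIdx (i + 1) := by
  apply List.ext_getElem
  · rw [lst_length, List.length_eraseIdx_of_lt (by rw [lst_length]; omega), lst_length]
    omega
  · intro j h1 h2
    rw [lst_getElem, List.getElem_eraseIdx]
    rw [lst_length] at h1
    split_ifs with h
    · rw [lst_getElem]
      congr 1
      rw [Fin.succAbove_of_castSucc_lt]
      · rfl
      · rw [Fin.lt_def]; simpa using h
    · rw [lst_getElem]
      congr 1
      rw [Fin.succAbove_of_le_castSucc]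
      · rfl
      · rw [Fin.le_def]; simp; omega

lemma bdL_eq_sum (R : List V) :
    bdL R = ∑ j ∈ range R.length, (-1 : ℤ) ^ j • Finsupp.single (R.eraseIdx j) (1 : ℤ) := by
  induction R with
  | nil => simp [bdL]
  | cons z R ih =>
    rw [bdL_cons, List.length_cons, Finset.sum_range_succ', ih, map_sum]
    simp only [map_smul, consL_single, List.eraseIdx_cons_succ, List.eraseIdx_cons_zero, pow_zero,
      one_smul, pow_succ, mul_neg, mul_one, neg_smul, Finset.sum_neg_distrib]
    abel

lemma del_eraseIdx (R : List V) (j : ℕ) (hj : j < R.length) : Del R (R.eraseIdx j) := by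
  induction R generalizing j with
  | nil => simp at hj
  | cons z R ih =>
    cases j with
    | zero => exact Del.hd z R
    | succ j => exact Del.tl z (ih j (by simpa using hj))

lemma cr_erase (sgn : V → ι → Bool) (y : V) (i : ℕ) (R : List V) (hi : i + 1 < R.length) (H : ι) :
    cr sgn y (R.eraseIdx (i + 1)) H + ind sgn (R.getD i y) (R.getD (i + 1) y) H
      + ind sgn (R.getD (i + 1) y) (R.getD (i + 2) y) H =
    cr sgn y R H + ind sgn (R.getD i y) (R.getD (i + 2) y) H := by
  induction i generalizing R with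
  | zero =>
    match R, hi with
    | z :: w :: R'', _ =>
      have h1 : R''.getD 0 y = htop y R'' := by cases R'' <;> rfl
      have h2 : (z :: w :: R'').getD 2 y = htop y R'' := by rw [← h1]; rfl
      have h3 : (z :: w :: R'').eraseIdx (0+1) = z :: R'' := rfl
      have h4 : (z :: w :: R'').getD 0 y = z := rfl
      have h5 : (z :: w :: R'').getD (0+1) y = w := rfl
      have h6 : (z :: w :: R'').getD (0+2) y = htop y R'' := h2
      rw [h3, h4, h5, h6, cr_cons', cr_cons', cr_cons', htop_cons]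
      ring
  | succ i ih =>
    match R, hi with
    | z :: w :: R'', hi =>
      have h := ih (w :: R'') (by simpa using hi)
      have h3 : (z :: w :: R'').eraseIdx (i + 1 + 1) = z :: (w :: R'').eraseIdx (i+1) := rfl
      have h4 : ∀ j, (z :: w :: R'').getD (j+1) y = (w :: R'').getD j y := fun j => rfl
      have h5 : htop y ((w :: R'').eraseIdx (i+1)) = w := rfl
      rw [h3, cr_cons', cr_cons' sgn y z, h4, h4, h4 (i+2), h5, htop_cons]
      omega

section Maps

open Classical in
/-- component of a chain at `(y, b)` -/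
noncomputable def Fm (sgn : V → ι → Bool) (k : ℕ) (p : V × (ι → ℕ)) : Chains V k →ₗ[ℤ] (List V →₀ ℤ) :=
  Finsupp.linearCombination ℤ (fun x => if x (Fin.last k) = p.1 ∧ cr sgn p.1 (lst x) = p.2
    then Finsupp.single (lst x) 1 else 0)

/-- tuple from a list -/
def tup (k : ℕ) (y : V) (R : List V) : Fin (k + 1) → V := fun j => R.getD j y

open Classical in
/-- inclusion of the component at `(y, b)` -/
noncomputable def Em (sgn : V → ι → Bool) (k : ℕ) (p : V × (ι → ℕ)) : (List V →₀ ℤ) →ₗ[ℤ] Chains V k :=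
  Finsupp.linearCombination ℤ (fun R => if R.length = k ∧ cr sgn p.1 R = p.2
    then Finsupp.single (tup k p.1 R) 1 else 0)

lemma lst_tup {k : ℕ} {y : V} {R : List V} (h : R.length = k) : lst (tup k y R) = R := by
  apply List.ext_getElem
  · rw [lst_length, h]
  · intro j h1 h2
    rw [lst_getElem]
    show R.getD j y = R[j]
    rw [List.getD_eq_getElem]

lemma tup_last {k : ℕ} {y : V} {R : List V} (h : R.length = k) : tup k y R (Fin.last k) = y := by
  show R.getD k y = y
  rw [List.getD_eq_default _ _ (by omega)]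

lemma tup_lst {k : ℕ} (x : Fin (k + 1) → V) : tup k (x (Fin.last k)) (lst x) = x := by
  funext j
  exact lst_getD x j j.2

lemma Fm_single (sgn : V → ι → Bool) (k : ℕ) (p : V × (ι → ℕ)) (x : Fin (k+1) → V) (n : ℤ) [Decidable (x (Fin.last k) = p.1 ∧ cr sgn p.1 (lst x) = p.2)] :
    Fm sgn k p (Finsupp.single x n) = if x (Fin.last k) = p.1 ∧ cr sgn p.1 (lst x) = p.2
      then Finsupp.single (lst x) n else 0 := by
  rw [Fm, Finsupp.linearCombination_single]
  split_ifs <;> simp

lemma Fm_eval (sgn : V → ι → Bool) (k : ℕ) (x : Fin (k+1) → V) (c : Chains V k) :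
    Fm sgn k (x (Fin.last k), cr sgn (x (Fin.last k)) (lst x)) c (lst x) = c x := by
  classical
  induction c using Finsupp.induction_linear with
  | zero => simp
  | add f g hf hg => rw [map_add, Finsupp.add_apply, Finsupp.add_apply, hf, hg]
  | single x' n =>
    rw [Fm_single]
    by_cases h : x' = x
    · subst h; simp
    · rw [Finsupp.single_eq_of_ne (Ne.symm h)]
      split_ifs with h2
      · have : lst x' ≠ lst x := by
          intro e
          apply h
          rw [← tup_lst x', ← tup_lst x, h2.1, e]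
        rw [Finsupp.single_eq_of_ne (Ne.symm this)]
      · rfl

/-- support of the component -/
lemma Fm_mem (sgn : V → ι → Bool) {k : ℕ} {p : V × (ι → ℕ)} {s : Set (Fin (k+1) → V)} {t : Set (List V)}
    (h : ∀ x ∈ s, x (Fin.last k) = p.1 → cr sgn p.1 (lst x) = p.2 → lst x ∈ t) {c : Chains V k}
    (hc : c ∈ Finsupp.supported ℤ ℤ s) : Fm sgn k p c ∈ Sup t := by
  classical
  rw [Fm, Finsupp.linearCombination_apply, Finsupp.sum]
  refine Submodule.sum_mem _ fun x hx => Submodule.smul_mem _ _ ?_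
  have hxs : x ∈ s := by rw [Finsupp.mem_supported] at hc; exact hc hx
  split_ifs with h2
  · exact single_mem_Sup (h x hxs h2.1 h2.2) 1
  · exact Submodule.zero_mem _

end Maps

section Graph

variable {G : SimpleGraph V} {sgn : V → ι → Bool} (hinj : Function.Injective sgn)
  (hd : ∀ u v, G.edist u v = ((∑ H, ind sgn u v H : ℕ) : ℕ∞))

include hd in
lemma admissible_iff {k l : ℕ} (x : Fin (k+1) → V) :
    Admissible G k l x ↔ nd (x (Fin.last k)) (lst x) ∧ ∑ H, cr sgn (x (Fin.last k)) (lst x) H = l := by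
  unfold Admissible
  rw [nd_lst]
  have : ∑ i : Fin k, G.edist (x i.castSucc) (x i.succ) =
      ((∑ H, cr sgn (x (Fin.last k)) (lst x) H : ℕ) : ℕ∞) := by
    simp only [hd, cr_lst]
    rw [Finset.sum_comm]
    push_cast
    rfl
  rw [this, Nat.cast_inj]

include hd in
lemma cond_iff {k : ℕ} (x : Fin (k+2) → V) (i : Fin k) :
    (G.edist (x i.castSucc.castSucc) (x i.succ.succ) =
      G.edist (x i.castSucc.castSucc) (x i.succ.castSucc) +
        G.edist (x i.succ.castSucc) (x i.succ.succ)) ↔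
    cr sgn (x (Fin.last (k+1))) (lst x) ≤ cr sgn (x (Fin.last (k+1))) ((lst x).eraseIdx (i+1)) := by
  have h1 : ∀ H, cr sgn (x (Fin.last (k+1))) ((lst x).eraseIdx (i+1)) H
      + ind sgn (x i.castSucc.castSucc) (x i.succ.castSucc) H
      + ind sgn (x i.succ.castSucc) (x i.succ.succ) H
      = cr sgn (x (Fin.last (k+1))) (lst x) H + ind sgn (x i.castSucc.castSucc) (x i.succ.succ) H := by
    intro H
    have := cr_erase sgn (x (Fin.last (k+1))) i (lst x) (by rw [lst_length]; omega) H
    rw [lst_getD x i (by omega), lst_getD x (i+1) (by omega), lst_getD x (i+2) (by omega)] at this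
    exact this
  rw [hd, hd, hd, ← Nat.cast_add, Nat.cast_inj, ← Finset.sum_add_distrib]
  rw [Finset.sum_eq_sum_iff_of_le (fun H _ => ind_tri sgn _ _ _ H)]
  constructor
  · intro h H
    have := h H (mem_univ H)
    have := h1 H
    show cr sgn (x (Fin.last (k+1))) (lst x) H ≤ cr sgn (x (Fin.last (k+1))) ((lst x).eraseIdx (i+1)) H
    omega
  · intro h H _
    have h2 : cr sgn (x (Fin.last (k+1))) (lst x) H ≤ cr sgn (x (Fin.last (k+1))) ((lst x).eraseIdx (i+1)) H := h H
    have := h1 H
    have := ind_tri sgn (x i.castSucc.castSucc) (x i.succ.castSucc) (x i.succ.succ) H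
    omega

include hinj hd in
lemma faceTerm_mem {k l : ℕ} (x : Fin (k+2) → V) (hx : Admissible G (k+1) l x) (i : Fin k) :
    faceTerm G i x ∈ MC G k l := by
  classical
  unfold faceTerm
  split_ifs with h
  · rw [cond_iff (sgn := sgn) hd] at h
    rw [MC, Finsupp.mem_supported]
    intro x' hx'
    have e : x' = fun j => x (i.succ.castSucc.succAbove j) := by
      simpa using Finsupp.support_single_subset hx'
    subst e
    rw [Set.mem_ofPred_eq, admissible_iff hd, erase_last x i, lst_erase]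
    rw [admissible_iff hd] at hx
    have hdel : Del (lst x) ((lst x).eraseIdx (i+1)) := del_eraseIdx _ _ (by rw [lst_length]; omega)
    have heq : cr sgn (x (Fin.last (k+1))) ((lst x).eraseIdx (i+1)) = cr sgn (x (Fin.last (k+1))) (lst x) :=
      le_antisymm (fun H => (cr_del sgn _ hdel).1 H) h
    refine ⟨?_, ?_⟩
    · rcases nd_del sgn hinj _ hdel hx.1 with h2 | ⟨H, hH⟩
      · exact h2
      · rw [heq] at hH; omega
    · rw [heq]; exact hx.2
  · exact Submodule.zero_mem _

include hinj hd in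
lemma bdry_mem {k l : ℕ} {c : Chains V (k+1)} (hc : c ∈ MC G (k+1) l) : bdry G k c ∈ MC G k l := by
  rw [bdry, Finsupp.linearCombination_apply, Finsupp.sum]
  refine Submodule.sum_mem _ fun x hx => Submodule.smul_mem _ _ ?_
  refine Submodule.sum_mem _ fun i _ => Submodule.smul_mem _ _ ?_
  refine faceTerm_mem hinj hd x ?_ i
  rw [MC, Finsupp.mem_supported] at hc
  exact hc hx

include hinj hd in
lemma comm_mod {k l : ℕ} (p : V × (ι → ℕ)) {c : Chains V (k+1)} (hc : c ∈ MC G (k+1) l) :
    bd (Fm sgn (k+1) p c) - Fm sgn k p (bdry G k c) ∈ Sup (Kl sgn p.1 p.2) := by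
  classical
  have hlin : bd (Fm sgn (k+1) p c) - Fm sgn k p (bdry G k c) =
      Finsupp.linearCombination ℤ (fun x => bd (Fm sgn (k+1) p (Finsupp.single x 1)) -
        Fm sgn k p (bdry G k (Finsupp.single x 1))) c := by
    clear hc
    induction c using Finsupp.induction_linear with
    | zero => simp
    | add f g hf hg =>
      rw [map_add, map_add, map_add, map_add, map_add, ← hf, ← hg]; abel
    | single x n =>
      rw [Finsupp.linearCombination_single]
      have : Finsupp.single x n = n • Finsupp.single x (1 : ℤ) := by simp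
      rw [this, map_smul, map_smul, map_smul, map_smul, smul_sub]
  rw [hlin, Finsupp.linearCombination_apply, Finsupp.sum]
  refine Submodule.sum_mem _ fun x hx => Submodule.smul_mem _ _ ?_
  have hadm : Admissible G (k+1) l x := by
    rw [MC, Finsupp.mem_supported] at hc
    exact hc hx
  have hb : bdry G k (Finsupp.single x 1) = ∑ i : Fin k, (-1 : ℤ) ^ ((i : ℕ) + 1) • faceTerm G i x := by
    rw [bdry, Finsupp.linearCombination_single, one_smul]
  rw [hb, map_sum]
  -- value of `Fm` on face terms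
  have hface : ∀ i : Fin k, Fm sgn k p (faceTerm G i x) =
      if (x (Fin.last (k+1)) = p.1 ∧ cr sgn p.1 (lst x) = p.2) ∧
        cr sgn (x (Fin.last (k+1))) (lst x) ≤ cr sgn (x (Fin.last (k+1))) ((lst x).eraseIdx (i+1))
      then Finsupp.single ((lst x).eraseIdx (i+1)) 1 else 0 := by
    intro i
    unfold faceTerm
    by_cases h : cr sgn (x (Fin.last (k+1))) (lst x) ≤ cr sgn (x (Fin.last (k+1))) ((lst x).eraseIdx (i+1))
    · rw [if_pos ((cond_iff (sgn := sgn) hd x i).2 h), Fm_single]
      have hdel : Del (lst x) ((lst x).eraseIdx (i+1)) := del_eraseIdx _ _ (by rw [lst_length]; omega)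
      have heq : cr sgn (x (Fin.last (k+1))) ((lst x).eraseIdx (i+1)) = cr sgn (x (Fin.last (k+1))) (lst x) :=
        le_antisymm (fun H => (cr_del sgn _ hdel).1 H) h
      rw [lst_erase]
      have hiff : (x (i.succ.castSucc.succAbove (Fin.last k)) = p.1 ∧
          cr sgn p.1 ((lst x).eraseIdx (i+1)) = p.2) ↔
          ((x (Fin.last (k+1)) = p.1 ∧ cr sgn p.1 (lst x) = p.2) ∧
        cr sgn (x (Fin.last (k+1))) (lst x) ≤ cr sgn (x (Fin.last (k+1))) ((lst x).eraseIdx (i+1))) := by
        rw [erase_last x i]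
        constructor
        · rintro ⟨h1, h2⟩
          refine ⟨⟨h1, ?_⟩, h⟩
          rw [← h2, ← h1, heq]
        · rintro ⟨⟨h1, h2⟩, _⟩
          refine ⟨h1, ?_⟩
          rw [← h2, ← h1, heq]
      by_cases h3 : (x (i.succ.castSucc.succAbove (Fin.last k)) = p.1 ∧
          cr sgn p.1 ((lst x).eraseIdx (i+1)) = p.2)
      · rw [if_pos h3, if_pos (hiff.1 h3)]
      · rw [if_neg h3, if_neg (fun h4 => h3 (hiff.2 h4))]
    · rw [if_neg (fun h2 => h ((cond_iff (sgn := sgn) hd x i).1 h2)), map_zero, if_neg (fun h2 => h h2.2)]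
  rw [Fm_single]
  by_cases hp : x (Fin.last (k+1)) = p.1 ∧ cr sgn p.1 (lst x) = p.2
  · rw [if_pos hp, bd_single, one_smul, bdL_eq_sum, lst_length, Finset.sum_range_succ',
      ← Fin.sum_univ_eq_sum_range (fun j => (-1 : ℤ) ^ (j + 1) • Finsupp.single ((lst x).eraseIdx (j+1)) (1 : ℤ)) k]
    rw [admissible_iff hd] at hadm
    have h0 : Finsupp.single ((lst x).eraseIdx 0) (1 : ℤ) ∈ Sup (Kl sgn p.1 p.2) := by
      apply single_mem_Sup
      rw [← hp.2, ← hp.1]
      rw [lst_succ] at hadm ⊢
      intro hle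
      have : ∃ H, sgn (x 0) H ≠ sgn (htop (x (Fin.last (k+1))) (lst fun i => x i.succ)) H := by
        by_contra hcon
        push Not at hcon
        exact hadm.1.1 (hinj (funext hcon))
      obtain ⟨H, hH⟩ := this
      have h1 : cr sgn (x (Fin.last (k+1))) (x 0 :: lst fun i => x i.succ) H ≤
        cr sgn (x (Fin.last (k+1))) ((x 0 :: lst fun i => x i.succ).eraseIdx 0) H := hle H
      rw [List.eraseIdx_cons_zero, cr_cons, if_pos hH] at h1
      omega
    have h1 : ∀ i : Fin k, (-1 : ℤ) ^ ((i : ℕ) + 1) • Finsupp.single ((lst x).eraseIdx (i+1)) (1 : ℤ) -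
        Fm sgn k p ((-1 : ℤ) ^ ((i : ℕ) + 1) • faceTerm G i x) ∈ Sup (Kl sgn p.1 p.2) := by
      intro i
      rw [map_smul, ← smul_sub, hface i]
      apply Submodule.smul_mem
      split_ifs with h
      · rw [sub_self]; exact Submodule.zero_mem _
      · rw [sub_zero]
        apply single_mem_Sup
        intro hle
        apply h
        refine ⟨hp, ?_⟩
        rw [hp.1, hp.2]
        exact hle
    have : (∑ i : Fin k, (-1 : ℤ) ^ ((i : ℕ) + 1) • Finsupp.single ((lst x).eraseIdx (i+1)) (1 : ℤ)) +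
        (-1 : ℤ) ^ 0 • Finsupp.single ((lst x).eraseIdx 0) (1 : ℤ) -
        ∑ i : Fin k, Fm sgn k p ((-1 : ℤ) ^ ((i : ℕ) + 1) • faceTerm G i x) =
        (∑ i : Fin k, ((-1 : ℤ) ^ ((i : ℕ) + 1) • Finsupp.single ((lst x).eraseIdx (i+1)) (1 : ℤ) -
        Fm sgn k p ((-1 : ℤ) ^ ((i : ℕ) + 1) • faceTerm G i x))) +
        Finsupp.single ((lst x).eraseIdx 0) (1 : ℤ) := by
      rw [Finset.sum_sub_distrib, pow_zero, one_smul]; abel
    rw [this]
    exact Submodule.add_mem _ (Submodule.sum_mem _ fun i _ => h1 i) h0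
  · rw [if_neg hp, map_zero, zero_sub]
    apply Submodule.neg_mem
    refine Submodule.sum_mem _ fun i _ => ?_
    rw [map_smul, hface i, if_neg (fun h => hp h.1), smul_zero]
    exact Submodule.zero_mem _

lemma MC_ext {k : ℕ} {c c' : Chains V k}
    (h : ∀ p : V × (ι → ℕ), Fm sgn k p c = Fm sgn k p c') : c = c' := by
  ext x
  rw [← Fm_eval sgn k x c, ← Fm_eval sgn k x c', h]

end Graph

section Equiv

variable {G : SimpleGraph V} {sgn : V → ι → Bool} (hinj : Function.Injective sgn)
  (hd : ∀ u v, G.edist u v = ((∑ H, ind sgn u v H : ℕ) : ℕ∞))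

/-- lists with crossing numbers exactly `b` -/
def Ex (sgn : V → ι → Bool) (p : V × (ι → ℕ)) (k : ℕ) : Set (List V) :=
  {R | nd p.1 R ∧ cr sgn p.1 R = p.2 ∧ R.length = k}

lemma eq_zero_of_mem {p : V × (ι → ℕ)} {u : List V →₀ ℤ} (h1 : u ∈ Sup {R | cr sgn p.1 R = p.2})
    (h2 : u ∈ Sup (Kl sgn p.1 p.2)) : u = 0 := by
  have h3 := Sup_inter h1 h2
  rw [Finsupp.mem_supported] at h3
  rw [← Finsupp.support_eq_empty, Finset.eq_empty_iff_forall_notMem]
  intro R hR
  obtain ⟨h4, h5⟩ := h3 hR
  rw [Set.mem_ofPred_eq] at h4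
  apply h5
  rw [h4]

include hd in
lemma Fm_Ex {k l : ℕ} (p : V × (ι → ℕ)) {c : Chains V k} (hc : c ∈ MC G k l) :
    Fm sgn k p c ∈ Sup (Ex sgn p k) := by
  refine Fm_mem sgn ?_ hc
  intro x hx h1 h2
  rw [Set.mem_ofPred_eq, admissible_iff hd] at hx
  refine ⟨?_, h2, lst_length x⟩
  rw [← h1]; exact hx.1

lemma Ex_TN {p : V × (ι → ℕ)} {k : ℕ} : Ex sgn p k ⊆ TN sgn p.1 (bump p.2 ∅) := by
  rintro R ⟨h1, h2, _⟩
  refine ⟨h1, ?_⟩
  rw [h2, bump_empty]

lemma Fm_cr (k : ℕ) (p : V × (ι → ℕ)) (c : Chains V k) :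
    Fm sgn k p c ∈ Sup {R | cr sgn p.1 R = p.2} := by
  have : c ∈ Finsupp.supported ℤ ℤ (Set.univ : Set (Fin (k+1) → V)) := by
    rw [Finsupp.supported_univ]; trivial
  refine Fm_mem sgn ?_ this
  intro x _ _ h2
  exact h2

include hinj hd in
lemma cycle_Kl {k l : ℕ} (p : V × (ι → ℕ)) {c : Chains V k} (hc : c ∈ cycles G k l) :
    bd (Fm sgn k p c) ∈ Sup (Kl sgn p.1 p.2) := by
  rw [cycles, Submodule.mem_inf] at hc
  cases k with
  | zero =>
    have h1 : Fm sgn 0 p c ∈ Sup (Ex sgn p 0) := Fm_Ex hd p hc.1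
    refine bd_mem_Sup (s := Ex sgn p 0) ?_ h1
    rintro R ⟨_, _, h⟩ R' hdel
    have := hdel.length
    omega
  | succ k =>
    have h1 := comm_mod (l := l) hinj hd p hc.1
    have h2 : bdry G k c = 0 := by
      have := hc.2
      rw [LinearMap.mem_ker] at this
      exact this
    rw [h2, map_zero, sub_zero] at h1
    exact h1

include hinj hd in
lemma mem_cycles_of {k l : ℕ} {c : Chains V k} (hc : c ∈ MC G k l)
    (h : ∀ q : V × (ι → ℕ), bd (Fm sgn k q c) ∈ Sup (Kl sgn q.1 q.2)) : c ∈ cycles G k l := by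
  refine ⟨hc, ?_⟩
  cases k with
  | zero => exact LinearMap.mem_ker.2 rfl
  | succ k =>
    rw [SetLike.mem_coe, LinearMap.mem_ker]
    show bdry G k c = 0
    apply MC_ext (sgn := sgn)
    intro q
    rw [map_zero]
    have h3 := comm_mod (l := l) hinj hd q hc
    refine eq_zero_of_mem (p := q) (Fm_cr k q _) ?_
    have : Fm sgn k q (bdry G k c) =
        bd (Fm sgn (k+1) q c) - (bd (Fm sgn (k+1) q c) - Fm sgn k q (bdry G k c)) := by abel
    rw [this]
    exact Submodule.sub_mem _ (h q) h3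

/-- exact part of an element -/
noncomputable def exPart (sgn : V → ι → Bool) (p : V × (ι → ℕ)) (k : ℕ) (u : List V →₀ ℤ) :
    List V →₀ ℤ := Fm sgn k p (Em sgn k p u)

lemma Fm_Em_single (k : ℕ) (p q : V × (ι → ℕ)) (R : List V) (n : ℤ)
    [Decidable (q = p ∧ R.length = k ∧ cr sgn p.1 R = p.2)] :
    Fm sgn k q (Em sgn k p (Finsupp.single R n)) =
      if q = p ∧ R.length = k ∧ cr sgn p.1 R = p.2 then Finsupp.single R n else 0 := by
  classical
  rw [Em, Finsupp.linearCombination_single]
  by_cases h : R.length = k ∧ cr sgn p.1 R = p.2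
  · rw [if_pos h, map_smul, Fm_single, tup_last h.1, lst_tup h.1]
    by_cases hq : q = p
    · subst hq
      rw [if_pos ⟨rfl, h.2⟩, if_pos ⟨rfl, h⟩, Finsupp.smul_single]
      simp
    · have hn : ¬ (p.1 = q.1 ∧ cr sgn q.1 R = q.2) := by
        rintro ⟨h1, h2⟩
        apply hq
        refine Prod.ext h1.symm ?_
        rw [← h2, ← h1, h.2]
      rw [if_neg hn, if_neg (fun h2 => hq h2.1), smul_zero]
  · rw [if_neg h, if_neg (fun h2 => h h2.2), smul_zero, map_zero]

lemma Fm_Em_ne (k : ℕ) {p q : V × (ι → ℕ)} (h : q ≠ p) (u : List V →₀ ℤ) :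
    Fm sgn k q (Em sgn k p u) = 0 := by
  classical
  induction u using Finsupp.induction_linear with
  | zero => simp
  | add f g hf hg => rw [map_add, map_add, hf, hg, add_zero]
  | single R n => rw [Fm_Em_single, if_neg (fun h2 => h h2.1)]

/-- if `u` is supported on length `k` lists in `TN`, then `u - exPart u` is in `Kl` -/
lemma exPart_sub (k : ℕ) (p : V × (ι → ℕ)) {u : List V →₀ ℤ}
    (hu : u ∈ Sup (TN sgn p.1 (bump p.2 ∅))) (hl : u ∈ Sup {R : List V | R.length = k}) :
    exPart sgn p k u - u ∈ Sup (Kl sgn p.1 p.2) := by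
  classical
  have hlin : exPart sgn p k u - u = Finsupp.linearCombination ℤ
      (fun R => Fm sgn k p (Em sgn k p (Finsupp.single R 1)) - Finsupp.single R 1) u := by
    clear hu hl
    unfold exPart
    induction u using Finsupp.induction_linear with
    | zero => simp
    | add f g hf hg => rw [map_add, map_add, map_add, ← hf, ← hg]; abel
    | single R n =>
      rw [Finsupp.linearCombination_single]
      have : Finsupp.single R n = n • Finsupp.single R (1 : ℤ) := by simp
      rw [this, map_smul, map_smul, smul_sub]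
  rw [hlin]
  refine mem_Sup_linearCombination ?_ (Sup_inter hu hl)
  rintro R ⟨⟨h1, h2⟩, h3⟩
  rw [bump_empty] at h2
  rw [Fm_Em_single]
  split_ifs with h
  · rw [sub_self]; exact Submodule.zero_mem _
  · rw [zero_sub]
    apply Submodule.neg_mem
    apply single_mem_Sup
    intro hle
    exact h ⟨rfl, h3, le_antisymm h2 hle⟩

include hd in
lemma Em_mem {k l : ℕ} {p : V × (ι → ℕ)} (hp : ∑ H, p.2 H = l) {u : List V →₀ ℤ}
    (hu : u ∈ Sup (TN sgn p.1 (bump p.2 ∅))) : Em sgn k p u ∈ MC G k l := by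
  classical
  rw [Em, Finsupp.linearCombination_apply, Finsupp.sum]
  refine Submodule.sum_mem _ fun R hR => Submodule.smul_mem _ _ ?_
  rw [Finsupp.mem_supported] at hu
  have hR2 := hu hR
  split_ifs with h
  · rw [MC, Finsupp.mem_supported]
    intro x hx
    have e : x = tup k p.1 R := by simpa using Finsupp.support_single_subset hx
    subst e
    rw [Set.mem_ofPred_eq, admissible_iff hd, tup_last h.1, lst_tup h.1]
    refine ⟨hR2.1, ?_⟩
    rw [h.2, hp]
  · exact Submodule.zero_mem _

include hinj hd in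
/-- criterion for being a boundary -/
lemma mem_boundaries {k l : ℕ} (hfin : {p : V × (ι → ℕ) | ∑ H, p.2 H = l}.Finite) {c : Chains V k}
    (hc : c ∈ MC G k l)
    (h : ∀ p : V × (ι → ℕ), ∑ H, p.2 H = l → ∃ w ∈ Sup (TN sgn p.1 (bump p.2 ∅)),
      w ∈ Sup {R : List V | R.length = k + 1} ∧ Fm sgn k p c - bd w ∈ Sup (Kl sgn p.1 p.2)) :
    c ∈ boundaries G k l := by
  classical
  choose! w hw1 hw2 hw3 using h
  set S := hfin.toFinset with hS
  set C : Chains V (k+1) := ∑ p ∈ S, Em sgn (k+1) p (w p) with hC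
  have hCmem : C ∈ MC G (k+1) l := by
    refine Submodule.sum_mem _ fun p hp => ?_
    have hp' : ∑ H, p.2 H = l := by
      rw [hS, Set.Finite.mem_toFinset] at hp; exact hp
    exact Em_mem hd hp' (hw1 p hp')
  refine ⟨C, hCmem, ?_⟩
  apply MC_ext (sgn := sgn)
  intro q
  by_cases hq : ∑ H, q.2 H = l
  · have h1 : Fm sgn (k+1) q C = exPart sgn q (k+1) (w q) := by
      rw [hC, map_sum]
      rw [Finset.sum_eq_single q]
      · rfl
      · intro p _ hpq
        exact Fm_Em_ne (k+1) (Ne.symm hpq) _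
      · intro hnot
        exfalso
        apply hnot
        rw [hS, Set.Finite.mem_toFinset]
        exact hq
    have h2 := comm_mod (l := l) hinj hd q hCmem
    rw [h1] at h2
    have h3 : bd (exPart sgn q (k+1) (w q)) - bd (w q) ∈ Sup (Kl sgn q.1 q.2) := by
      rw [← map_sub]
      exact bd_mem_Sup (Kl_del sgn q.1 q.2) (exPart_sub (k+1) q (hw1 q hq) (hw2 q hq))
    have h4 := hw3 q hq
    have h5 : Fm sgn k q (bdry G k C) - Fm sgn k q c ∈ Sup (Kl sgn q.1 q.2) := by
      have : Fm sgn k q (bdry G k C) - Fm sgn k q c =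
          - (bd (exPart sgn q (k+1) (w q)) - Fm sgn k q (bdry G k C)) +
          (bd (exPart sgn q (k+1) (w q)) - bd (w q)) - (Fm sgn k q c - bd (w q)) := by abel
      rw [this]
      exact Submodule.sub_mem _ (Submodule.add_mem _ (Submodule.neg_mem _ h2) h3) h4
    have h6 := eq_zero_of_mem (Submodule.sub_mem _ (Fm_cr k q (bdry G k C)) (Fm_cr k q c)) h5
    exact sub_eq_zero.1 h6
  · -- both components vanish
    have hz : ∀ c' ∈ MC G k l, Fm sgn k q c' = 0 := by
      intro c' hc'
      have h1 : Fm sgn k q c' ∈ Sup (∅ : Set (List V)) := by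
        refine Fm_mem sgn ?_ hc'
        intro x hx h1 h2
        exfalso
        apply hq
        rw [Set.mem_ofPred_eq, admissible_iff hd] at hx
        rw [← h2, ← h1]; exact hx.2
      rw [Sup, Finsupp.supported_empty] at h1
      simpa using h1
    rw [hz _ (bdry_mem hinj hd hCmem), hz _ hc]

include hinj hd in
theorem MH_equiv (good : V → (ι → ℕ) → Prop) (dl : V → (ι → ℕ) → ℕ)
    (h1 : ∀ y b, ¬ good y b → AC sgn y b ∅) (h2 : ∀ y b, good y b → CA sgn y b ∅ (dl y b))
    (k l : ℕ) (hfin : {p : V × (ι → ℕ) | ∑ H, p.2 H = l}.Finite) :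
    Nonempty (MH G k l ≃+
      ({p : V × (ι → ℕ) // good p.1 p.2 ∧ ∑ H, p.2 H = l ∧ dl p.1 p.2 = k} → ℤ)) := by
  classical
  -- index type
  set L := {p : V × (ι → ℕ) // good p.1 p.2 ∧ ∑ H, p.2 H = l ∧ dl p.1 p.2 = k} with hL
  have hcell : ∀ p : L, CA sgn p.1.1 p.1.2 ∅ k := by
    intro p
    have := h2 p.1.1 p.1.2 p.2.1
    rw [p.2.2.2] at this
    exact this
  choose z hz1 hz2 hz3 hz4 using hcell
  have hcyc : ∀ (c : cycles G k l) (p : V × (ι → ℕ)), Fm sgn k p c.1 ∈ Sup (TN sgn p.1 (bump p.2 ∅)) ∧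
      bd (Fm sgn k p c.1) ∈ Sup (Kl sgn p.1 p.2) := by
    intro c p
    refine ⟨Sup_mono Ex_TN (Fm_Ex hd p c.2.1), cycle_Kl hinj hd p c.2⟩
  choose τ hτ hτu using fun (p : L) (c : cycles G k l) =>
    hz4 p (Fm sgn k p.1 c.1) (hcyc c p.1).1 (hcyc c p.1).2
  let Φ : cycles G k l →+ (L → ℤ) := AddMonoidHom.mk' (fun c p => τ p c) (by
    intro c c'
    funext p
    show τ p (c + c') = τ p c + τ p c'
    symm
    apply hτu
    obtain ⟨w, hw, hw2⟩ := hτ p c
    obtain ⟨w', hw', hw2'⟩ := hτ p c'
    refine ⟨w + w', Submodule.add_mem _ hw hw', ?_⟩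
    have : Fm sgn k p.1 (c + c' : cycles G k l).1 - (τ p c + τ p c') • z p - bd (w + w') =
        (Fm sgn k p.1 c.1 - τ p c • z p - bd w) + (Fm sgn k p.1 c'.1 - τ p c' • z p - bd w') := by
      have e : (c + c' : cycles G k l).1 = c.1 + c'.1 := rfl
      rw [e, map_add, map_add, add_smul]; abel
    rw [this]
    exact Submodule.add_mem _ hw2 hw2')
  let Ψ : cycles G k l →ₗ[ℤ] (L → ℤ) := Φ.toIntLinearMap
  have hΨ : ∀ c p, Ψ c p = τ p c := fun _ _ => rfl
  -- kernel
  have hker : LinearMap.ker Ψ = (boundaries G k l).submoduleOf (cycles G k l) := by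
    ext c
    have hmem : c ∈ (boundaries G k l).submoduleOf (cycles G k l) ↔ c.1 ∈ boundaries G k l := Iff.rfl
    rw [LinearMap.mem_ker, hmem]
    constructor
    · intro h0
      have h0' : ∀ p, τ p c = 0 := fun p => by rw [← hΨ, h0]; rfl
      refine mem_boundaries hinj hd hfin c.2.1 ?_
      intro p hp
      have hEx : Fm sgn k p c.1 ∈ Sup (Ex sgn p k) := Fm_Ex hd p c.2.1
      have hlen : Fm sgn k p c.1 ∈ Sup {R : List V | R.length = k} :=
        Sup_mono (fun R hR => hR.2.2) hEx
      -- it is enough to find `w` without the length condition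
      have red : (∃ w ∈ Sup (TN sgn p.1 (bump p.2 ∅)), ∃ v ∈ Sup {R : List V | R.length ≠ k},
          Fm sgn k p c.1 - v - bd w ∈ Sup (Kl sgn p.1 p.2)) → 
          ∃ w ∈ Sup (TN sgn p.1 (bump p.2 ∅)), w ∈ Sup {R : List V | R.length = k + 1} ∧
          Fm sgn k p c.1 - bd w ∈ Sup (Kl sgn p.1 p.2) := by
        rintro ⟨w, hw, v, hv, hwv⟩
        refine ⟨lenPart (k+1) w, lenPart_mem hw _, lenPart_len _ _, ?_⟩
        have h3 := lenPart_mem hwv k
        rw [lenPart_sub, lenPart_sub, lenPart_bd, lenPart_eq_self hlen] at h3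
        have hv0 : lenPart k v = 0 := by
          rw [lenPart, Finsupp.filter_eq_zero_iff]
          intro R hR
          rw [Finsupp.mem_supported] at hv
          by_contra h4
          exact hv (Finset.mem_coe.2 (Finsupp.mem_support_iff.2 h4)) hR
        rw [hv0, sub_zero] at h3
        exact h3
      by_cases hg : good p.1 p.2
      · by_cases hk : dl p.1 p.2 = k
        · obtain ⟨w, hw, hw2⟩ := hτ ⟨p, hg, hp, hk⟩ c
          rw [h0', zero_smul, sub_zero] at hw2
          refine red ⟨w, hw, 0, Submodule.zero_mem _, ?_⟩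
          rw [sub_zero]; exact hw2
        · obtain ⟨z', hz1', hz2', hz3', hz4'⟩ := h2 p.1 p.2 hg
          obtain ⟨t, ⟨w, hw, hw2⟩, -⟩ := hz4' (Fm sgn k p c.1) (hcyc c p).1 (hcyc c p).2
          refine red ⟨w, hw, t • z', ?_, hw2⟩
          apply Submodule.smul_mem
          refine Sup_mono ?_ hz3'
          intro R hR
          rw [Set.mem_ofPred_eq] at hR ⊢
          rw [hR]; exact hk
      · obtain ⟨w, hw, hw2⟩ := h1 p.1 p.2 hg (Fm sgn k p c.1) (hcyc c p).1 (hcyc c p).2
        refine red ⟨w, hw, 0, Submodule.zero_mem _, ?_⟩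
        rw [sub_zero]; exact hw2
    · rintro ⟨C, hC, hCc⟩
      funext p
      rw [hΨ]
      symm
      apply hτu
      refine ⟨Fm sgn (k+1) p.1 C, Sup_mono Ex_TN (Fm_Ex hd p.1 hC), ?_⟩
      have h3 := comm_mod (l := l) hinj hd p.1 hC
      rw [hCc] at h3
      have : Fm sgn k p.1 c.1 - (0 : L → ℤ) p • z p - bd (Fm sgn (k+1) p.1 C) =
          - (bd (Fm sgn (k+1) p.1 C) - Fm sgn k p.1 c.1) := by
        rw [Pi.zero_apply, zero_smul]; abel
      rw [this]
      exact Submodule.neg_mem _ h3
  -- surjectivity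
  have hsurj : Function.Surjective Ψ := by
    intro a
    have hLfin : Finite L := by
      have : Finite {p : V × (ι → ℕ) | ∑ H, p.2 H = l} := hfin
      refine Finite.of_injective
        (fun p : L => (⟨p.1, p.2.2.1⟩ : {p : V × (ι → ℕ) | ∑ H, p.2 H = l})) ?_
      intro p q hpq
      apply Subtype.ext
      exact congrArg (fun r : {p : V × (ι → ℕ) | ∑ H, p.2 H = l} => r.1) hpq
    have := Fintype.ofFinite L
    set c : Chains V k := ∑ p : L, a p • Em sgn k p.1 (z p) with hc
    have hFc : ∀ q : V × (ι → ℕ), Fm sgn k q c =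
        ∑ p : L, a p • Fm sgn k q (Em sgn k p.1 (z p)) := by
      intro q
      rw [hc, map_sum]
      simp only [map_smul]
    have hcMC : c ∈ MC G k l := Submodule.sum_mem _ fun p _ =>
      Submodule.smul_mem _ _ (Em_mem hd p.2.2.1 (hz1 p))
    have hzex : ∀ p : L, exPart sgn p.1 k (z p) - z p ∈ Sup (Kl sgn p.1.1 p.1.2) :=
      fun p => exPart_sub k p.1 (hz1 p) (hz3 p)
    have hFp : ∀ p : L, Fm sgn k p.1 c = a p • exPart sgn p.1 k (z p) := by
      intro p
      rw [hFc, Finset.sum_eq_single p]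
      · rfl
      · intro q _ hqp
        rw [Fm_Em_ne k (fun e => hqp (Subtype.ext e.symm)), smul_zero]
      · intro h; exact absurd (mem_univ p) h
    have hcyc' : c ∈ cycles G k l := by
      refine mem_cycles_of hinj hd hcMC ?_
      intro q
      by_cases hq : ∃ p : L, p.1 = q
      · obtain ⟨p, rfl⟩ := hq
        rw [hFp, map_smul]
        apply Submodule.smul_mem
        have : bd (exPart sgn p.1 k (z p)) =
          bd (exPart sgn p.1 k (z p) - z p) + bd (z p) := by rw [map_sub]; abel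
        rw [this]
        exact Submodule.add_mem _ (bd_mem_Sup (Kl_del sgn p.1.1 p.1.2) (hzex p)) (hz2 p)
      · have : Fm sgn k q c = 0 := by
          rw [hFc]
          apply Finset.sum_eq_zero
          intro p _
          rw [Fm_Em_ne k (fun e => hq ⟨p, e.symm⟩), smul_zero]
        rw [this, map_zero]; exact Submodule.zero_mem _
    refine ⟨⟨c, hcyc'⟩, ?_⟩
    funext p
    rw [hΨ]
    symm
    apply hτu
    refine ⟨0, Submodule.zero_mem _, ?_⟩
    show Fm sgn k p.1 c - a p • z p - bd 0 ∈ _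
    rw [map_zero, sub_zero, hFp, ← smul_sub]
    exact Submodule.smul_mem _ _ (hzex p)
  exact ⟨((Submodule.quotEquivOfEq _ _ hker.symm).trans
    (LinearMap.quotKerEquivOfSurjective Ψ hsurj)).toAddEquiv⟩

end Equiv

end Pool.Agent.Lib.MP_1c795d_co
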