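import Pool.Agent.Lib.MP_1c795d_co.Paths

/-!
Crossing numbers, boxes, the acyclicity predicate on boxes.
-/

set_option linter.unusedSectionVars false

namespace Pool.Agent.Lib.MP_1c795d_co

open Finset

variable {V ι : Type*} [DecidableEq ι]

/-- head of a list, with default `x` -/
def htop (x : V) : List V → V
  | [] => x
  | z :: _ => z

@[simp] lemma htop_nil (x : V) : htop x [] = x := rfl
@[simp] lemma htop_cons (x z : V) (R : List V) : htop x (z :: R) = z := rfl

/-- crossing numbers of a list ending at the base `x` -/
def cr (sgn : V → ι → Bool) (x : V) : List V → ι → ℕ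
  | [] => fun _ => 0
  | z :: R => fun H => cr sgn x R H + if sgn z H ≠ sgn (htop x R) H then 1 else 0

/-- nondegenerate lists -/
def nd (x : V) : List V → Prop
  | [] => True
  | z :: R => z ≠ htop x R ∧ nd x R

/-- add one on `D` -/
def bump (c : ι → ℕ) (D : Finset ι) : ι → ℕ := fun H => c H + if H ∈ D then 1 else 0

@[simp] lemma bump_empty (c : ι → ℕ) : bump c ∅ = c := by
  funext H; simp [bump]

lemma bump_bump (c : ι → ℕ) {S T : Finset ι} (h : Disjoint S T) : bump (bump c S) T = bump c (S ∪ T) := by
  funext H
  simp only [bump, Finset.mem_union]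
  by_cases h1 : H ∈ S
  · have h2 : H ∉ T := fun h2 => (Finset.disjoint_left.1 h) h1 h2
    simp [h1, h2]
  · by_cases h2 : H ∈ T <;> simp [h1, h2]

lemma le_bump (c : ι → ℕ) (D : Finset ι) : c ≤ bump c D := by
  intro H; simp [bump]

lemma bump_mono (c : ι → ℕ) {D D' : Finset ι} (h : D ⊆ D') : bump c D ≤ bump c D' := by
  intro H
  simp only [bump]
  by_cases h1 : H ∈ D
  · simp [h1, h h1]
  · simp [h1]

/-- nondegenerate lists with crossing numbers at most `b` -/
def TN (sgn : V → ι → Bool) (x : V) (b : ι → ℕ) : Set (List V) := {R | nd x R ∧ cr sgn x R ≤ b}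

/-- lists with crossing numbers not at least `b` -/
def Kl (sgn : V → ι → Bool) (x : V) (b : ι → ℕ) : Set (List V) := {R | ¬ b ≤ cr sgn x R}

lemma cr_cons (sgn : V → ι → Bool) (x z : V) (R : List V) (H : ι) :
    cr sgn x (z :: R) H = cr sgn x R H + if sgn z H ≠ sgn (htop x R) H then 1 else 0 := rfl

lemma cr_del (sgn : V → ι → Bool) (x : V) {R R' : List V} (h : Del R R') :
    (∀ H, cr sgn x R' H ≤ cr sgn x R H) ∧
      ∀ z H, cr sgn x (z :: R') H ≤ cr sgn x (z :: R) H := by
  induction h with
  | hd y R =>
    refine ⟨fun H => by rw [cr_cons]; omega, fun z H => ?_⟩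
    rw [cr_cons, cr_cons, cr_cons]
    simp only [htop_cons]
    by_cases h1 : sgn z H = sgn (htop x R) H
    · rw [if_neg (by simpa using h1)]
      omega
    · by_cases h2 : sgn z H = sgn y H
      · simp [h2]
      · simp [h1, h2]
  | tl y h ih =>
    refine ⟨fun H => ih.2 y H, fun z H => ?_⟩
    rw [cr_cons, cr_cons sgn x z, htop_cons, htop_cons]
    have := ih.2 y H
    omega

lemma Del.hd_eq {x : V} {R R' : List V} (h : Del R R') :
    htop x R' = htop x R ∨ ∃ y, R = y :: R' := by
  cases h with
  | hd y R => exact Or.inr ⟨y, rfl⟩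
  | tl y h => exact Or.inl rfl

lemma nd_del (sgn : V → ι → Bool) (hinj : Function.Injective sgn) (x : V) {R R' : List V}
    (h : Del R R') (hR : nd x R) : nd x R' ∨ ∃ H, cr sgn x R' H + 2 ≤ cr sgn x R H := by
  induction h with
  | hd y R => exact Or.inl hR.2
  | @tl y R R' h ih =>
    obtain ⟨h1, h2⟩ := hR
    rcases h.hd_eq (x := x) with hh | ⟨w, hw⟩
    · rcases ih h2 with h3 | ⟨H, h3⟩
      · left
        exact ⟨by rw [hh]; exact h1, h3⟩
      · right
        refine ⟨H, ?_⟩
        rw [cr_cons, cr_cons, hh]
        omega
    · subst hw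
      by_cases h3 : y = htop x R'
      · right
        have h4 : y ≠ w := h1
        have : ∃ H, sgn y H ≠ sgn w H := by
          by_contra hcon
          push Not at hcon
          exact h4 (hinj (funext hcon))
        obtain ⟨H, hH⟩ := this
        refine ⟨H, ?_⟩
        rw [cr_cons, cr_cons, cr_cons, htop_cons, ← h3]
        simp [hH, hH.symm]
      · left
        exact ⟨h3, h2.2⟩

/-- acyclicity of the box `[c, c + 1_D]` -/
def AC (sgn : V → ι → Bool) (x : V) (c : ι → ℕ) (D : Finset ι) : Prop :=
  Acy (TN sgn x (bump c D)) (Kl sgn x c)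

/-- the box `[c, c + 1_D]` has the homology of an `n`-cell -/
def CA (sgn : V → ι → Bool) (x : V) (c : ι → ℕ) (D : Finset ι) (n : ℕ) : Prop :=
  Cell (TN sgn x (bump c D)) (Kl sgn x c) n

lemma Kl_del (sgn : V → ι → Bool) (x : V) (c : ι → ℕ) :
    ∀ R ∈ Kl sgn x c, ∀ R', Del R R' → R' ∈ Kl sgn x c := by
  intro R hR R' h hcon
  exact hR (fun H => le_trans (hcon H) ((cr_del sgn x h).1 H))

lemma TN_del (sgn : V → ι → Bool) (hinj : Function.Injective sgn) (x : V) (c : ι → ℕ) (D : Finset ι) :
    ∀ R ∈ TN sgn x (bump c D), ∀ R', Del R R' → R' ∈ TN sgn x (bump c D) ∪ Kl sgn x c := by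
  rintro R ⟨hR, hcr⟩ R' h
  rcases nd_del sgn hinj x h hR with h1 | ⟨H, hH⟩
  · exact Or.inl ⟨h1, fun H => le_trans ((cr_del sgn x h).1 H) (hcr H)⟩
  · right
    intro hcon
    have h1 : c H ≤ cr sgn x R' H := hcon H
    have h2 : cr sgn x R H ≤ c H + (if H ∈ D then 1 else 0) := hcr H
    split_ifs at h2 <;> omega

lemma split_box (sgn : V → ι → Bool) (hinj : Function.Injective sgn) (x : V) (c : ι → ℕ) {D : Finset ι}
    {H : ι} (hH : H ∉ D) :
    Split (TN sgn x (bump c (insert H D))) (TN sgn x (bump c D)) (Kl sgn x c)
      (Kl sgn x (bump c {H})) where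
  TT := fun R hR => ⟨hR.1, le_trans hR.2 (bump_mono c (Finset.subset_insert H D))⟩
  KK := fun R hR hcon => hR (le_trans (le_bump c {H}) hcon)
  TK := by
    intro R hR hcon
    have h1 := hcon H
    have h2 := hR.2 H
    simp only [bump, Finset.mem_singleton, if_true, if_neg hH] at h1 h2
    omega
  inter := by
    rintro R ⟨hR, hR'⟩
    by_cases h : c ≤ cr sgn x R
    · left
      refine ⟨hR.1, fun H' => ?_⟩
      have h3 : cr sgn x R H ≤ c H := by
        by_contra h3
        apply hR'
        intro H'
        by_cases hh : H' = H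
        · subst hh; simp [bump]; omega
        · simp only [bump, Finset.mem_singleton, if_neg hh]
          exact h H'
      have h2 := hR.2 H'
      by_cases hh : H' = H
      · subst hh; simp only [bump, if_neg hH]; omega
      · simp only [bump, Finset.mem_insert, hh, false_or] at h2 ⊢
        exact h2
    · right; exact h
  sT := TN_del sgn hinj x c _
  sT' := TN_del sgn hinj x c _
  sK := Kl_del sgn x c
  sK' := Kl_del sgn x _

lemma bump_insert (c : ι → ℕ) {D : Finset ι} {H : ι} (hH : H ∉ D) :
    bump (bump c {H}) D = bump c (insert H D) := by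
  rw [bump_bump _ (by simpa using hH), Finset.insert_eq]

lemma AC.whole {sgn : V → ι → Bool} (hinj : Function.Injective sgn) {x : V} {c : ι → ℕ} {D : Finset ι}
    {H : ι} (hH : H ∉ D) (h1 : AC sgn x c D) (h2 : AC sgn x (bump c {H}) D) :
    AC sgn x c (insert H D) := by
  unfold AC at *
  rw [bump_insert c hH] at h2
  exact Acy.whole (split_box sgn hinj x c hH) h1 h2

lemma AC.upper {sgn : V → ι → Bool} (hinj : Function.Injective sgn) {x : V} {c : ι → ℕ} {D : Finset ι}
    {H : ι} (hH : H ∉ D) (h1 : AC sgn x c (insert H D)) (h2 : AC sgn x c D) :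
    AC sgn x (bump c {H}) D := by
  unfold AC at *
  rw [bump_insert c hH]
  exact Acy.upper (split_box sgn hinj x c hH) h1 h2

lemma CA.add_upper {sgn : V → ι → Bool} (hinj : Function.Injective sgn) {x : V} {c : ι → ℕ}
    {D : Finset ι} {H : ι} {n : ℕ} (hH : H ∉ D) (h1 : CA sgn x c D n)
    (h2 : AC sgn x (bump c {H}) D) : CA sgn x c (insert H D) n := by
  unfold AC at h2
  unfold CA at *
  rw [bump_insert c hH] at h2
  exact Cell.add_upper (split_box sgn hinj x c hH) h1 h2

lemma CA.drop_lower {sgn : V → ι → Bool} (hinj : Function.Injective sgn) {x : V} {c : ι → ℕ}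
    {D : Finset ι} {H : ι} {n : ℕ} (hH : H ∉ D) (h1 : CA sgn x c (insert H D) n)
    (h2 : AC sgn x c D) : CA sgn x (bump c {H}) D n := by
  unfold AC at h2
  unfold CA at *
  rw [bump_insert c hH]
  exact Cell.drop_lower (split_box sgn hinj x c hH) h1 h2

lemma CA.boundary {sgn : V → ι → Bool} (hinj : Function.Injective sgn) {x : V} {c : ι → ℕ}
    {D : Finset ι} {H : ι} {n : ℕ} (hH : H ∉ D) (h1 : AC sgn x c (insert H D))
    (h2 : CA sgn x c D n) : CA sgn x (bump c {H}) D (n + 1) := by
  unfold AC at h1
  unfold CA at *
  rw [bump_insert c hH]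
  exact Cell.boundary (split_box sgn hinj x c hH) h1 h2

/-- parity of the crossing numbers -/
lemma cr_parity (sgn : V → ι → Bool) (x : V) (R : List V) (H : ι) :
    sgn (htop x R) H = (if cr sgn x R H % 2 = 0 then sgn x H else ! sgn x H) := by
  induction R with
  | nil => simp [cr]
  | cons z R ih =>
    rw [cr_cons, htop_cons]
    by_cases h : sgn z H = sgn (htop x R) H
    · simp only [h, ne_eq, not_true_eq_false, if_false, add_zero]
      exact ih
    · simp only [ne_eq, h, not_false_eq_true, if_true]
      have hz : sgn z H = ! sgn (htop x R) H := by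
        cases h1 : sgn z H <;> cases h2 : sgn (htop x R) H <;> simp_all
      rw [hz, ih]
      rcases Nat.mod_two_eq_zero_or_one (cr sgn x R H) with h0 | h0
      · have : (cr sgn x R H + 1) % 2 = 1 := by omega
        simp [h0, this]
      · have : (cr sgn x R H + 1) % 2 = 0 := by omega
        simp [h0, this]

/-- `z` has the sign pattern prescribed by `b` relative to `x` -/
def Reach (sgn : V → ι → Bool) (x : V) (b : ι → ℕ) (z : V) : Prop :=
  ∀ H, sgn z H = (if b H % 2 = 0 then sgn x H else ! sgn x H)

lemma AC_of_not_reach {sgn : V → ι → Bool} {x : V} {b : ι → ℕ} (h : ∀ z, ¬ Reach sgn x b z) :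
    AC sgn x b ∅ := by
  intro u hu _
  refine ⟨0, Submodule.zero_mem _, ?_⟩
  rw [map_zero, sub_zero]
  refine Sup_mono ?_ hu
  intro R hR hcon
  rw [bump_empty] at hR
  have : cr sgn x R = b := le_antisymm hR.2 hcon
  apply h (htop x R)
  intro H
  rw [← this]
  exact cr_parity sgn x R H

lemma cr_le_of_reach {sgn : V → ι → Bool} {x : V} {b : ι → ℕ} {z : V} (hz : Reach sgn x b z)
    {R : List V} (hR : cr sgn x R ≤ b) (H : ι) :
    cr sgn x (z :: R) H ≤ b H ∧ (cr sgn x R H + 1 < b H → cr sgn x (z :: R) H + 1 < b H) ∧
      (b H ≤ cr sgn x R H + 1 → cr sgn x (z :: R) H = b H) := by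
  have h1 := hz H
  have h2 := cr_parity sgn x R H
  have h3 : cr sgn x R H ≤ b H := hR H
  rw [cr_cons]
  have key : (sgn z H ≠ sgn (htop x R) H) ↔ (b H % 2 ≠ cr sgn x R H % 2) := by
    rw [h1, h2]
    rcases Nat.mod_two_eq_zero_or_one (cr sgn x R H) with h0 | h0 <;>
    rcases Nat.mod_two_eq_zero_or_one (b H) with h0' | h0' <;> simp [h0, h0']
  by_cases h : sgn z H ≠ sgn (htop x R) H
  · have h4 := key.1 h
    rw [if_pos h]
    refine ⟨?_, ?_, ?_⟩ <;> omega
  · have h4 : b H % 2 = cr sgn x R H % 2 := by
      by_contra h5; exact h (key.2 h5)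
    rw [if_neg h]
    refine ⟨?_, ?_, ?_⟩ <;> omega

/-- the prepend homotopy on basis elements -/
noncomputable def sL [DecidableEq V] (x z : V) (R : List V) : List V →₀ ℤ :=
  if htop x R = z then 0 else Finsupp.single (z :: R) 1

/-- the prepend homotopy -/
noncomputable def sH [DecidableEq V] (x z : V) : (List V →₀ ℤ) →ₗ[ℤ] (List V →₀ ℤ) :=
  Finsupp.linearCombination ℤ (sL x z)

lemma mem_Sup_linearCombination {s t : Set (List V)} {f : List V → (List V →₀ ℤ)}
    (h : ∀ R ∈ s, f R ∈ Sup t) {c : List V →₀ ℤ} (hc : c ∈ Sup s) :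
    Finsupp.linearCombination ℤ f c ∈ Sup t := by
  rw [Finsupp.linearCombination_apply, Finsupp.sum]
  refine Submodule.sum_mem _ fun R hR => Submodule.smul_mem _ _ ?_
  exact h R (by rw [Finsupp.mem_supported] at hc; exact hc hR)

lemma single_mem_Sup {s : Set (List V)} {R : List V} (h : R ∈ s) (n : ℤ) :
    Finsupp.single R n ∈ Sup s := by
  rw [Finsupp.mem_supported]
  intro R' hR'
  have : R' = R := by simpa using Finsupp.support_single_subset hR'
  rw [this]; exact h

/-- pointwise subtraction of one -/
def pred1 (b : ι → ℕ) : ι → ℕ := fun H => b H - 1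

variable [Fintype ι]

lemma bump_pred1 (b : ι → ℕ) : bump (pred1 b) (univ.filter (fun H => b H ≠ 0)) = b := by
  funext H
  simp only [bump, pred1, Finset.mem_filter, Finset.mem_univ, true_and]
  split_ifs with h <;> omega

lemma not_le_pred1 {b c : ι → ℕ} (_hc : c ≤ b) : ¬ pred1 b ≤ c ↔ ∃ H, c H + 1 < b H := by
  constructor
  · intro h
    by_contra hcon
    push Not at hcon
    apply h
    intro H
    have := hcon H
    simp only [pred1]; omega
  · rintro ⟨H, hH⟩ h
    have := h H
    simp only [pred1] at this; omega

theorem AC_pred {sgn : V → ι → Bool} (hinj : Function.Injective sgn) {x : V} {b : ι → ℕ} {z : V}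
    (hz : Reach sgn x b z) (hb : b ≠ 0) : AC sgn x (pred1 b) (univ.filter (fun H => b H ≠ 0)) := by
  classical
  unfold AC
  rw [bump_pred1]
  intro u hu hdu
  -- `bd u` is supported on lists with crossing numbers at most `b`
  have hdu2 : bd u ∈ Sup {R : List V | cr sgn x R ≤ b} :=
    bd_mem_Sup (s := TN sgn x b) (fun R hR R' h H => le_trans ((cr_del sgn x h).1 H) (hR.2 H)) hu
  have hdu3 := Sup_inter hdu hdu2
  -- `s (bd u)` lies in `Kl`
  have hs : sH x z (bd u) ∈ Sup (Kl sgn x (pred1 b)) := by
    refine mem_Sup_linearCombination ?_ hdu3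
    rintro R ⟨hR, hR2⟩
    unfold sL
    split_ifs with h
    · exact Submodule.zero_mem _
    · apply single_mem_Sup
      have h1 := (not_le_pred1 hR2).1 hR
      obtain ⟨H, hH⟩ := h1
      have h2 : cr sgn x (z :: R) ≤ b := fun H => (cr_le_of_reach hz hR2 H).1
      exact (not_le_pred1 h2).2 ⟨H, (cr_le_of_reach hz hR2 H).2.1 hH⟩
  -- basis computation
  have hbasis : ∀ c ∈ Sup (TN sgn x b), c - bd (sH x z c) - sH x z (bd c) ∈ Sup (Kl sgn x (pred1 b)) := by
    intro c hc
    have : c - bd (sH x z c) - sH x z (bd c) =
        Finsupp.linearCombination ℤ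
          (fun R => Finsupp.single R 1 - bd (sL x z R) - sH x z (bdL R)) c := by
      clear hc
      induction c using Finsupp.induction_linear with
      | zero => simp
      | add f g hf hg => rw [map_add, map_add, map_add, map_add, map_add, ← hf, ← hg]; abel
      | single R n =>
        rw [bd_single, map_smul, Finsupp.linearCombination_single]
        have : sH x z (Finsupp.single R n) = n • sL x z R := by
          simp [sH, Finsupp.linearCombination_single]
        rw [this, map_smul, smul_sub, smul_sub, Finsupp.smul_single]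
        simp
    rw [this]
    refine mem_Sup_linearCombination ?_ hc
    rintro R ⟨hR, hcr⟩
    cases R with
    | nil =>
      by_cases h : x = z
      · have e1 : sL x z [] = 0 := by simp [sL, h]
        rw [e1]
        simp only [bdL, map_zero, sub_zero]
        apply single_mem_Sup
        subst h
        -- b is even everywhere and nonzero
        have : ∃ H, b H ≠ 0 := by
          by_contra hcon
          push Not at hcon
          exact hb (funext hcon)
        obtain ⟨H, hH⟩ := this
        have h1 := hz H
        have h2 : b H % 2 = 0 := by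
          by_contra h3
          rw [if_neg h3] at h1
          cases hh : sgn x H <;> simp [hh] at h1
        refine (not_le_pred1 (by intro H; simp [cr])).2 ⟨H, ?_⟩
        simp only [cr]; omega
      · have e1 : sL x z [] = Finsupp.single [z] 1 := by simp [sL, h]
        rw [e1, bd_single]
        simp [bdL]
    | cons y R =>
      obtain ⟨hy, hR'⟩ := hR
      by_cases h : y = z
      · subst h
        have e1 : sL x y (y :: R) = 0 := by simp [sL]
        have e2 : sH x y (bdL (y :: R)) = Finsupp.single (y :: R) 1 := by
          rw [bdL_cons, map_sub]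
          have e3 : sH x y (Finsupp.single R 1) = Finsupp.single (y :: R) 1 := by
            simp only [sH, Finsupp.linearCombination_single, one_smul]
            simp [sL, Ne.symm hy]
          have e4 : sH x y (consL y (bdL R)) = 0 := by
            generalize bdL R = c
            induction c using Finsupp.induction_linear with
            | zero => simp
            | add f g hf hg => rw [map_add, map_add, hf, hg, add_zero]
            | single R n =>
              rw [consL_single]
              simp only [sH, Finsupp.linearCombination_single]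
              simp [sL]
          rw [e3, e4, sub_zero]
        rw [e1, e2, map_zero]
        simp
      · have e1 : sL x z (y :: R) = Finsupp.single (z :: y :: R) 1 := by simp [sL, h]
        have e5 : bd (sL x z (y :: R)) = Finsupp.single (y :: R) 1 - consL z (bdL (y :: R)) := by
          rw [e1, bd_single, one_smul, bdL_cons]
        rw [e5]
        have e6 : Finsupp.single (y :: R) 1 - (Finsupp.single (y :: R) 1 - consL z (bdL (y :: R)))
            - sH x z (bdL (y :: R)) = consL z (Finsupp.single R 1) - sH x z (Finsupp.single R 1) := by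
          have e7 : consL z (consL y (bdL R)) = sH x z (consL y (bdL R)) := by
            generalize bdL R = c
            induction c using Finsupp.induction_linear with
            | zero => simp
            | add f g hf hg => rw [map_add, map_add, map_add, hf, hg]
            | single R n =>
              rw [consL_single, consL_single]
              simp only [sH, Finsupp.linearCombination_single]
              simp [sL, h]
          rw [bdL_cons, map_sub, map_sub, e7]
          abel
        rw [e6, consL_single]
        simp only [sH, Finsupp.linearCombination_single, one_smul]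
        unfold sL
        split_ifs with h3
        · rw [sub_zero]
          apply single_mem_Sup
          -- `cr (z :: R) = cr R`, and it is two less than `cr (z :: y :: R)` somewhere
          have h4 : cr sgn x (z :: R) ≤ b := by
            intro H
            refine le_trans ?_ (hcr H)
            rw [cr_cons, cr_cons, h3]
            simp
          have : ∃ H, sgn y H ≠ sgn z H := by
            by_contra hcon
            push Not at hcon
            exact h (hinj (funext hcon))
          obtain ⟨H, hH⟩ := this
          have hcr0 : cr sgn x R ≤ b := by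
            intro H
            have h6 : cr sgn x (y :: R) H ≤ b H := hcr H
            rw [cr_cons] at h6
            show cr sgn x R H ≤ b H
            omega
          have e8 := (cr_le_of_reach hz hcr0 H).2.2
          have e9 : cr sgn x (z :: R) H = cr sgn x R H := by rw [cr_cons, h3]; simp
          have e10 : cr sgn x R H + 1 ≤ b H := by
            have : cr sgn x (y :: R) H ≤ b H := hcr H
            rw [cr_cons, h3, if_pos hH] at this
            exact this
          refine (not_le_pred1 h4).2 ⟨H, ?_⟩
          rw [e9]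
          by_contra h5
          have := e8 (by omega)
          omega
        · rw [sub_self]; exact Submodule.zero_mem _
  refine ⟨sH x z u, ?_, ?_⟩
  · refine mem_Sup_linearCombination ?_ hu
    rintro R ⟨hR, hcr⟩
    unfold sL
    split_ifs with h
    · exact Submodule.zero_mem _
    · apply single_mem_Sup
      exact ⟨⟨fun h' => h h'.symm, hR⟩, fun H => (cr_le_of_reach hz hcr H).1⟩
  · have := Submodule.add_mem _ (hbasis u hu) hs
    simpa using this

/-- the box `{0}` has the homology of a point -/
theorem CA_zero {sgn : V → ι → Bool} (hinj : Function.Injective sgn) (x : V) :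
    CA sgn x (fun _ => 0) ∅ 0 := by
  classical
  unfold CA
  rw [bump_empty]
  have hT : ∀ R ∈ TN sgn x (fun _ => 0), R = [] := by
    rintro R ⟨hR, hcr⟩
    cases R with
    | nil => rfl
    | cons y R =>
      exfalso
      have : ∃ H, sgn y H ≠ sgn (htop x R) H := by
        by_contra hcon
        push Not at hcon
        exact hR.1 (hinj (funext hcon))
      obtain ⟨H, hH⟩ := this
      have h1 : cr sgn x (y :: R) H ≤ 0 := hcr H
      rw [cr_cons, if_pos hH] at h1
      omega
  have hK : ∀ c ∈ Sup (Kl sgn x (fun _ => 0)), c = 0 := by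
    intro c hc
    rw [Finsupp.mem_supported] at hc
    rw [← Finsupp.support_eq_empty, Finset.eq_empty_iff_forall_notMem]
    intro R hR
    exact hc hR (fun H => Nat.zero_le _)
  have hnil : ([] : List V) ∈ TN sgn x (fun _ => 0) := ⟨trivial, fun H => le_refl _⟩
  have hT2 : ∀ c ∈ Sup (TN sgn x (fun _ => 0)), c = Finsupp.single [] (c []) := by
    intro c hc
    rw [Finsupp.mem_supported] at hc
    ext R
    by_cases hR : R = []
    · subst hR; simp
    · rw [Finsupp.single_eq_of_ne hR]
      by_contra h
      exact hR (hT R (hc (Finset.mem_coe.2 (Finsupp.mem_support_iff.2 h))))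
  have hbd : ∀ c ∈ Sup (TN sgn x (fun _ => 0)), bd c = 0 := by
    intro c hc
    rw [hT2 c hc, bd_single]
    simp [bdL]
  refine ⟨Finsupp.single [] 1, single_mem_Sup hnil 1, ?_,
    single_mem_Sup (s := {R : List V | R.length = 0}) (by simp) 1, ?_⟩
  · rw [hbd _ (single_mem_Sup hnil 1)]; exact Submodule.zero_mem _
  · intro u hu _
    refine ⟨u [], ⟨0, Submodule.zero_mem _, ?_⟩, ?_⟩
    · have : u - u [] • Finsupp.single [] 1 - bd 0 = 0 := by
        rw [map_zero, sub_zero, Finsupp.smul_single]
        simp only [smul_eq_mul, mul_one]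
        exact sub_eq_zero.2 (hT2 u hu)
      rw [this]; exact Submodule.zero_mem _
    · rintro t ⟨w, hw, hw2⟩
      have := hK _ hw2
      rw [hbd w hw, sub_zero] at this
      have h2 := congrArg (fun f => f ([] : List V)) this
      simp at h2
      omega

end Pool.Agent.Lib.MP_1c795d_co
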