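import Pool.Agent.Lib.MP_1c795d_co.Glob

/-!
The index set of the homology depends only on the lattice of flats.
-/

set_option linter.unusedSectionVars false

namespace Pool.Agent.Lib.MP_1c795d_co

open Finset

section Euler

variable {ι : Type*} [Fintype ι] [DecidableEq ι] {C : CovSys ι}

open Classical in
/-- faces of `f` whose zero set is contained in `zs f ∪ sep f g` -/
noncomputable def Vset (C : CovSys ι) (f g : ι → SignType) : Finset (ι → SignType) :=
  univ.filter (fun G => G ∈ C.cov ∧ face G f ∧ zs G ⊆ zs f ∪ sep f g)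

lemma mem_Vset {f g G : ι → SignType} :
    G ∈ Vset C f g ↔ G ∈ C.cov ∧ face G f ∧ zs G ⊆ zs f ∪ sep f g := by
  classical
  simp [Vset]

lemma sep_self (f : ι → SignType) : sep f f = ∅ := by ext H; simp

lemma comp_eq_of_face {h f : ι → SignType} (hf : face h f) : comp h f = f := by
  funext H
  simp only [comp]
  split_ifs with e
  · rfl
  · exact hf H e

lemma face_eq {a b f : ι → SignType} (ha : face a f) (hb : face b f) (h : zs a = zs b) : a = b := by
  funext H
  by_cases e : a H = 0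
  · have : H ∈ zs b := by rw [← h, mem_zs]; exact e
    rw [e, mem_zs.1 this]
  · have : b H ≠ 0 := by
      intro e2
      have : H ∈ zs a := by rw [h, mem_zs]; exact e2
      exact e (mem_zs.1 this)
    rw [ha H e, hb H this]

theorem euler_V {rk : Finset ι → ℕ}
    (rkc : ∀ f ∈ C.cov, ∀ h ∈ C.cov, IsCover C (zs f) (zs h) → rk (zs h) = rk (zs f) + 1) :
    ∀ n : ℕ, ∀ f g : ι → SignType, (sep f g).card ≤ n → f ∈ C.cov → g ∈ C.cov → zs f = zs g →
      ∑ G ∈ Vset C f g, (-1 : ℤ) ^ rk (zs G) = if f = g then (-1 : ℤ) ^ rk (zs f) else 0 := by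
  classical
  intro n
  induction n using Nat.strong_induction_on with
  | _ n ih =>
  intro f g hn hf hg hz
  by_cases hfg : f = g
  · subst hfg
    rw [if_pos rfl]
    have : Vset C f f = {f} := by
      ext G
      rw [mem_Vset, Finset.mem_singleton, sep_self, Finset.union_empty]
      constructor
      · rintro ⟨_, h2, h3⟩
        exact h2.eq_of_zs (le_antisymm h3 h2.zs_subset)
      · rintro rfl
        exact ⟨hf, face_refl _, le_refl _⟩
    rw [this, Finset.sum_singleton]
  rw [if_neg hfg]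
  obtain ⟨h, hh, k1, k2, k3, k4⟩ := step hf hg hz hfg
  rw [← hz] at k2 k3 k4
  set g' := comp h f with hg'
  have hzg' : zs f = zs g' := by
    rw [hg', zs_comp]
    exact (Finset.inter_eq_right.2 k2.1).symm
  have hsg' : sep f g' = sep f g \ zs h := by
    ext H
    rw [Finset.mem_sdiff, mem_sep, mem_sep, mem_zs]
    by_cases e1 : h H = 0
    · have : g' H = f H := by simp [hg', comp, e1]
      rw [this]; simp [e1]
    · have : g' H = h H := by simp [hg', comp, e1]
      rw [this, k1 H e1]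
      constructor
      · intro h2
        refine ⟨h2, fun h3 => e1 (by rw [k1 H e1, h3])⟩
      · exact fun h2 => h2.1
  have hdis : Disjoint (zs f) (sep f g) := by
    rw [Finset.disjoint_left]
    intro H h4 h5
    rw [mem_sep] at h5
    rw [mem_zs] at h4
    apply h5
    rw [h4]
    have : H ∈ zs g := by rw [← hz, mem_zs]; exact h4
    exact (mem_zs.1 this).symm
  obtain ⟨H0, hH0, hH0'⟩ := Finset.exists_of_ssubset k2
  have hH0s : H0 ∈ sep f g := by
    have := k3 hH0
    rw [Finset.mem_union] at this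
    rcases this with h5 | h5
    · exact absurd h5 hH0'
    · exact h5
  have hlt1 : (sep f g').card < n := by
    refine lt_of_lt_of_le (Finset.card_lt_card ?_) hn
    rw [hsg']
    refine ⟨Finset.sdiff_subset, fun hcon => ?_⟩
    exact (Finset.mem_sdiff.1 (hcon hH0s)).2 hH0
  -- split the sum
  have hsplit := Finset.sum_filter_add_sum_filter_not (Vset C f g) (fun G => zs h ⊆ zs G)
    (fun G => (-1 : ℤ) ^ rk (zs G))
  rw [← hsplit]
  have hpart2 : (Vset C f g).filter (fun G => ¬ zs h ⊆ zs G) = Vset C f g' := by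
    ext G
    rw [Finset.mem_filter, mem_Vset, mem_Vset, hsg']
    constructor
    · rintro ⟨⟨h1, h2, h3⟩, h4⟩
      refine ⟨h1, h2, ?_⟩
      intro H hH
      have h5 := h3 hH
      rw [Finset.mem_union] at h5 ⊢
      rcases h5 with h5 | h5
      · exact Or.inl h5
      · right
        rw [Finset.mem_sdiff]
        refine ⟨h5, fun h6 => h4 ?_⟩
        exact k4.2 G h1 h2.zs_subset ⟨H, h6, fun h7 => (Finset.disjoint_left.1 hdis) h7 h5, hH⟩
    · rintro ⟨h1, h2, h3⟩
      refine ⟨⟨h1, h2, h3.trans (Finset.union_subset_union (Finset.Subset.refl _) Finset.sdiff_subset)⟩, ?_⟩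
      intro h4
      have := h3 (h4 hH0)
      rw [Finset.mem_union, Finset.mem_sdiff] at this
      rcases this with h5 | h5
      · exact hH0' h5
      · exact h5.2 hH0
  rw [hpart2, ih _ hlt1 f g' le_rfl hf (C.comp_mem hh hf) hzg']
  by_cases hW : ((Vset C f g).filter (fun G => zs h ⊆ zs G)).Nonempty
  · obtain ⟨G0, hG0⟩ := hW
    rw [Finset.mem_filter, mem_Vset] at hG0
    obtain ⟨⟨m1, m2, m3⟩, m4⟩ := hG0
    set f1 := comp G0 (opp h) with hf1
    have hzf1 : zs f1 = zs h := by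
      rw [hf1, zs_comp, zs_opp]
      exact Finset.inter_eq_right.2 m4
    have hf1f : face f1 f := by
      intro H hH
      have e1 : h H ≠ 0 := by
        intro e; apply hH; rw [← mem_zs, hzf1, mem_zs]; exact e
      by_cases e2 : G0 H = 0
      · have e3 : f1 H = - h H := by simp [hf1, comp, e2, opp]
        rw [e3, k1 H e1]
        have e4 := m3 (mem_zs.2 e2)
        rw [Finset.mem_union] at e4
        have e6 : f H ≠ 0 := by
          intro e; apply e1
          exact mem_zs.1 (k2.1 (mem_zs.2 e))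
        rcases e4 with e4 | e4
        · exact absurd (mem_zs.1 e4) e6
        · have e7 : g H ≠ 0 := by
            rw [← k1 H e1]; exact e1
          exact (eq_neg_of_ne e6 e7 (mem_sep.1 e4)).symm
      · have e3 : f1 H = G0 H := by simp [hf1, comp, e2]
        rw [e3]; exact m2 H e2
    have hsf1 : sep f1 h = sep f g \ zs h := by
      ext H
      rw [Finset.mem_sdiff, mem_sep, mem_sep, mem_zs]
      by_cases e1 : h H = 0
      · have : f1 H = 0 := by rw [← mem_zs, hzf1, mem_zs]; exact e1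
        rw [this, e1]; simp
      · have e2 : f1 H ≠ 0 := by
          intro e; apply e1; rw [← mem_zs, ← hzf1, mem_zs]; exact e
        rw [hf1f H e2, k1 H e1]
        constructor
        · intro h2
          refine ⟨h2, fun h3 => ?_⟩
          exact e1 (by rw [k1 H e1]; exact h3)
        · exact fun h2 => h2.1
    have hun : zs h ∪ sep f1 h = zs f ∪ sep f g := by
      rw [hsf1]
      ext H
      rw [Finset.mem_union, Finset.mem_union, Finset.mem_sdiff]
      constructor
      · rintro (h5 | h5)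
        · exact Finset.mem_union.1 (k3 h5)
        · exact Or.inr h5.1
      · rintro (h5 | h5)
        · exact Or.inl (k2.1 h5)
        · by_cases h6 : H ∈ zs h
          · exact Or.inl h6
          · exact Or.inr ⟨h5, h6⟩
    have hpart1 : (Vset C f g).filter (fun G => zs h ⊆ zs G) = Vset C f1 h := by
      ext G
      rw [Finset.mem_filter, mem_Vset, mem_Vset, hzf1, hun]
      constructor
      · rintro ⟨⟨h1, h2, h3⟩, h4⟩
        refine ⟨h1, ?_, h3⟩
        intro H hH
        have e2 : f1 H ≠ 0 := by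
          intro e; apply hH
          rw [← mem_zs]
          apply h4
          rw [← hzf1, mem_zs]; exact e
        rw [hf1f H e2]
        exact h2 H hH
      · rintro ⟨h1, h2, h3⟩
        refine ⟨⟨h1, h2.trans hf1f, h3⟩, ?_⟩
        rw [← hzf1]
        exact h2.zs_subset
    have hlt2 : (sep f1 h).card < n := by
      rw [hsf1, ← hsg']; exact hlt1
    rw [hpart1, ih _ hlt2 f1 h le_rfl (C.comp_mem m1 (C.opp_mem hh)) hh hzf1]
    by_cases hcase : f = g'
    · have hhf : face h f := by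
        rw [hcase, hg']; exact face_comp h f
      have : f1 = h := face_eq hf1f hhf hzf1
      rw [if_pos this, if_pos hcase, this]
      have hrk : rk (zs h) = rk (zs f) + 1 := rkc f hf h hh k4
      rw [hrk, pow_succ]; ring
    · rw [if_neg hcase]
      have : f1 ≠ h := by
        intro e
        apply hcase
        rw [hg']
        rw [e] at hf1f
        exact (comp_eq_of_face hf1f).symm
      rw [if_neg this, add_zero]
  · rw [Finset.not_nonempty_iff_eq_empty] at hW
    rw [hW, Finset.sum_empty, zero_add, if_neg]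
    intro hcase
    have hhf : face h f := by
      rw [hcase, hg']; exact face_comp h f
    have : h ∈ (Vset C f g).filter (fun G => zs h ⊆ zs G) := by
      rw [Finset.mem_filter, mem_Vset]
      exact ⟨⟨hh, hhf, k3⟩, le_refl _⟩
    rw [hW] at this
    simp at this

open Classical in
/-- covectors above `F` with zero set containing `Z` -/
noncomputable def Up (C : CovSys ι) (F : ι → SignType) (Z : Finset ι) : Finset (ι → SignType) :=
  univ.filter (fun G => G ∈ C.cov ∧ face F G ∧ Z ⊆ zs G)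

lemma mem_Up {F G : ι → SignType} {Z : Finset ι} :
    G ∈ Up C F Z ↔ G ∈ C.cov ∧ face F G ∧ Z ⊆ zs G := by
  classical
  simp [Up]

theorem euler_Up {rk : Finset ι → ℕ}
    (rkc : ∀ f ∈ C.cov, ∀ h ∈ C.cov, IsCover C (zs f) (zs h) → rk (zs h) = rk (zs f) + 1)
    {F y : ι → SignType} (hy : y ∈ C.cov) (hFy : face F y) :
    ∑ G ∈ Up C F (zs y), (-1 : ℤ) ^ rk (zs G) = (-1 : ℤ) ^ rk (zs y) := by
  classical
  set T : Finset (ι → SignType) := univ.filter (fun f => f ∈ C.cov ∧ face F f ∧ zs f = zs y) with hT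
  have hmaps : ∀ G ∈ Up C F (zs y), comp G (opp y) ∈ T := by
    intro G hG
    rw [mem_Up] at hG
    obtain ⟨h1, h2, h3⟩ := hG
    rw [hT, Finset.mem_filter]
    refine ⟨mem_univ _, C.comp_mem h1 (C.opp_mem hy), h2.trans (face_comp G _), ?_⟩
    rw [zs_comp, zs_opp]
    exact Finset.inter_eq_right.2 h3
  rw [← Finset.sum_fiberwise_of_maps_to hmaps]
  have hfib : ∀ f ∈ T, (Up C F (zs y)).filter (fun G => comp G (opp y) = f) = Vset C f y := by
    intro f hfT
    rw [hT, Finset.mem_filter] at hfT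
    obtain ⟨-, hf, hFf, hzf⟩ := hfT
    ext G
    rw [Finset.mem_filter, mem_Up, mem_Vset]
    constructor
    · rintro ⟨⟨h1, h2, h3⟩, rfl⟩
      refine ⟨h1, face_comp _ _, ?_⟩
      intro H hH
      rw [Finset.mem_union, mem_sep]
      by_cases e : y H = 0
      · left
        rw [hzf, mem_zs]; exact e
      · right
        rw [mem_zs] at hH
        simp only [comp, hH, if_true, opp]
        exact neg_ne_self' e
    · rintro ⟨h1, h2, h3⟩
      have hGne : ∀ H, F H ≠ 0 → G H ≠ 0 := by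
        intro H hH e
        have := h3 (mem_zs.2 e)
        rw [Finset.mem_union, mem_zs, mem_sep] at this
        have e1 := hFf H hH
        have e2 := hFy H hH
        rcases this with h5 | h5
        · exact hH (by rw [e1, h5])
        · exact h5 (by rw [← e1, ← e2])
      refine ⟨⟨h1, ?_, ?_⟩, ?_⟩
      · intro H hH
        rw [h2 H (hGne H hH)]
        exact hFf H hH
      · rw [← hzf]; exact h2.zs_subset
      · funext H
        simp only [comp]
        split_ifs with e
        · have := h3 (mem_zs.2 e)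
          rw [Finset.mem_union] at this
          by_cases e3 : f H = 0
          · have : H ∈ zs y := by rw [← hzf, mem_zs]; exact e3
            rw [mem_zs] at this
            simp [opp, this, e3]
          · rcases this with h5 | h5
            · exact absurd (mem_zs.1 h5) e3
            · have e4 : y H ≠ 0 := by
                intro e4
                have : H ∈ zs f := by rw [hzf, mem_zs]; exact e4
                exact e3 (mem_zs.1 this)
              simp only [opp]
              exact (eq_neg_of_ne e3 e4 (mem_sep.1 h5)).symm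
        · exact h2 H e
  have hval : ∀ f ∈ T, ∑ G ∈ (Up C F (zs y)).filter (fun G => comp G (opp y) = f), (-1 : ℤ) ^ rk (zs G) =
      if f = y then (-1 : ℤ) ^ rk (zs f) else 0 := by
    intro f hfT
    rw [hfib f hfT]
    rw [hT, Finset.mem_filter] at hfT
    obtain ⟨-, hf, hFf, hzf⟩ := hfT
    exact euler_V rkc _ f y le_rfl hf hy hzf
  rw [Finset.sum_congr rfl hval, Finset.sum_ite_eq', if_pos]
  rw [hT, Finset.mem_filter]
  exact ⟨mem_univ _, hy, hFy, rfl⟩

open Classical in
/-- covectors above `F` with zero set `Z` -/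
noncomputable def UpE (C : CovSys ι) (F : ι → SignType) (Z : Finset ι) : Finset (ι → SignType) :=
  univ.filter (fun G => G ∈ C.cov ∧ face F G ∧ zs G = Z)

lemma mem_UpE {F G : ι → SignType} {Z : Finset ι} :
    G ∈ UpE C F Z ↔ G ∈ C.cov ∧ face F G ∧ zs G = Z := by
  classical
  simp [UpE]

/-- zero sets of covectors -/
def IsFl (C : CovSys ι) (Z : Finset ι) : Prop := ∃ F ∈ C.cov, zs F = Z

open Classical in
/-- flats between `Z` and `W` -/
noncomputable def Betw (C : CovSys ι) (Z W : Finset ι) : Finset (Finset ι) :=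
  univ.filter (fun Y => IsFl C Y ∧ Z ⊆ Y ∧ Y ⊆ W)

lemma mem_Betw {Z W Y : Finset ι} : Y ∈ Betw C Z W ↔ IsFl C Y ∧ Z ⊆ Y ∧ Y ⊆ W := by
  classical
  simp [Betw]

theorem euler_fl {rk : Finset ι → ℕ}
    (rkc : ∀ f ∈ C.cov, ∀ h ∈ C.cov, IsCover C (zs f) (zs h) → rk (zs h) = rk (zs f) + 1)
    {F : ι → SignType} (hF : F ∈ C.cov) {Z : Finset ι} (hZ : IsFl C Z) (hZF : Z ⊆ zs F) :
    ∑ Y ∈ Betw C Z (zs F), (-1 : ℤ) ^ rk Y * ((UpE C F Y).card : ℤ) = (-1 : ℤ) ^ rk Z := by
  classical
  obtain ⟨k, hk, rfl⟩ := hZ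
  have hy : comp F k ∈ C.cov := C.comp_mem hF hk
  have hzy : zs (comp F k) = zs k := by
    rw [zs_comp]; exact Finset.inter_eq_right.2 hZF
  have := euler_Up rkc hy (face_comp F k)
  rw [hzy] at this
  rw [← this]
  have hmaps : ∀ G ∈ Up C F (zs k), zs G ∈ Betw C (zs k) (zs F) := by
    intro G hG
    rw [mem_Up] at hG
    rw [mem_Betw]
    exact ⟨⟨G, hG.1, rfl⟩, hG.2.2, hG.2.1.zs_subset⟩
  rw [← Finset.sum_fiberwise_of_maps_to hmaps]
  apply Finset.sum_congr rfl
  intro Y hY
  rw [mem_Betw] at hY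
  have hfib : (Up C F (zs k)).filter (fun G => zs G = Y) = UpE C F Y := by
    ext G
    rw [Finset.mem_filter, mem_Up, mem_UpE]
    constructor
    · rintro ⟨⟨h1, h2, _⟩, h4⟩
      exact ⟨h1, h2, h4⟩
    · rintro ⟨h1, h2, h4⟩
      exact ⟨⟨h1, h2, by rw [h4]; exact hY.2.1⟩, h4⟩
  rw [hfib]
  have : ∀ G ∈ UpE C F Y, (-1 : ℤ) ^ rk (zs G) = (-1 : ℤ) ^ rk Y := by
    intro G hG
    rw [mem_UpE] at hG
    rw [hG.2.2]
  rw [Finset.sum_congr rfl this, Finset.sum_const, nsmul_eq_mul, mul_comm]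

end Euler

section Iso

variable {ι ι' : Type*} [Fintype ι] [DecidableEq ι] [Fintype ι'] [DecidableEq ι']

/-- an isomorphism between the posets of flats preserving rank and cardinality -/
structure FlIso (C : CovSys ι) (C' : CovSys ι') (rk : Finset ι → ℕ) (rk' : Finset ι' → ℕ) where
  φ : Finset ι → Finset ι'
  ψ : Finset ι' → Finset ι
  hφ : ∀ Z, IsFl C Z → IsFl C' (φ Z)
  hψ : ∀ Z, IsFl C' Z → IsFl C (ψ Z)
  left : ∀ Z, IsFl C Z → ψ (φ Z) = Z
  right : ∀ Z, IsFl C' Z → φ (ψ Z) = Z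
  mono : ∀ Z W, IsFl C Z → IsFl C W → Z ⊆ W → φ Z ⊆ φ W
  mono' : ∀ Z W, IsFl C' Z → IsFl C' W → Z ⊆ W → ψ Z ⊆ ψ W
  rk_eq : ∀ Z, IsFl C Z → rk' (φ Z) = rk Z
  card_eq : ∀ Z, IsFl C Z → (φ Z).card = Z.card

variable {C : CovSys ι} {C' : CovSys ι'} {rk : Finset ι → ℕ} {rk' : Finset ι' → ℕ}

/-- the inverse isomorphism -/
def FlIso.symm (I : FlIso C C' rk rk') : FlIso C' C rk' rk where
  φ := I.ψ
  ψ := I.φ
  hφ := I.hψ
  hψ := I.hφ
  left := I.right
  right := I.left
  mono := I.mono'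
  mono' := I.mono
  rk_eq := fun Z hZ => by rw [← I.rk_eq _ (I.hψ Z hZ), I.right Z hZ]
  card_eq := fun Z hZ => by rw [← I.card_eq _ (I.hψ Z hZ), I.right Z hZ]

theorem card_UpE (I : FlIso C C' rk rk')
    (rkc : ∀ f ∈ C.cov, ∀ h ∈ C.cov, IsCover C (zs f) (zs h) → rk (zs h) = rk (zs f) + 1)
    (rkc' : ∀ f ∈ C'.cov, ∀ h ∈ C'.cov, IsCover C' (zs f) (zs h) → rk' (zs h) = rk' (zs f) + 1) :
    ∀ n : ℕ, ∀ (F : ι → SignType) (F' : ι' → SignType) (Z : Finset ι), (zs F).card - Z.card ≤ n →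
      F ∈ C.cov → F' ∈ C'.cov → zs F' = I.φ (zs F) → IsFl C Z → Z ⊆ zs F →
      (UpE C F Z).card = (UpE C' F' (I.φ Z)).card := by
  classical
  intro n
  induction n using Nat.strong_induction_on with
  | _ n ih =>
  intro F F' Z hn hF hF' hFF' hZ hZF
  have hFfl : IsFl C (zs F) := ⟨F, hF, rfl⟩
  have h1 := euler_fl rkc hF hZ hZF
  have h2 := euler_fl rkc' hF' (I.hφ Z hZ) (by rw [hFF']; exact I.mono _ _ hZ hFfl hZF)
  have hZm : Z ∈ Betw C Z (zs F) := mem_Betw.2 ⟨hZ, le_refl _, hZF⟩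
  have hZm' : I.φ Z ∈ Betw C' (I.φ Z) (zs F') :=
    mem_Betw.2 ⟨I.hφ Z hZ, le_refl _, by rw [hFF']; exact I.mono _ _ hZ hFfl hZF⟩
  rw [← Finset.add_sum_erase _ _ hZm] at h1
  rw [← Finset.add_sum_erase _ _ hZm', I.rk_eq Z hZ] at h2
  have h3 : ∑ Y ∈ (Betw C Z (zs F)).erase Z, (-1 : ℤ) ^ rk Y * ((UpE C F Y).card : ℤ) =
      ∑ Y ∈ (Betw C' (I.φ Z) (zs F')).erase (I.φ Z), (-1 : ℤ) ^ rk' Y * ((UpE C' F' Y).card : ℤ) := by
    refine Finset.sum_bij' (fun Y _ => I.φ Y) (fun Y _ => I.ψ Y) ?_ ?_ ?_ ?_ ?_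
    · intro Y hY
      rw [Finset.mem_erase, mem_Betw] at hY
      rw [Finset.mem_erase, mem_Betw]
      refine ⟨?_, I.hφ Y hY.2.1, I.mono _ _ hZ hY.2.1 hY.2.2.1, ?_⟩
      · intro e
        apply hY.1
        rw [← I.left Y hY.2.1, e, I.left Z hZ]
      · rw [hFF']; exact I.mono _ _ hY.2.1 hFfl hY.2.2.2
    · intro Y hY
      rw [Finset.mem_erase, mem_Betw] at hY
      rw [Finset.mem_erase, mem_Betw]
      refine ⟨?_, I.hψ Y hY.2.1, ?_, ?_⟩
      · intro e
        apply hY.1
        rw [← I.right Y hY.2.1, e]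
      · rw [← I.left Z hZ]; exact I.mono' _ _ (I.hφ Z hZ) hY.2.1 hY.2.2.1
      · rw [← I.left (zs F) hFfl]
        have := hY.2.2.2
        rw [hFF'] at this
        exact I.mono' _ _ hY.2.1 (I.hφ _ hFfl) this
    · intro Y hY
      rw [Finset.mem_erase, mem_Betw] at hY
      exact I.left Y hY.2.1
    · intro Y hY
      rw [Finset.mem_erase, mem_Betw] at hY
      exact I.right Y hY.2.1
    · intro Y hY
      rw [Finset.mem_erase, mem_Betw] at hY
      rw [I.rk_eq Y hY.2.1]
      congr 2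
      have hlt : Z.card < Y.card := Finset.card_lt_card
        (Finset.ssubset_iff_subset_ne.2 ⟨hY.2.2.1, Ne.symm hY.1⟩)
      have hle : Y.card ≤ (zs F).card := Finset.card_le_card hY.2.2.2
      exact ih ((zs F).card - Y.card) (by omega) F F' Y le_rfl hF hF' hFF' hY.2.1 hY.2.2.2
  rw [h3] at h1
  have h4 : (-1 : ℤ) ^ rk Z * ((UpE C F Z).card : ℤ) = (-1 : ℤ) ^ rk Z * ((UpE C' F' (I.φ Z)).card : ℤ) := by
    linarith
  have h5 : ((-1 : ℤ) ^ rk Z) ≠ 0 := pow_ne_zero _ (by norm_num)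
  exact_mod_cast mul_left_cancel₀ h5 h4

open Classical in
/-- topes above `F` for which `b` is good -/
noncomputable def Tp (C : CovSys ι) (F : ι → SignType) (b : ι → ℕ) : Finset (ι → SignType) :=
  univ.filter (fun x => x ∈ C.cov ∧ zs x = ∅ ∧ face F x ∧ InL C x b)

lemma mem_Tp {F x : ι → SignType} {b : ι → ℕ} :
    x ∈ Tp C F b ↔ x ∈ C.cov ∧ zs x = ∅ ∧ face F x ∧ InL C x b := by
  classical
  simp [Tp]

lemma lev_pred1 (b : ι → ℕ) (j : ℕ) : lev (pred1 b) j = lev b (j+1) := by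
  ext H
  simp only [mem_lev, pred1]
  omega

lemma lev_anti (b : ι → ℕ) {i j : ℕ} (h : i ≤ j) : lev b j ⊆ lev b i := by
  intro H hH
  rw [mem_lev] at *
  omega

lemma card_Tp_succ {F : ι → SignType} {b : ι → ℕ} (hb : lev b 0 ⊆ zs F) :
    (Tp C F b).card = ∑ G ∈ UpE C F (lev b 0), (Tp C G (pred1 b)).card := by
  classical
  rw [← Finset.card_biUnion]
  · congr 1
    ext x
    rw [mem_Tp, Finset.mem_biUnion]
    constructor
    · rintro ⟨h1, h2, h3, h4⟩
      obtain ⟨G, hG, hGx, hGz⟩ := h4 0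
      refine ⟨G, mem_UpE.2 ⟨hG, ?_, hGz⟩, mem_Tp.2 ⟨h1, h2, hGx, ?_⟩⟩
      · intro H hH
        have : G H ≠ 0 := by
          intro e
          apply hH
          rw [← mem_zs]
          apply hb
          rw [← hGz, mem_zs]; exact e
        rw [h3 H hH, hGx H this]
      · intro j
        rw [lev_pred1]; exact h4 (j+1)
    · rintro ⟨G, hG, hx⟩
      rw [mem_UpE] at hG
      rw [mem_Tp] at hx
      obtain ⟨h1, h2, h3, h4⟩ := hx
      refine ⟨h1, h2, hG.2.1.trans h3, ?_⟩
      intro j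
      cases j with
      | zero => exact ⟨G, hG.1, h3, hG.2.2⟩
      | succ j => rw [← lev_pred1]; exact h4 j
  · intro G hG G' hG' hne
    rw [Finset.mem_coe, mem_UpE] at hG hG'
    rw [Function.onFun, Finset.disjoint_left]
    intro x hx hx'
    rw [mem_Tp] at hx hx'
    apply hne
    exact face_eq hx.2.2.1 hx'.2.2.1 (by rw [hG.2.2, hG'.2.2])

theorem card_Tp (I : FlIso C C' rk rk')
    (rkc : ∀ f ∈ C.cov, ∀ h ∈ C.cov, IsCover C (zs f) (zs h) → rk (zs h) = rk (zs f) + 1)
    (rkc' : ∀ f ∈ C'.cov, ∀ h ∈ C'.cov, IsCover C' (zs f) (zs h) → rk' (zs h) = rk' (zs f) + 1) :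
    ∀ n : ℕ, ∀ (F : ι → SignType) (F' : ι' → SignType) (b : ι → ℕ) (b' : ι' → ℕ), (∀ H, b H ≤ n) →
      F ∈ C.cov → F' ∈ C'.cov → zs F' = I.φ (zs F) → (∀ j, IsFl C (lev b j)) →
      (∀ j, lev b' j = I.φ (lev b j)) → lev b 0 ⊆ zs F →
      (Tp C F b).card = (Tp C' F' b').card := by
  classical
  intro n
  induction n with
  | zero =>
    intro F F' b b' hn hF hF' hFF' hfl hbb' hb0
    have hlev : ∀ j, lev b j = ∅ := fun j => lev_eq_empty hn (Nat.zero_le _)
    have hfl0 : IsFl C ∅ := by rw [← hlev 0]; exact hfl 0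
    have hφ0 : I.φ ∅ = ∅ := by
      rw [← Finset.card_eq_zero, I.card_eq _ hfl0]; rfl
    have hlev' : ∀ j, lev b' j = ∅ := fun j => by rw [hbb', hlev, hφ0]
    have e1 : Tp C F b = UpE C F ∅ := by
      ext x
      rw [mem_Tp, mem_UpE]
      constructor
      · rintro ⟨h1, h2, h3, _⟩; exact ⟨h1, h3, h2⟩
      · rintro ⟨h1, h3, h2⟩
        refine ⟨h1, h2, h3, fun j => ?_⟩
        rw [hlev j]; exact faceSet_empty h1 h2
    have e2 : Tp C' F' b' = UpE C' F' ∅ := by
      ext x
      rw [mem_Tp, mem_UpE]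
      constructor
      · rintro ⟨h1, h2, h3, _⟩; exact ⟨h1, h3, h2⟩
      · rintro ⟨h1, h3, h2⟩
        refine ⟨h1, h2, h3, fun j => ?_⟩
        rw [hlev' j]; exact faceSet_empty h1 h2
    rw [e1, e2]
    have := card_UpE I rkc rkc' _ F F' ∅ le_rfl hF hF' hFF' hfl0 (Finset.empty_subset _)
    rw [hφ0] at this
    exact this
  | succ n ih =>
    intro F F' b b' hn hF hF' hFF' hfl hbb' hb0
    have hb0' : lev b' 0 ⊆ zs F' := by
      rw [hbb', hFF']
      exact I.mono _ _ (hfl 0) ⟨F, hF, rfl⟩ hb0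
    rw [card_Tp_succ hb0, card_Tp_succ hb0']
    have hn' : ∀ H, pred1 b H ≤ n := by
      intro H
      have := hn H
      simp only [pred1]; omega
    have hfl' : ∀ j, IsFl C (lev (pred1 b) j) := fun j => by rw [lev_pred1]; exact hfl _
    have hbb'' : ∀ j, lev (pred1 b') j = I.φ (lev (pred1 b) j) := fun j => by
      rw [lev_pred1, lev_pred1]; exact hbb' _
    obtain ⟨G0, hG0, hG0z⟩ := hfl 0
    obtain ⟨G1, hG1, hG1z⟩ := I.hφ _ (hfl 0)
    have key : ∀ (G : ι → SignType) (G' : ι' → SignType), G ∈ C.cov → G' ∈ C'.cov → zs G = lev b 0 →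
        zs G' = lev b' 0 → (Tp C G (pred1 b)).card = (Tp C' G' (pred1 b')).card := by
      intro G G' hG hG' hz hz'
      refine ih G G' (pred1 b) (pred1 b') hn' hG hG' ?_ hfl' hbb'' ?_
      · rw [hz', hz, hbb']
      · rw [hz, lev_pred1]; exact lev_anti b (by omega)
    have s1 : ∀ G ∈ UpE C F (lev b 0), (Tp C G (pred1 b)).card = (Tp C' G1 (pred1 b')).card := by
      intro G hG
      rw [mem_UpE] at hG
      exact key G G1 hG.1 hG1 hG.2.2 (by rw [hG1z, hbb'])
    have s2 : ∀ G ∈ UpE C' F' (lev b' 0), (Tp C' G (pred1 b')).card = (Tp C' G1 (pred1 b')).card := by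
      intro G hG
      rw [mem_UpE] at hG
      rw [← key G0 G hG0 hG.1 hG0z hG.2.2, ← key G0 G1 hG0 hG1 hG0z (by rw [hG1z, hbb'])]
    rw [Finset.sum_congr rfl s1, Finset.sum_congr rfl s2, Finset.sum_const, Finset.sum_const, hbb' 0,
      card_UpE I rkc rkc' _ F F' (lev b 0) le_rfl hF hF' hFF' (hfl 0) hb0]

/-- function from a sequence of sets -/
def ofSeq (l : ℕ) (Z : ℕ → Finset ι) : ι → ℕ := fun H => ((range l).filter (fun j => H ∈ Z j)).card

lemma lev_ofSeq {l : ℕ} {Z : ℕ → Finset ι} (hZ : ∀ j, Z (j+1) ⊆ Z j) (hl : ∀ j, l ≤ j → Z j = ∅) (j : ℕ) :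
    lev (ofSeq l Z) j = Z j := by
  have hanti : ∀ i j, i ≤ j → Z j ⊆ Z i := by
    intro i j hij
    induction j, hij using Nat.le_induction with
    | base => exact Finset.Subset.refl _
    | succ j _ ih => exact (hZ j).trans ih
  ext H
  rw [mem_lev]
  constructor
  · intro h
    by_contra hcon
    have : (range l).filter (fun j => H ∈ Z j) ⊆ range j := by
      intro i hi
      rw [Finset.mem_filter] at hi
      rw [Finset.mem_range]
      by_contra h2
      exact hcon (hanti j i (by omega) hi.2)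
    have := Finset.card_le_card this
    rw [Finset.card_range] at this
    unfold ofSeq at h
    omega
  · intro h
    have : range (j+1) ⊆ (range l).filter (fun j => H ∈ Z j) := by
      intro i hi
      rw [Finset.mem_range] at hi
      have hi2 : H ∈ Z i := hanti i j (by omega) h
      rw [Finset.mem_filter, Finset.mem_range]
      refine ⟨?_, hi2⟩
      by_contra h3
      rw [hl i (by omega)] at hi2
      simp at hi2
    have := Finset.card_le_card this
    rw [Finset.card_range] at this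
    unfold ofSeq
    omega

lemma eq_of_lev {b c : ι → ℕ} (h : ∀ j, lev b j = lev c j) : b = c := by
  funext H
  have h1 : ∀ j, j < b H ↔ j < c H := by
    intro j
    have : H ∈ lev b j ↔ H ∈ lev c j := by rw [h j]
    simpa using this
  have h2 := h1 (b H)
  have h3 := h1 (c H)
  omega

lemma sum_eq_lev {b : ι → ℕ} {N : ℕ} (hb : ∀ H, b H ≤ N) :
    ∑ H, b H = ∑ j ∈ range N, (lev b j).card := by
  have : ∀ H, b H = ∑ j ∈ range N, if j < b H then 1 else 0 := by
    intro H
    rw [← Finset.card_filter]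
    have : (range N).filter (fun j => j < b H) = range (b H) := by
      ext j
      rw [Finset.mem_filter, Finset.mem_range, Finset.mem_range]
      have := hb H
      omega
    rw [this, Finset.card_range]
  calc ∑ H, b H = ∑ H, ∑ j ∈ range N, (if j < b H then 1 else 0) := Finset.sum_congr rfl (fun H _ => this H)
    _ = ∑ j ∈ range N, ∑ H, (if j < b H then 1 else 0) := Finset.sum_comm
    _ = ∑ j ∈ range N, (lev b j).card := by
      apply Finset.sum_congr rfl
      intro j _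
      rw [lev, Finset.card_filter]

/-- functions all of whose levels are flats, with given sum and total rank -/
def Bset (C : CovSys ι) (rk : Finset ι → ℕ) (k l : ℕ) : Set (ι → ℕ) :=
  {b | (∀ j, IsFl C (lev b j)) ∧ ∑ H, b H = l ∧ del rk b = k}

lemma le_of_sum {b : ι → ℕ} {l : ℕ} (h : ∑ H, b H = l) (H : ι) : b H ≤ l := by
  rw [← h]
  exact Finset.single_le_sum (f := b) (fun _ _ => Nat.zero_le _) (mem_univ H)

/-- transport of functions -/
noncomputable def tr (I : FlIso C C' rk rk') (l : ℕ) (b : ι → ℕ) : ι' → ℕ := ofSeq l (fun j => I.φ (lev b j))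

lemma lev_tr (I : FlIso C C' rk rk') {k l : ℕ} {b : ι → ℕ} (hb : b ∈ Bset C rk k l) (j : ℕ) :
    lev (tr I l b) j = I.φ (lev b j) := by
  obtain ⟨h1, h2, h3⟩ := hb
  unfold tr
  apply lev_ofSeq (Z := fun j => I.φ (lev b j))
  · intro j
    exact I.mono _ _ (h1 _) (h1 _) (lev_anti b (by omega))
  · intro j hj
    have : lev b j = ∅ := lev_eq_empty (le_of_sum h2) hj
    show I.φ (lev b j) = ∅
    rw [← Finset.card_eq_zero, I.card_eq _ (h1 j), this]; rfl

lemma tr_mem (I : FlIso C C' rk rk') (rk0 : rk ∅ = 0) (rk0' : rk' ∅ = 0) {k l : ℕ} {b : ι → ℕ}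
    (hb : b ∈ Bset C rk k l) : tr I l b ∈ Bset C' rk' k l := by
  have hlev := lev_tr I hb
  obtain ⟨h1, h2, h3⟩ := hb
  have hle : ∀ H, tr I l b H ≤ l := by
    intro H
    by_contra hcon
    have : H ∈ lev (tr I l b) l := mem_lev.2 (by omega)
    rw [hlev] at this
    have h4 : lev b l = ∅ := lev_eq_empty (le_of_sum h2) le_rfl
    have h5 : I.φ (lev b l) = ∅ := by
      rw [← Finset.card_eq_zero, I.card_eq _ (h1 l), h4]; rfl
    rw [h5] at this
    simp at this
  refine ⟨fun j => by rw [hlev]; exact I.hφ _ (h1 j), ?_, ?_⟩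
  · rw [sum_eq_lev hle]
    have h6 := sum_eq_lev (le_of_sum h2)
    rw [h2] at h6
    refine Eq.trans ?_ h6.symm
    apply Finset.sum_congr rfl
    intro j _
    rw [hlev, I.card_eq _ (h1 j)]
  · rw [← del_eq rk0' hle, ← h3, ← del_eq rk0 (le_of_sum h2)]
    apply Finset.sum_congr rfl
    intro j _
    rw [hlev, I.rk_eq _ (h1 j)]

/-- the equivalence between the sets of functions -/
noncomputable def trEquiv (I : FlIso C C' rk rk') (rk0 : rk ∅ = 0) (rk0' : rk' ∅ = 0) (k l : ℕ) :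
    Bset C rk k l ≃ Bset C' rk' k l where
  toFun b := ⟨tr I l b.1, tr_mem I rk0 rk0' b.2⟩
  invFun b := ⟨tr I.symm l b.1, tr_mem I.symm rk0' rk0 b.2⟩
  left_inv b := by
    apply Subtype.ext
    apply eq_of_lev
    intro j
    show lev (tr I.symm l (tr I l b.1)) j = _
    rw [lev_tr I.symm (tr_mem I rk0 rk0' b.2), lev_tr I b.2]
    exact I.left _ (b.2.1 j)
  right_inv b := by
    apply Subtype.ext
    apply eq_of_lev
    intro j
    show lev (tr I l (tr I.symm l b.1)) j = _
    rw [lev_tr I (tr_mem I.symm rk0' rk0 b.2), lev_tr I.symm b.2]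
    exact I.right _ (b.2.1 j)

variable {V V' : Type*} {sgn : V → ι → Bool} {sgn' : V' → ι' → Bool}

lemma sv_inj (hinj : Function.Injective sgn) : Function.Injective (sv sgn) := by
  intro u v h
  apply hinj
  funext H
  have := congrFun h H
  unfold sv at this
  cases h1 : sgn u H <;> cases h2 : sgn v H <;> simp_all

lemma card_fiber (hinj : Function.Injective sgn)
    (hV1 : ∀ z, sv sgn z ∈ C.cov) (hV2 : ∀ F ∈ C.cov, zs F = ∅ → ∃ z, sv sgn z = F) (b : ι → ℕ) :
    Nonempty ({y : V // InL C (sv sgn y) b} ≃ {x // x ∈ Tp C (fun _ => 0) b}) := by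
  refine ⟨Equiv.ofBijective (fun y => ⟨sv sgn y.1, mem_Tp.2 ⟨hV1 _, zs_sv sgn _, ?_, y.2⟩⟩) ⟨?_, ?_⟩⟩
  · intro H h; exact absurd rfl h
  · intro y y' h
    apply Subtype.ext
    apply sv_inj hinj
    exact congrArg Subtype.val h
  · rintro ⟨x, hx⟩
    have hx2 := mem_Tp.1 hx
    obtain ⟨z, rfl⟩ := hV2 x hx2.1 hx2.2.1
    exact ⟨⟨z, hx2.2.2.2⟩, rfl⟩

lemma isFl_of_inL {x : ι → SignType} {b : ι → ℕ} (h : InL C x b) (j : ℕ) : IsFl C (lev b j) := by
  obtain ⟨F, hF, _, hz⟩ := h j
  exact ⟨F, hF, hz⟩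

/-- the index set as a sigma type -/
noncomputable def idxEquiv (C : CovSys ι) (rk : Finset ι → ℕ) (sgn : V → ι → Bool) (k l : ℕ) :
    {p : V × (ι → ℕ) // InL C (sv sgn p.1) p.2 ∧ ∑ H, p.2 H = l ∧ del rk p.2 = k} ≃
      Σ b : Bset C rk k l, {y : V // InL C (sv sgn y) b.1} where
  toFun p := ⟨⟨p.1.2, fun j => isFl_of_inL p.2.1 j, p.2.2.1, p.2.2.2⟩, ⟨p.1.1, p.2.1⟩⟩
  invFun q := ⟨(q.2.1, q.1.1), q.2.2, q.1.2.2.1, q.1.2.2.2⟩
  left_inv _ := rfl
  right_inv _ := rfl

theorem index_equiv (I : FlIso C C' rk rk') (rk0 : rk ∅ = 0) (rk0' : rk' ∅ = 0)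
    (rkc : ∀ f ∈ C.cov, ∀ h ∈ C.cov, IsCover C (zs f) (zs h) → rk (zs h) = rk (zs f) + 1)
    (rkc' : ∀ f ∈ C'.cov, ∀ h ∈ C'.cov, IsCover C' (zs f) (zs h) → rk' (zs h) = rk' (zs f) + 1)
    (hinj : Function.Injective sgn) (hinj' : Function.Injective sgn')
    (hV1 : ∀ z, sv sgn z ∈ C.cov) (hV2 : ∀ F ∈ C.cov, zs F = ∅ → ∃ z, sv sgn z = F)
    (hV1' : ∀ z, sv sgn' z ∈ C'.cov) (hV2' : ∀ F ∈ C'.cov, zs F = ∅ → ∃ z, sv sgn' z = F)
    (k l : ℕ) :
    Nonempty ({p : V × (ι → ℕ) // InL C (sv sgn p.1) p.2 ∧ ∑ H, p.2 H = l ∧ del rk p.2 = k} ≃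
      {p : V' × (ι' → ℕ) // InL C' (sv sgn' p.1) p.2 ∧ ∑ H, p.2 H = l ∧ del rk' p.2 = k}) := by
  classical
  have hfib : ∀ b : Bset C rk k l, Nonempty ({y : V // InL C (sv sgn y) b.1} ≃
      {y : V' // InL C' (sv sgn' y) (trEquiv I rk0 rk0' k l b).1}) := by
    intro b
    obtain ⟨e1⟩ := card_fiber hinj hV1 hV2 b.1
    obtain ⟨e2⟩ := card_fiber hinj' hV1' hV2' (trEquiv I rk0 rk0' k l b).1
    have huniv : zs (fun _ => 0 : ι → SignType) = univ := by ext H; simp
    have huniv' : zs (fun _ => 0 : ι' → SignType) = univ := by ext H; simp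
    have hflu : IsFl C univ := ⟨_, C.zero_mem, huniv⟩
    have hflu' : IsFl C' univ := ⟨_, C'.zero_mem, huniv'⟩
    have hφu : I.φ univ = univ := by
      apply Finset.eq_univ_of_forall
      intro H
      have h1 : I.φ (I.ψ univ) ⊆ I.φ univ :=
        I.mono _ _ (I.hψ _ hflu') hflu (Finset.subset_univ _)
      rw [I.right _ hflu'] at h1
      exact h1 (mem_univ H)
    have hcard : (Tp C (fun _ => 0) b.1).card = (Tp C' (fun _ => 0) (trEquiv I rk0 rk0' k l b).1).card := by
      refine card_Tp I rkc rkc' l _ _ b.1 _ (le_of_sum b.2.2.1) C.zero_mem C'.zero_mem ?_ b.2.1 ?_ ?_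
      · rw [huniv, huniv', hφu]
      · intro j
        exact lev_tr I b.2 j
      · rw [huniv]; exact Finset.subset_univ _
    have e3 : {x // x ∈ Tp C (fun _ => 0) b.1} ≃
        {x // x ∈ Tp C' (fun _ => 0) (trEquiv I rk0 rk0' k l b).1} :=
      Finset.equivOfCardEq hcard
    exact ⟨e1.trans (e3.trans e2.symm)⟩
  exact ⟨(idxEquiv C rk sgn k l).trans
    ((Equiv.sigmaCongr (trEquiv I rk0 rk0' k l) (fun b => Classical.choice (hfib b))).trans
      (idxEquiv C' rk' sgn' k l).symm)⟩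

end Iso

end Pool.Agent.Lib.MP_1c795d_co
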