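import Pool.Agent.Lib.MP_1c795d_co.Box

/-!
Covector systems and the local lemma.
-/

set_option linter.unusedSectionVars false

namespace Pool.Agent.Lib.MP_1c795d_co

open Finset

variable {ι : Type*} [Fintype ι] [DecidableEq ι]

/-- zero set of a sign vector -/
def zs (F : ι → SignType) : Finset ι := univ.filter (fun H => F H = 0)

/-- composition of sign vectors -/
def comp (F G : ι → SignType) : ι → SignType := fun H => if F H = 0 then G H else F H

/-- opposite -/
def opp (F : ι → SignType) : ι → SignType := fun H => - F H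

/-- `s` is a face of `g` -/
def face (s g : ι → SignType) : Prop := ∀ H, s H ≠ 0 → s H = g H

/-- places where the sign vectors differ -/
def sep (f g : ι → SignType) : Finset ι := univ.filter (fun H => f H ≠ g H)

@[simp] lemma mem_zs {F : ι → SignType} {H : ι} : H ∈ zs F ↔ F H = 0 := by simp [zs]
@[simp] lemma mem_sep {f g : ι → SignType} {H : ι} : H ∈ sep f g ↔ f H ≠ g H := by simp [sep]

lemma zs_comp (F G : ι → SignType) : zs (comp F G) = zs F ∩ zs G := by
  ext H
  simp only [mem_zs, comp, Finset.mem_inter]
  by_cases h : F H = 0 <;> simp [h]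

lemma zs_opp (F : ι → SignType) : zs (opp F) = zs F := by
  ext H
  simp only [mem_zs, opp]
  cases F H <;> simp

lemma face.trans {a b c : ι → SignType} (h1 : face a b) (h2 : face b c) : face a c := by
  intro H hH
  have := h1 H hH
  rw [this]
  exact h2 H (by rw [← this]; exact hH)

lemma face.zs_subset {a b : ι → SignType} (h : face a b) : zs b ⊆ zs a := by
  intro H hH
  rw [mem_zs] at *
  by_contra h1
  exact h1 (by rw [h H h1]; exact hH)

lemma face.eq_of_zs {a b : ι → SignType} (h : face a b) (h2 : zs a = zs b) : a = b := by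
  funext H
  by_cases h1 : a H = 0
  · have : H ∈ zs b := by rw [← h2, mem_zs]; exact h1
    rw [h1, mem_zs.1 this]
  · exact h H h1

lemma face_refl (a : ι → SignType) : face a a := fun _ _ => rfl

lemma face_comp (F G : ι → SignType) : face F (comp F G) := by
  intro H h
  simp [comp, h]

lemma neg_ne_self' {a : SignType} (h : a ≠ 0) : -a ≠ a := by
  cases a <;> simp_all

lemma eq_neg_of_ne {a b : SignType} (ha : a ≠ 0) (hb : b ≠ 0) (h : a ≠ b) : a = -b := by
  revert ha hb h
  cases a <;> cases b <;> decide

/-- a system of covectors with the elimination property we need -/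
structure CovSys (ι : Type*) [Fintype ι] [DecidableEq ι] where
  cov : Set (ι → SignType)
  zero_mem : (fun _ => 0) ∈ cov
  opp_mem : ∀ {F}, F ∈ cov → opp F ∈ cov
  comp_mem : ∀ {F G}, F ∈ cov → G ∈ cov → comp F G ∈ cov
  hit : ∀ {g k}, g ∈ cov → k ∈ cov → zs g ⊆ zs k → g ≠ k →
    ∃ s ∈ cov, face s g ∧ zs g ⊂ zs s ∧ (∀ H, g H = k H → s H = g H) ∧
      (s = k ∨ zs s ∩ zs k = zs g)

variable (C : CovSys ι)

/-- covering relation between zero sets -/
def IsCover (Z Z' : Finset ι) : Prop :=
  Z ⊂ Z' ∧ ∀ k ∈ C.cov, Z ⊆ zs k → (∃ H ∈ Z', H ∉ Z ∧ H ∈ zs k) → Z' ⊆ zs k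

variable {C}

lemma step {f g : ι → SignType} (hf : f ∈ C.cov) (hg : g ∈ C.cov) (hz : zs f = zs g) (hfg : f ≠ g) :
    ∃ h ∈ C.cov, face h g ∧ zs g ⊂ zs h ∧ zs h ⊆ zs g ∪ sep f g ∧ IsCover C (zs g) (zs h) := by
  classical
  -- descend from a candidate
  have main : ∀ n : ℕ, ∀ h ∈ C.cov, (zs h).card ≤ n → face h g → zs g ⊂ zs h →
      zs h ⊆ zs g ∪ sep f g →
      ∃ h ∈ C.cov, face h g ∧ zs g ⊂ zs h ∧ zs h ⊆ zs g ∪ sep f g ∧ IsCover C (zs g) (zs h) := by
    intro n
    induction n with
    | zero =>
      intro h _ hn _ h2 _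
      exfalso
      have := Finset.card_lt_card h2
      omega
    | succ n ih =>
      intro h hh hn h1 h2 h3
      by_cases hc : IsCover C (zs g) (zs h)
      · exact ⟨h, hh, h1, h2, h3, hc⟩
      · have : ∃ k ∈ C.cov, zs g ⊆ zs k ∧ (∃ H ∈ zs h, H ∉ zs g ∧ H ∈ zs k) ∧ ¬ zs h ⊆ zs k := by
          by_contra hcon
          push Not at hcon
          exact hc ⟨h2, hcon⟩
        obtain ⟨k, hk, hgk, ⟨H0, hH0, hH0', hH0''⟩, hnk⟩ := this
        set k' := comp h k with hk'
        have hk'c : k' ∈ C.cov := C.comp_mem hh hk
        have hzk' : zs k' = zs h ∩ zs k := zs_comp h k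
        have hgk' : g ≠ k' := by
          intro e
          apply hH0'
          rw [e, hzk', Finset.mem_inter]
          exact ⟨hH0, hH0''⟩
        have hsub : zs g ⊆ zs k' := by
          rw [hzk']
          exact Finset.subset_inter h2.1 hgk
        obtain ⟨s, hs, s1, s2, s3, s4⟩ := C.hit hg hk'c hsub hgk'
        have hsh : zs s ⊆ zs h := by
          intro H hH
          by_contra hcon
          rw [mem_zs] at hcon hH
          have e1 : k' H = h H := by simp [hk', comp, hcon]
          have e2 : h H = g H := h1 H hcon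
          have e3 := s3 H (by rw [e1, e2])
          rw [hH] at e3
          exact hcon (by rw [e2, ← e3])
        have hlt : zs s ⊂ zs h := by
          refine ⟨hsh, fun hcon => ?_⟩
          rcases s4 with e | e
          · apply hnk
            have : zs h ⊆ zs s := hcon
            rw [e, hzk'] at this
            exact fun H hH => (Finset.mem_inter.1 (this hH)).2
          · apply hH0'
            rw [← e, Finset.mem_inter]
            refine ⟨hcon hH0, ?_⟩
            rw [hzk', Finset.mem_inter]
            exact ⟨hH0, hH0''⟩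
        refine ih s hs ?_ s1 s2 (fun H hH => h3 (hsh hH))
        have := Finset.card_lt_card hlt
        omega
  obtain ⟨s, hs, s1, s2, s3, _⟩ := C.hit hg hf (by rw [hz]) (Ne.symm hfg)
  refine main _ s hs le_rfl s1 s2 ?_
  intro H hH
  rw [Finset.mem_union]
  by_cases e : f H = g H
  · left
    have := s3 H e.symm
    rw [mem_zs] at *
    rw [← this, hH]
  · right; exact mem_sep.2 e

lemma cover_exists {F x : ι → SignType} (hF : F ∈ C.cov) (hx : x ∈ C.cov) (hFx : face F x)
    (hne : F ≠ x) : ∃ f ∈ C.cov, face F f ∧ face f x ∧ IsCover C (zs f) (zs F) := by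
  classical
  have main : ∀ n : ℕ, ∀ f ∈ C.cov, (zs F).card ≤ (zs f).card + n → face F f → face f x → F ≠ f →
      ∃ f ∈ C.cov, face F f ∧ face f x ∧ IsCover C (zs f) (zs F) := by
    intro n
    induction n with
    | zero =>
      intro f _ hn h1 _ h3
      exfalso
      apply h3
      apply h1.eq_of_zs
      exact (Finset.eq_of_subset_of_card_le h1.zs_subset hn).symm
    | succ n ih =>
      intro f hf hn h1 h2 h3
      set g := comp F (opp f) with hg
      have hgc : g ∈ C.cov := C.comp_mem hF (C.opp_mem hf)
      have hzg : zs g = zs f := by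
        rw [hg, zs_comp, zs_opp]
        exact Finset.inter_eq_right.2 h1.zs_subset
      have hne' : g ≠ f := by
        intro e
        apply h3
        apply h1.eq_of_zs
        refine le_antisymm ?_ h1.zs_subset
        intro H hH
        by_contra hcon
        rw [mem_zs] at hH hcon
        have : g H = f H := by rw [e]
        rw [hg] at this
        simp only [comp, hH, if_true, opp] at this
        exact neg_ne_self' hcon this
      obtain ⟨h, hh, k1, k2, k3, k4⟩ := step hgc hf hzg hne'
      have hsub : zs h ⊆ zs F := by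
        intro H hH
        have := k3 hH
        rw [Finset.mem_union] at this
        rcases this with h4 | h4
        · exact h1.zs_subset h4
        · by_contra hcon
          rw [mem_zs] at hcon
          rw [mem_sep] at h4
          apply h4
          rw [hg]
          simp only [comp, hcon, if_false]
          exact h1 H hcon
      have hFh : face F h := by
        intro H hH
        have : H ∉ zs h := fun h5 => hH (mem_zs.1 (hsub h5))
        rw [mem_zs] at this
        rw [k1 H this]
        exact h1 H hH
      by_cases e : F = h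
      · refine ⟨f, hf, h1, h2, ?_⟩
        rw [← e] at k4
        exact k4
      · refine ih h hh ?_ hFh (k1.trans h2) e
        have := Finset.card_lt_card k2
        omega
  exact main (zs F).card x hx (by omega) hFx (face_refl x) hne

/-- closure properties of the acyclicity predicate -/
structure Good (AX : (ι → ℕ) → Finset ι → Prop) : Prop where
  whole : ∀ (c : ι → ℕ) (D : Finset ι) (H : ι), H ∉ D → AX c D → AX (bump c {H}) D → AX c (insert H D)
  upper : ∀ (c : ι → ℕ) (D : Finset ι) (H : ι), H ∉ D → AX c (insert H D) → AX c D → AX (bump c {H}) D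

variable {AX : (ι → ℕ) → Finset ι → Prop}

lemma Good.patch (G : Good AX) {K D : Finset ι} (hKD : Disjoint K D) (c : ι → ℕ)
    (h : ∀ T ⊆ K, AX (bump c T) D) : AX c (K ∪ D) := by
  induction K using Finset.induction_on generalizing c with
  | empty => simpa using h ∅ (Finset.empty_subset _)
  | @insert H K' hH ih =>
    rw [Finset.disjoint_insert_left] at hKD
    have hHn : H ∉ K' ∪ D := by
      rw [Finset.mem_union]; push Not; exact ⟨hH, hKD.1⟩
    rw [Finset.insert_union]
    refine G.whole c (K' ∪ D) H hHn ?_ ?_
    · exact ih hKD.2 c (fun T hT => h T (hT.trans (Finset.subset_insert H K')))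
    · refine ih hKD.2 _ (fun T hT => ?_)
      have hd : Disjoint ({H} : Finset ι) T := by
        rw [Finset.disjoint_singleton_left]; exact fun h => hH (hT h)
      rw [bump_bump _ hd]
      refine h _ ?_
      rw [← Finset.insert_eq]
      exact Finset.insert_subset_insert H hT

lemma Good.extract (G : Good AX) {K D : Finset ι} (hKD : Disjoint K D) (c : ι → ℕ)
    (h0 : AX c (K ∪ D)) (h : ∀ T ⊂ K, AX (bump c T) D) : AX (bump c K) D := by
  induction K using Finset.induction_on generalizing c with
  | empty => simpa using h0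
  | @insert H K' hH ih =>
    rw [Finset.disjoint_insert_left] at hKD
    have hHn : H ∉ K' ∪ D := by
      rw [Finset.mem_union]; push Not; exact ⟨hH, hKD.1⟩
    rw [Finset.insert_union] at h0
    have h1 : AX c (K' ∪ D) := G.patch hKD.2 c (fun T hT => h T
      (Finset.ssubset_of_subset_of_ssubset hT (Finset.ssubset_insert hH)))
    have h2 := G.upper c (K' ∪ D) H hHn h0 h1
    have hd : Disjoint ({H} : Finset ι) K' := by
      rw [Finset.disjoint_singleton_left]; exact hH
    have h3 := ih hKD.2 (bump c {H}) h2 (fun T hT => by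
      have hd' : Disjoint ({H} : Finset ι) T := by
        rw [Finset.disjoint_singleton_left]; exact fun h => hH (hT.1 h)
      rw [bump_bump _ hd']
      refine h _ ?_
      rw [← Finset.insert_eq]
      refine ⟨Finset.insert_subset_insert H hT.1, fun hcon => hT.2 ?_⟩
      intro a ha
      have := hcon (Finset.mem_insert_of_mem ha)
      rw [Finset.mem_insert] at this
      rcases this with e | e
      · exact absurd (e ▸ ha) hH
      · exact e)
    rw [bump_bump _ hd, ← Finset.insert_eq] at h3
    exact h3

/-- `T` is the zero set of a face of `x` -/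
def FaceSet (C : CovSys ι) (x : ι → SignType) (T : Finset ι) : Prop :=
  ∃ F ∈ C.cov, face F x ∧ zs F = T

/-- `S` is the set separating `x` from a tope -/
def TopeSet (C : CovSys ι) (x : ι → SignType) (S : Finset ι) : Prop :=
  ∃ y ∈ C.cov, zs y = ∅ ∧ sep x y = S

section Local

variable {x : ι → SignType} (hx : x ∈ C.cov) (hx0 : zs x = ∅) (G : Good AX)
  {c : ι → ℕ} {Z : Finset ι}
  (c0 : ∀ T ⊂ Z, ¬ FaceSet C x T → AX (bump c T) ∅)
  (p3 : ∀ S ⊆ Z, S ≠ ∅ → TopeSet C x S → AX c S)

include G c0 in
lemma noFace {S D : Finset ι} (hd : Disjoint S D)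
    (h : ∀ T ⊆ D, ¬ FaceSet C x (S ∪ T) ∧ S ∪ T ⊂ Z) : AX (bump c S) D := by
  have := G.patch (K := D) (D := ∅) (Finset.disjoint_empty_right D) (bump c S) (fun T hT => by
    rw [bump_bump _ (Finset.disjoint_of_subset_right hT hd)]
    exact c0 _ (h T hT).2 (h T hT).1)
  simpa using this

include G c0 in
/-- the extraction step along a cover -/
lemma along_cover {Z1 Z2 D : Finset ι}
    (hcov : IsCover C Z1 Z2) (hD : Disjoint Z2 D) (hZ : Z2 ∪ D ⊆ Z)
    (hW : AX (bump c Z1) ((Z2 \ Z1) ∪ D)) (hL : AX (bump c Z1) D) : AX (bump c Z2) D := by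
  have hKD : Disjoint (Z2 \ Z1) D := Finset.disjoint_of_subset_left Finset.sdiff_subset hD
  have h1 := G.extract hKD (bump c Z1) hW (fun T hT => by
    by_cases hT0 : T = ∅
    · subst hT0; simpa using hL
    · obtain ⟨H1, hH1⟩ := Finset.nonempty_iff_ne_empty.2 hT0
      obtain ⟨hT1, hT2⟩ := hT
      have : ∃ H2 ∈ Z2 \ Z1, H2 ∉ T := by
        by_contra hcon
        push Not at hcon
        exact hT2 hcon
      obtain ⟨H2, hH2, hH2'⟩ := this
      have hdis : Disjoint Z1 T :=
        Finset.disjoint_of_subset_right hT1 Finset.disjoint_sdiff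
      rw [bump_bump _ hdis]
      have hZ1 : Z1 ⊆ Z2 := hcov.1.1
      refine noFace G c0 (x := x) ?_ ?_
      · refine Finset.disjoint_of_subset_left ?_ hD
        exact Finset.union_subset hZ1 (hT1.trans Finset.sdiff_subset)
      · intro T' hT'
        have hH2n : H2 ∉ Z1 ∪ T ∪ T' := by
          rw [Finset.mem_union, Finset.mem_union]
          rw [Finset.mem_sdiff] at hH2
          push Not
          exact ⟨⟨hH2.2, hH2'⟩, fun h => (Finset.disjoint_left.1 hD) hH2.1 (hT' h)⟩
        constructor
        · rintro ⟨F, hF, -, hzF⟩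
          have h3 : Z2 ⊆ zs F := by
            refine hcov.2 F hF ?_ ⟨H1, ?_, ?_, ?_⟩
            · rw [hzF]
              exact fun a ha => Finset.mem_union_left _ (Finset.mem_union_left _ ha)
            · exact (Finset.mem_sdiff.1 (hT1 hH1)).1
            · exact (Finset.mem_sdiff.1 (hT1 hH1)).2
            · rw [hzF]
              exact Finset.mem_union_left _ (Finset.mem_union_right _ hH1)
          apply hH2n
          rw [← hzF]
          exact h3 (Finset.mem_sdiff.1 hH2).1
        · refine ⟨?_, fun hcon => hH2n (hcon (hZ (Finset.mem_union_left _ (Finset.mem_sdiff.1 hH2).1)))⟩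
          intro a ha
          rw [Finset.mem_union, Finset.mem_union] at ha
          apply hZ
          rw [Finset.mem_union]
          rcases ha with (ha | ha) | ha
          · exact Or.inl (hZ1 ha)
          · exact Or.inl (Finset.mem_sdiff.1 (hT1 ha)).1
          · exact Or.inr (hT' ha))
  rw [bump_bump _ Finset.disjoint_sdiff, Finset.union_sdiff_of_subset hcov.1.1] at h1
  exact h1

include hx hx0 G c0 p3 in
lemma localQ : ∀ n : ℕ, ∀ f g : ι → SignType, (zs f).card ≤ n → f ∈ C.cov → g ∈ C.cov → face f x →
    zs f = zs g → f ≠ g → zs f ∪ sep f g ⊆ Z → AX (bump c (zs f)) (sep f g) := by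
  intro n
  induction n using Nat.strong_induction_on with
  | _ n ih =>
  intro f g hn hf hg hfx hz hne hZ
  by_cases hf0 : zs f = ∅
  · have hfx' : f = x := hfx.eq_of_zs (by rw [hf0, hx0])
    subst hfx'
    rw [hf0, bump_empty]
    refine p3 _ ((Finset.subset_union_right).trans hZ) ?_ ⟨g, hg, by rw [← hz, hf0], rfl⟩
    intro e
    apply hne
    funext H
    by_contra hcon
    have : H ∈ sep f g := mem_sep.2 hcon
    rw [e] at this
    simp at this
  · have hfx' : f ≠ x := by
      intro e; rw [e] at hf0; exact hf0 hx0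
    obtain ⟨f', hf', h1, h2, h3⟩ := cover_exists hf hx hfx hfx'
    have hlt := Finset.card_lt_card h3.1
    -- first competitor
    set g1 := comp g (opp f') with hg1
    set g2 := comp g f' with hg2
    have hzz : zs g ∩ zs f' = zs f' := Finset.inter_eq_right.2 (by rw [← hz]; exact h3.1.1)
    have hz1 : zs f' = zs g1 := by rw [hg1, zs_comp, zs_opp, hzz]
    have hz2 : zs f' = zs g2 := by rw [hg2, zs_comp, hzz]
    have hs1 : sep f' g1 = (zs f \ zs f') ∪ sep f g := by
      ext H
      rw [Finset.mem_union, Finset.mem_sdiff, mem_sep, mem_sep, mem_zs, mem_zs]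
      by_cases e1 : f H = 0
      · have e2 : g H = 0 := by rw [← mem_zs, ← hz, mem_zs]; exact e1
        have e3 : g1 H = - f' H := by simp [hg1, comp, e2, opp]
        rw [e3, e1, e2]
        constructor
        · intro h
          left
          refine ⟨rfl, fun h' => h (by rw [h']; rfl)⟩
        · rintro (⟨-, h⟩ | h)
          · exact fun h' => neg_ne_self' h h'.symm
          · exact absurd rfl h
      · have e2 : g H ≠ 0 := fun e => e1 (by rw [← mem_zs, hz, mem_zs]; exact e)
        have e3 : g1 H = g H := by simp [hg1, comp, e2]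
        have e4 : f H = f' H := h1 H e1
        rw [e3, ← e4]
        simp [e1]
    have hs2 : sep f' g2 = sep f g := by
      ext H
      rw [mem_sep, mem_sep]
      by_cases e1 : f H = 0
      · have e2 : g H = 0 := by rw [← mem_zs, ← hz, mem_zs]; exact e1
        have e3 : g2 H = f' H := by simp [hg2, comp, e2]
        rw [e3, e1, e2]; simp
      · have e2 : g H ≠ 0 := fun e => e1 (by rw [← mem_zs, hz, mem_zs]; exact e)
        have e3 : g2 H = g H := by simp [hg2, comp, e2]
        have e4 : f H = f' H := h1 H e1
        rw [e3, ← e4]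
    have hdis : Disjoint (zs f) (sep f g) := by
      rw [Finset.disjoint_left]
      intro H h4 h5
      rw [mem_sep] at h5
      rw [mem_zs] at h4
      apply h5
      rw [h4]
      have : H ∈ zs g := by rw [← hz, mem_zs]; exact h4
      exact (mem_zs.1 this).symm
    have hW : AX (bump c (zs f')) ((zs f \ zs f') ∪ sep f g) := by
      have := ih _ (lt_of_lt_of_le hlt hn) f' g1 le_rfl hf' (C.comp_mem hg (C.opp_mem hf')) h2 hz1 ?_ ?_
      · rw [hs1] at this; exact this
      · intro e
        obtain ⟨H, hH⟩ := Finset.exists_of_ssubset h3.1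
        have : H ∈ sep f' g1 := by
          rw [hs1, Finset.mem_union, Finset.mem_sdiff]; exact Or.inl hH
        rw [mem_sep, ← e] at this
        exact this rfl
      · rw [hs1]
        refine Finset.union_subset ((h3.1.1.trans Finset.subset_union_left).trans hZ) ?_
        refine Finset.union_subset ((Finset.sdiff_subset.trans Finset.subset_union_left).trans hZ) ?_
        exact Finset.subset_union_right.trans hZ
    have hL : AX (bump c (zs f')) (sep f g) := by
      have := ih _ (lt_of_lt_of_le hlt hn) f' g2 le_rfl hf' (C.comp_mem hg hf') h2 hz2 ?_ ?_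
      · rw [hs2] at this; exact this
      · intro e
        apply hne
        funext H
        by_contra hcon
        have : H ∈ sep f' g2 := by rw [hs2]; exact mem_sep.2 hcon
        rw [mem_sep, ← e] at this
        exact this rfl
      · rw [hs2]
        refine Finset.union_subset ((h3.1.1.trans Finset.subset_union_left).trans hZ) ?_
        exact Finset.subset_union_right.trans hZ
    exact along_cover G c0 h3 hdis hZ hW hL

include hx hx0 G c0 p3 in
/-- if `Z` is a nonempty face set then there is a cover below with acyclic box -/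
lemma local_face (hZ0 : Z ≠ ∅) {F : ι → SignType} (hF : F ∈ C.cov) (hFx : face F x) (hFZ : zs F = Z) :
    ∃ f ∈ C.cov, face f x ∧ IsCover C (zs f) Z ∧ AX (bump c (zs f)) (Z \ zs f) := by
  have hne : F ≠ x := by
    intro e; rw [← hFZ, e] at hZ0; exact hZ0 hx0
  obtain ⟨f, hf, h1, h2, h3⟩ := cover_exists hF hx hFx hne
  rw [hFZ] at h3
  refine ⟨f, hf, h2, h3, ?_⟩
  set g := comp F (opp f) with hg
  have hzg : zs f = zs g := by
    rw [hg, zs_comp, zs_opp, hFZ]
    exact (Finset.inter_eq_right.2 h3.1.1).symm
  have hs : sep f g = Z \ zs f := by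
    ext H
    rw [Finset.mem_sdiff, mem_sep, mem_zs, ← hFZ, mem_zs]
    by_cases e1 : F H = 0
    · have e3 : g H = - f H := by simp [hg, comp, e1, opp]
      rw [e3]
      constructor
      · intro h
        exact ⟨e1, fun h' => h (by rw [h']; rfl)⟩
      · rintro ⟨-, h⟩
        exact fun h' => neg_ne_self' h h'.symm
    · have e3 : g H = F H := by simp [hg, comp, e1]
      rw [e3, ← h1 H e1]
      simp [e1]
  rw [← hs]
  refine localQ hx hx0 G c0 p3 _ f g le_rfl hf (C.comp_mem hF (C.opp_mem hf)) h2 hzg ?_ ?_
  · intro e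
    obtain ⟨H, hH⟩ := Finset.exists_of_ssubset h3.1
    have : H ∈ sep f g := by rw [hs, Finset.mem_sdiff]; exact hH
    rw [mem_sep, ← e] at this
    exact this rfl
  · rw [hs]
    exact Finset.union_subset h3.1.1 Finset.sdiff_subset

include hx hx0 G c0 p3 in
lemma local_noface_aux (hZ : ¬ FaceSet C x Z) : ∀ n : ℕ, ∀ f g : ι → SignType, (sep f g).card ≤ n →
    f ∈ C.cov → g ∈ C.cov → face f x → zs f = zs g → zs f ∪ sep f g = Z → AX (bump c Z) ∅ := by
  intro n
  induction n using Nat.strong_induction_on with
  | _ n ih =>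
  intro f g hn hf hg hfx hz hZe
  have hne : f ≠ g := by
    rintro rfl
    apply hZ
    refine ⟨f, hf, hfx, ?_⟩
    rw [← hZe]
    have : sep f f = ∅ := by ext H; simp
    rw [this, Finset.union_empty]
  obtain ⟨h, hh, k1, k2, k3, k4⟩ := step hf hg hz hne
  rw [← hz] at k2 k3 k4
  have hdis : Disjoint (zs f) (sep f g) := by
    rw [Finset.disjoint_left]
    intro H h4 h5
    rw [mem_sep] at h5
    rw [mem_zs] at h4
    apply h5
    rw [h4]
    have : H ∈ zs g := by rw [← hz, mem_zs]; exact h4
    exact (mem_zs.1 this).symm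
  set S' := sep f g \ zs h with hS'
  have hsplit : (zs h \ zs f) ∪ S' = sep f g := by
    ext H
    rw [hS', Finset.mem_union, Finset.mem_sdiff, Finset.mem_sdiff]
    constructor
    · rintro (⟨h1, h2⟩ | ⟨h1, -⟩)
      · have := k3 h1
        rw [Finset.mem_union] at this
        rcases this with h3 | h3
        · exact absurd h3 h2
        · exact h3
      · exact h1
    · intro h1
      by_cases h2 : H ∈ zs h
      · exact Or.inl ⟨h2, fun h3 => (Finset.disjoint_left.1 hdis) h3 h1⟩
      · exact Or.inr ⟨h1, h2⟩
  have hZ' : zs h ∪ S' = Z := by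
    rw [← hZe, ← hsplit, ← Finset.union_assoc, Finset.union_sdiff_of_subset k2.1]
  have hW : AX (bump c (zs f)) ((zs h \ zs f) ∪ S') := by
    rw [hsplit]
    exact localQ hx hx0 G c0 p3 _ f g le_rfl hf hg hfx hz hne (by rw [hZe])
  -- the intermediate tope
  set g' := comp h f with hg'
  have hzg' : zs f = zs g' := by
    rw [hg', zs_comp]
    exact (Finset.inter_eq_right.2 k2.1).symm
  have hsg' : sep f g' = S' := by
    ext H
    rw [hS', Finset.mem_sdiff, mem_sep, mem_sep, mem_zs]
    by_cases e1 : h H = 0
    · have : g' H = f H := by simp [hg', comp, e1]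
      rw [this]; simp [e1]
    · have : g' H = h H := by simp [hg', comp, e1]
      rw [this, k1 H e1]
      constructor
      · intro h2
        refine ⟨h2, fun h3 => e1 (by rw [k1 H e1, h3])⟩
      · exact fun h2 => h2.1
  have hL : AX (bump c (zs f)) S' := by
    rw [← hsg']
    refine localQ hx hx0 G c0 p3 _ f g' le_rfl hf (C.comp_mem hh hf) hfx hzg' ?_ ?_
    · intro e
      apply hZ
      have hfh : face h f := by rw [e, hg']; exact face_comp h f
      refine ⟨h, hh, hfh.trans hfx, ?_⟩
      have : S' = ∅ := by rw [← hsg', ← e]; ext H; simp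
      rw [← hZ', this, Finset.union_empty]
    · rw [hsg', ← hZ']
      exact Finset.union_subset_union k2.1 (Finset.Subset.refl _)
  have hdis' : Disjoint (zs h) S' := Finset.disjoint_sdiff
  have hU : AX (bump c (zs h)) S' :=
    along_cover G c0 k4 hdis' (by rw [hZ']) hW hL
  by_cases hcase : ∃ T' ⊆ S', FaceSet C x (zs h ∪ T')
  · obtain ⟨T', hT', F, hF, hFx, hzF⟩ := hcase
    set f1 := comp F (opp h) with hf1
    have hzf1 : zs f1 = zs h := by
      rw [hf1, zs_comp, zs_opp, hzF]
      exact Finset.inter_eq_right.2 Finset.subset_union_left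
    have hf1x : face f1 x := by
      intro H hH
      have e1 : h H ≠ 0 := by
        intro e; apply hH; rw [← mem_zs, hzf1, mem_zs]; exact e
      by_cases e2 : F H = 0
      · have e3 : f1 H = - h H := by simp [hf1, comp, e2, opp]
        rw [e3, k1 H e1]
        have e4 : H ∈ zs F := mem_zs.2 e2
        rw [hzF, Finset.mem_union] at e4
        rcases e4 with e4 | e4
        · exact absurd (mem_zs.1 e4) e1
        · have e5 := hT' e4
          rw [hS', Finset.mem_sdiff, mem_sep] at e5
          have e6 : f H ≠ 0 := by
            intro e; apply e1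
            have : H ∈ zs h := k2.1 (mem_zs.2 e)
            exact mem_zs.1 this
          have e7 : g H ≠ 0 := by
            rw [← k1 H e1]; exact e1
          rw [← eq_neg_of_ne e6 e7 e5.1]
          exact hfx H e6
      · have e3 : f1 H = F H := by simp [hf1, comp, e2]
        rw [e3]; exact hFx H e2
    have hsf1 : sep f1 h = S' := by
      ext H
      rw [hS', Finset.mem_sdiff, mem_sep, mem_sep, mem_zs]
      by_cases e1 : h H = 0
      · have : f1 H = 0 := by rw [← mem_zs, hzf1, mem_zs]; exact e1
        rw [this, e1]; simp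
      · have e2 : f1 H ≠ 0 := by
          intro e; apply e1; rw [← mem_zs, ← hzf1, mem_zs]; exact e
        have e3 : f H ≠ 0 := by
          intro e; apply e1
          have : H ∈ zs h := k2.1 (mem_zs.2 e)
          exact mem_zs.1 this
        rw [hf1x H e2, ← hfx H e3, k1 H e1]
        constructor
        · intro h2
          refine ⟨h2, fun h3 => ?_⟩
          exact e1 (by rw [k1 H e1]; exact h3)
        · exact fun h2 => h2.1
    refine ih _ (lt_of_lt_of_le ?_ hn) f1 h le_rfl (C.comp_mem hF (C.opp_mem hh)) hh hf1x hzf1 ?_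
    · rw [hsf1, ← hsplit]
      apply Finset.card_lt_card
      refine ⟨Finset.subset_union_right, fun hcon => ?_⟩
      obtain ⟨H, hH⟩ := Finset.exists_of_ssubset k2
      have := hcon (Finset.mem_union_left S' (Finset.mem_sdiff.2 hH))
      exact (Finset.disjoint_left.1 hdis') hH.1 this
    · rw [hzf1, hsf1, hZ']
  · push Not at hcase
    have := G.extract (K := S') (D := ∅) (Finset.disjoint_empty_right _) (bump c (zs h))
      (by rw [Finset.union_empty]; exact hU) (fun T hT => by
        rw [bump_bump _ (Finset.disjoint_of_subset_right hT.1 hdis')]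
        refine c0 _ ?_ (hcase T hT.1)
        rw [← hZ']
        refine ⟨Finset.union_subset_union (Finset.Subset.refl _) hT.1, fun hcon => hT.2 ?_⟩
        intro a ha
        have := hcon (Finset.mem_union_right _ ha)
        rw [Finset.mem_union] at this
        rcases this with h5 | h5
        · exact absurd ha (Finset.disjoint_left.1 hdis' h5)
        · exact h5)
    rw [bump_bump _ hdis', hZ'] at this
    exact this

include hx hx0 G c0 p3 in
lemma local_noface (hZ : ¬ FaceSet C x Z) (hZ2 : TopeSet C x Z) : AX (bump c Z) ∅ := by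
  obtain ⟨y, hy, hy0, hs⟩ := hZ2
  refine local_noface_aux hx hx0 G c0 p3 hZ _ x y le_rfl hx hy (face_refl x) (by rw [hx0, hy0]) ?_
  rw [hx0, Finset.empty_union, hs]

end Local

end Pool.Agent.Lib.MP_1c795d_co
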