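import Pool.Agent.Lib.MP_1c795d_co.Count

/-!
An order isomorphism between the posets of flats preserves rank and cardinality.
-/

set_option linter.unusedSectionVars false

namespace Pool.Agent.Lib.MP_1c795d_co

open Finset

section FlMk

variable {ι ι' : Type*} [Fintype ι] [DecidableEq ι] [Fintype ι'] [DecidableEq ι']

/-- an order isomorphism between the posets of flats -/
structure FlOrd (C : CovSys ι) (C' : CovSys ι') where
  φ : Finset ι → Finset ι'
  ψ : Finset ι' → Finset ι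
  hφ : ∀ Z, IsFl C Z → IsFl C' (φ Z)
  hψ : ∀ Z, IsFl C' Z → IsFl C (ψ Z)
  left : ∀ Z, IsFl C Z → ψ (φ Z) = Z
  right : ∀ Z, IsFl C' Z → φ (ψ Z) = Z
  mono : ∀ Z W, IsFl C Z → IsFl C W → Z ⊆ W → φ Z ⊆ φ W
  mono' : ∀ Z W, IsFl C' Z → IsFl C' W → Z ⊆ W → ψ Z ⊆ ψ W

variable {C : CovSys ι} {C' : CovSys ι'}

/-- the inverse -/
def FlOrd.symm (I : FlOrd C C') : FlOrd C' C where
  φ := I.ψ
  ψ := I.φ
  hφ := I.hψ
  hψ := I.hφ
  left := I.right
  right := I.left
  mono := I.mono'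
  mono' := I.mono

lemma FlOrd.map_empty (I : FlOrd C C') (he : IsFl C ∅) (he' : IsFl C' ∅) : I.φ ∅ = ∅ := by
  have h1 := I.mono ∅ (I.ψ ∅) he (I.hψ _ he') (Finset.empty_subset _)
  rw [I.right _ he'] at h1
  exact Finset.subset_empty.1 h1

lemma FlOrd.map_single (I : FlOrd C C') (hs : ∀ i, IsFl C {i}) (hs' : ∀ i, IsFl C' {i})
    (he : IsFl C ∅) (he' : IsFl C' ∅) (i : ι) : ∃ j, I.φ {i} = {j} := by
  have hne : (I.φ {i}).Nonempty := by
    by_contra hcon
    rw [Finset.not_nonempty_iff_eq_empty] at hcon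
    have h1 := I.left _ (hs i)
    rw [hcon, ← I.map_empty he he', I.left _ he] at h1
    exact Finset.singleton_ne_empty i h1.symm
  obtain ⟨j, hj⟩ := hne
  refine ⟨j, ?_⟩
  have h1 := I.mono' {j} (I.φ {i}) (hs' j) (I.hφ _ (hs i)) (Finset.singleton_subset_iff.2 hj)
  rw [I.left _ (hs i)] at h1
  rcases Finset.subset_singleton_iff.1 h1 with h2 | h2
  · exfalso
    have h3 := I.right _ (hs' j)
    rw [h2, I.map_empty he he'] at h3
    exact Finset.singleton_ne_empty j h3.symm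
  · rw [← I.right _ (hs' j), h2]

theorem FlOrd.card_eq (I : FlOrd C C') (hs : ∀ i, IsFl C {i}) (hs' : ∀ i, IsFl C' {i})
    (he : IsFl C ∅) (he' : IsFl C' ∅) (Z : Finset ι) (hZ : IsFl C Z) : (I.φ Z).card = Z.card := by
  choose α hα using fun i => I.map_single hs hs' he he' i
  have hinj : Function.Injective α := by
    intro i j hij
    have h1 : I.φ {i} = I.φ {j} := by rw [hα, hα, hij]
    have h2 := I.left _ (hs i)
    rw [h1, I.left _ (hs j)] at h2
    exact (Finset.singleton_injective h2).symm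
  have h : I.φ Z = Z.image α := by
    apply Finset.Subset.antisymm
    · intro j hj
      have h1 := I.mono' {j} (I.φ Z) (hs' j) (I.hφ _ hZ) (Finset.singleton_subset_iff.2 hj)
      rw [I.left _ hZ] at h1
      obtain ⟨i, hi⟩ := I.symm.map_single hs' hs he' he j
      have hi' : I.ψ {j} = {i} := hi
      rw [hi', Finset.singleton_subset_iff] at h1
      rw [Finset.mem_image]
      refine ⟨i, h1, ?_⟩
      have h2 := I.right _ (hs' j)
      rw [hi', hα] at h2
      exact Finset.singleton_injective h2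
    · intro j hj
      rw [Finset.mem_image] at hj
      obtain ⟨i, hi, rfl⟩ := hj
      have h1 := I.mono {i} Z (hs i) hZ (Finset.singleton_subset_iff.2 hi)
      rw [hα, Finset.singleton_subset_iff] at h1
      exact h1
  rw [h, Finset.card_image_of_injective _ hinj]

lemma FlOrd.cover (I : FlOrd C C') {Z W : Finset ι} (hZ : IsFl C Z) (hW : IsFl C W)
    (hc : IsCover C Z W) : IsCover C' (I.φ Z) (I.φ W) := by
  have hsub := I.mono Z W hZ hW hc.1.1
  constructor
  · refine Finset.ssubset_iff_subset_ne.2 ⟨hsub, fun h => ?_⟩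
    have h1 := I.left _ hZ
    rw [h, I.left _ hW] at h1
    exact hc.1.2 (by rw [h1])
  · rintro k' hk' h1 ⟨H', h2, h3, h4⟩
    obtain ⟨w', hw', hzw'⟩ := I.hφ W hW
    have hU' : IsFl C' (I.φ W ∩ zs k') := ⟨comp w' k', C'.comp_mem hw' hk', by rw [zs_comp, hzw']⟩
    set U := I.ψ (I.φ W ∩ zs k') with hU
    have hUf : IsFl C U := I.hψ _ hU'
    have h5 : Z ⊆ U := by
      have := I.mono' _ _ (I.hφ Z hZ) hU' (Finset.subset_inter hsub h1)
      rwa [I.left Z hZ] at this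
    have h6 : U ≠ Z := by
      intro h
      have h7 := I.right _ hU'
      rw [← hU, h] at h7
      apply h3
      rw [h7, Finset.mem_inter]
      exact ⟨h2, h4⟩
    have h8 : U ⊆ W := by
      have := I.mono' _ _ hU' (I.hφ W hW) Finset.inter_subset_left
      rwa [I.left W hW] at this
    obtain ⟨u, hu, hzu⟩ := hUf
    obtain ⟨H, hH1, hH2⟩ := Finset.exists_of_ssubset (Finset.ssubset_iff_subset_ne.2 ⟨h5, Ne.symm h6⟩)
    have h9 := hc.2 u hu (by rw [hzu]; exact h5) ⟨H, h8 hH1, hH2, by rw [hzu]; exact hH1⟩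
    rw [hzu] at h9
    have h10 : U = W := Finset.Subset.antisymm h8 h9
    have h11 := I.right _ hU'
    rw [← hU, h10] at h11
    rw [h11]
    exact Finset.inter_subset_right

theorem FlOrd.rk_eq {rk : Finset ι → ℕ} {rk' : Finset ι' → ℕ} (I : FlOrd C C')
    (he : IsFl C ∅) (he' : IsFl C' ∅) (rk0 : rk ∅ = 0) (rk0' : rk' ∅ = 0)
    (rkc : ∀ f ∈ C.cov, ∀ h ∈ C.cov, IsCover C (zs f) (zs h) → rk (zs h) = rk (zs f) + 1)
    (rkc' : ∀ f ∈ C'.cov, ∀ h ∈ C'.cov, IsCover C' (zs f) (zs h) → rk' (zs h) = rk' (zs f) + 1) :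
    ∀ m : ℕ, ∀ F ∈ C.cov, (zs F).card ≤ m → rk' (I.φ (zs F)) = rk (zs F) := by
  intro m
  induction m using Nat.strong_induction_on with
  | _ m ih =>
  intro F hF hm
  by_cases h0 : zs F = ∅
  · rw [h0, I.map_empty he he', rk0, rk0']
  · obtain ⟨y, hy, hzy⟩ := he
    have hz : zs (comp F y) = ∅ := by rw [zs_comp, hzy, Finset.inter_empty]
    obtain ⟨f, hf, h1, h2, h3⟩ := cover_exists hF (C.comp_mem hF hy) (face_comp F y) (by
      intro h
      rw [← h] at hz
      exact h0 hz)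
    rw [rkc f hf F hF h3]
    have hlt : (zs f).card < (zs F).card := Finset.card_lt_card h3.1
    rw [← ih (zs f).card (by omega) f hf le_rfl]
    have h4 := I.cover ⟨f, hf, rfl⟩ ⟨F, hF, rfl⟩ h3
    obtain ⟨f', hf', hzf'⟩ := I.hφ (zs f) ⟨f, hf, rfl⟩
    obtain ⟨F', hF', hzF'⟩ := I.hφ (zs F) ⟨F, hF, rfl⟩
    rw [← hzf', ← hzF'] at h4 ⊢
    exact rkc' f' hf' F' hF' h4

/-- an order isomorphism of flats preserves ranks and cardinalities -/
def FlOrd.toFlIso {rk : Finset ι → ℕ} {rk' : Finset ι' → ℕ} (I : FlOrd C C')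
    (hs : ∀ i, IsFl C {i}) (hs' : ∀ i, IsFl C' {i})
    (he : IsFl C ∅) (he' : IsFl C' ∅) (rk0 : rk ∅ = 0) (rk0' : rk' ∅ = 0)
    (rkc : ∀ f ∈ C.cov, ∀ h ∈ C.cov, IsCover C (zs f) (zs h) → rk (zs h) = rk (zs f) + 1)
    (rkc' : ∀ f ∈ C'.cov, ∀ h ∈ C'.cov, IsCover C' (zs f) (zs h) → rk' (zs h) = rk' (zs f) + 1) :
    FlIso C C' rk rk' where
  φ := I.φ
  ψ := I.ψ
  hφ := I.hφ
  hψ := I.hψ
  left := I.left
  right := I.right
  mono := I.mono
  mono' := I.mono'
  rk_eq := by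
    rintro Z ⟨F, hF, rfl⟩
    exact I.rk_eq he he' rk0 rk0' rkc rkc' _ F hF le_rfl
  card_eq := I.card_eq hs hs' he he'

end FlMk

end Pool.Agent.Lib.MP_1c795d_co
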