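import Pool.Agent.Lib.MP_1c795d_co.Lin
import Pool.Agent.Lib.MP_1c795d_co.FlMk
import Pool.Agent.Lib.MP_1c795d_co.Asm

/-!
Chambers, tope graph and flats of an arrangement in terms of sign vectors.
-/

set_option linter.unusedSectionVars false

namespace Pool.Agent.Lib.MP_1c795d_co

open Finset

section Normals

variable {d : ℕ}

lemma exists_normal (H : Submodule ℝ (EuclideanSpace ℝ (Fin d))) (h : Module.finrank ℝ H + 1 = d) :
    ∃ f : EuclideanSpace ℝ (Fin d) →ₗ[ℝ] ℝ, LinearMap.ker f = H ∧ f ≠ 0 := by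
  have hlt : H < ⊤ := by
    rw [lt_top_iff_ne_top]
    intro h1
    rw [h1, finrank_top, finrank_euclideanSpace_fin] at h
    omega
  obtain ⟨f, hf, hle⟩ := Submodule.exists_le_ker_of_lt_top H hlt
  refine ⟨f, ?_, hf⟩
  symm
  apply Submodule.eq_of_le_of_finrank_le hle
  obtain ⟨v, hv⟩ : ∃ w, f w ≠ 0 := by
    by_contra hcon
    push Not at hcon
    exact hf (LinearMap.ext hcon)
  have h2 := finrank_inf_ker ⊤ f v trivial hv
  rw [top_inf_eq, finrank_top, finrank_euclideanSpace_fin] at h2
  omega

lemma Arrangement.exists_normals (A : Arrangement d) :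
    ∃ n : A.planes → EuclideanSpace ℝ (Fin d) →ₗ[ℝ] ℝ, (∀ i, LinearMap.ker (n i) = i.1) ∧
      ∀ i, n i ≠ 0 := by
  choose n hn hn' using fun i : A.planes => exists_normal i.1 (A.codim_one i.1 i.2)
  exact ⟨n, hn, hn'⟩

end Normals

section Chambers

variable {d : ℕ} {A : Arrangement d} {n : A.planes → EuclideanSpace ℝ (Fin d) →ₗ[ℝ] ℝ}
  (hn : ∀ i, LinearMap.ker (n i) = i.1)

include hn

lemma mem_compl_iff (v : EuclideanSpace ℝ (Fin d)) : v ∈ A.compl ↔ ∀ i, n i v ≠ 0 := by
  constructor
  · intro h i h0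
    apply h i.1 i.2
    rw [← hn i]
    exact h0
  · intro h H hH hv
    apply h ⟨H, hH⟩
    have h1 : v ∈ LinearMap.ker (n ⟨H, hH⟩) := by rw [hn ⟨H, hH⟩]; exact hv
    exact h1

lemma same_side {S : Set (EuclideanSpace ℝ (Fin d))} (hS : IsPreconnected S) (hSc : S ⊆ A.compl)
    {v w : EuclideanSpace ℝ (Fin d)} (hv : v ∈ S) (hw : w ∈ S) (i : A.planes) (h : 0 < n i v) :
    0 < n i w := by
  by_contra hcon
  rw [not_lt] at hcon
  have hc : ContinuousOn (n i) S := (LinearMap.continuous_of_finiteDimensional (n i)).continuousOn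
  have := hS.intermediate_value hw hv hc
  obtain ⟨u, hu, hu0⟩ := this (show (0 : ℝ) ∈ Set.Icc (n i w) (n i v) from ⟨hcon, h.le⟩)
  exact (mem_compl_iff hn u).1 (hSc hu) i hu0

lemma segment_compl {v w : EuclideanSpace ℝ (Fin d)} (hv : v ∈ A.compl) (hw : w ∈ A.compl)
    (h : ∀ i, (0 < n i v ↔ 0 < n i w)) : segment ℝ v w ⊆ A.compl := by
  intro u hu
  rw [mem_compl_iff hn] at *
  obtain ⟨a, b, ha, hb, hab, rfl⟩ := hu
  intro i
  rw [map_add, map_smul, map_smul, smul_eq_mul, smul_eq_mul]
  rcases lt_or_gt_of_ne (hv i) with h1 | h1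
  · have h2 : n i w < 0 := by
      rcases lt_or_gt_of_ne (hw i) with h3 | h3
      · exact h3
      · exact absurd ((h i).2 h3) (not_lt.2 h1.le)
    have : a * n i v + b * n i w < 0 := by
      rcases eq_or_lt_of_le ha with h3 | h3
      · have : b = 1 := by linarith
        rw [← h3, this]; linarith
      · nlinarith
    exact this.ne
  · have h2 : 0 < n i w := (h i).1 h1
    have : 0 < a * n i v + b * n i w := by
      rcases eq_or_lt_of_le ha with h3 | h3
      · have : b = 1 := by linarith
        rw [← h3, this]; linarith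
      · nlinarith
    exact this.ne'

omit hn in
/-- a point of a chamber -/
noncomputable def pt (C : A.Chamber) : EuclideanSpace ℝ (Fin d) := C.2.choose

omit hn in
lemma pt_compl (C : A.Chamber) : pt C ∈ A.compl := C.2.choose_spec.1

omit hn in
lemma chamber_eq (C : A.Chamber) : C.1 = connectedComponentIn A.compl (pt C) := C.2.choose_spec.2

omit hn in
lemma pt_mem (C : A.Chamber) : pt C ∈ C.1 := by
  rw [chamber_eq]
  exact mem_connectedComponentIn (pt_compl C)

omit hn in
/-- sign vector of a chamber -/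
noncomputable def csgn (n : A.planes → EuclideanSpace ℝ (Fin d) →ₗ[ℝ] ℝ) (C : A.Chamber) (i : A.planes) : Bool :=
  decide (0 < n i (pt C))

lemma pos_iff_of_mem {C : A.Chamber} {v : EuclideanSpace ℝ (Fin d)} (hv : v ∈ C.1) (i : A.planes) :
    0 < n i v ↔ 0 < n i (pt C) := by
  have h1 : IsPreconnected C.1 := by
    rw [chamber_eq]; exact isPreconnected_connectedComponentIn
  have h2 : C.1 ⊆ A.compl := by
    rw [chamber_eq]; exact connectedComponentIn_subset _ _
  exact ⟨same_side hn h1 h2 hv (pt_mem C) i, same_side hn h1 h2 (pt_mem C) hv i⟩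

lemma mem_chamber_of {C : A.Chamber} {v : EuclideanSpace ℝ (Fin d)} (hv : v ∈ A.compl)
    (h : ∀ i, (0 < n i v ↔ 0 < n i (pt C))) : v ∈ C.1 := by
  rw [chamber_eq]
  have hsub := segment_compl hn hv (pt_compl C) h
  have hpre : IsPreconnected (segment ℝ v (pt C)) := (convex_segment v (pt C)).isPreconnected
  exact hpre.subset_connectedComponentIn (right_mem_segment ℝ v (pt C)) hsub (left_mem_segment ℝ v (pt C))

lemma csgn_inj : Function.Injective (csgn n) := by
  intro C D h
  have h1 : ∀ i, (0 < n i (pt D) ↔ 0 < n i (pt C)) := by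
    intro i
    have := congrFun h i
    unfold csgn at this
    rw [decide_eq_decide] at this
    exact this.symm
  have h2 := mem_chamber_of hn (C := C) (pt_compl D) h1
  rw [chamber_eq] at h2
  apply Subtype.ext
  rw [chamber_eq C, chamber_eq D]
  exact connectedComponentIn_eq h2

lemma sv_csgn (C : A.Chamber) : sv (csgn n) C = sig n (pt C) := by
  funext i
  unfold sv csgn sig
  have h := (mem_compl_iff hn (pt C)).1 (pt_compl C) i
  rcases lt_or_gt_of_ne h with h1 | h1
  · rw [sign_neg h1]
    simp [h1.le]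
  · rw [sign_pos h1]
    simp [h1]

variable [DecidableEq A.planes]

lemma cV1 (C : A.Chamber) : sv (csgn n) C ∈ (linSys n).cov := ⟨pt C, (sv_csgn hn C).symm⟩

lemma cV2 (F : A.planes → SignType) (hF : F ∈ (linSys n).cov) (hz : zs F = ∅) :
    ∃ C, sv (csgn n) C = F := by
  obtain ⟨v, rfl⟩ := hF
  have hv : v ∈ A.compl := by
    rw [mem_compl_iff hn]
    intro i h
    have : i ∈ zs (sig n v) := mem_zs_sig.2 h
    rw [hz] at this
    exact absurd this (Finset.notMem_empty i)
  let C : A.Chamber := ⟨connectedComponentIn A.compl v, v, hv, rfl⟩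
  refine ⟨C, ?_⟩
  rw [sv_csgn hn]
  have hvC : v ∈ C.1 := mem_connectedComponentIn hv
  funext i
  have h1 := pos_iff_of_mem hn hvC i
  have h2 := (mem_compl_iff hn (pt C)).1 (pt_compl C) i
  have h3 := (mem_compl_iff hn v).1 hv i
  unfold sig
  rcases lt_or_gt_of_ne h3 with h4 | h4
  · have h5 : n i (pt C) < 0 := by
      rcases lt_or_gt_of_ne h2 with h6 | h6
      · exact h6
      · exact absurd (h1.2 h6) (not_lt.2 h4.le)
    rw [sign_neg h4, sign_neg h5]
  · rw [sign_pos h4, sign_pos (h1.1 h4)]

lemma separates_iff (C D : A.Chamber) (i : A.planes) :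
    Separates i.1 C.1 D.1 ↔ csgn n C i ≠ csgn n D i := by
  have hC := (mem_compl_iff hn (pt C)).1 (pt_compl C) i
  have hD := (mem_compl_iff hn (pt D)).1 (pt_compl D) i
  constructor
  · rintro ⟨f, hf, h1, h2⟩ heq
    unfold csgn at heq
    rw [decide_eq_decide] at heq
    have h3 := h1 _ (pt_mem C)
    have h4 := h2 _ (pt_mem D)
    -- the point where `f` vanishes
    set u := (-f (pt D)) • pt C + f (pt C) • pt D with hu
    have hfu : f u = 0 := by
      rw [hu, map_add, map_smul, map_smul, smul_eq_mul, smul_eq_mul]; ring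
    have hnu : n i u = 0 := by
      have : u ∈ LinearMap.ker (n i) := by
        rw [hn i, ← hf]; exact hfu
      exact this
    rw [hu, map_add, map_smul, map_smul, smul_eq_mul, smul_eq_mul] at hnu
    rcases lt_or_gt_of_ne hC with h5 | h5
    · have h6 : n i (pt D) < 0 := by
        rcases lt_or_gt_of_ne hD with h7 | h7
        · exact h7
        · exact absurd (heq.2 h7) (not_lt.2 h5.le)
      nlinarith
    · have h6 := heq.1 h5
      nlinarith
  · intro hne
    unfold csgn at hne
    rw [Ne, decide_eq_decide] at hne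
    rcases lt_or_gt_of_ne hC with h5 | h5
    · have h6 : 0 < n i (pt D) := by
        by_contra h7
        exact hne ⟨fun h => absurd h (not_lt.2 h5.le), fun h => absurd h h7⟩
      refine ⟨-n i, ?_, ?_, ?_⟩
      · rw [← hn i]; ext v; simp
      · intro v hv
        have h7 := pos_iff_of_mem hn hv i
        have h8 : n i v ≠ 0 := (mem_compl_iff hn v).1 (by
          rw [chamber_eq] at hv; exact connectedComponentIn_subset _ _ hv) i
        rcases lt_or_gt_of_ne h8 with h9 | h9
        · simpa using h9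
        · exact absurd (h7.1 h9) (not_lt.2 h5.le)
      · intro v hv
        simpa using (pos_iff_of_mem hn hv i).2 h6
    · have h6 : n i (pt D) < 0 := by
        rcases lt_or_gt_of_ne hD with h7 | h7
        · exact h7
        · exact absurd ⟨fun _ => h7, fun _ => h5⟩ hne
      refine ⟨n i, hn i, ?_, ?_⟩
      · intro v hv
        exact (pos_iff_of_mem hn hv i).2 h5
      · intro v hv
        have h7 := pos_iff_of_mem hn hv i
        have h8 : n i v ≠ 0 := (mem_compl_iff hn v).1 (by
          rw [chamber_eq] at hv; exact connectedComponentIn_subset _ _ hv) i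
        rcases lt_or_gt_of_ne h8 with h9 | h9
        · exact h9
        · exact absurd (h7.1 h9) (not_lt.2 h6.le)

lemma adj_iff (C D : A.Chamber) :
    A.topeGraph.Adj C D ↔ ∃! i, csgn n C i ≠ csgn n D i := by
  constructor
  · rintro ⟨H, ⟨hH, hs⟩, hu⟩
    refine ⟨⟨H, hH⟩, (separates_iff hn C D ⟨H, hH⟩).1 hs, ?_⟩
    intro i hi
    apply Subtype.ext
    exact hu i.1 ⟨i.2, (separates_iff hn C D i).2 hi⟩
  · rintro ⟨i, hi, hu⟩
    refine ⟨i.1, ⟨i.2, (separates_iff hn C D i).2 hi⟩, ?_⟩
    rintro H ⟨hH, hs⟩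
    exact congrArg Subtype.val (hu ⟨H, hH⟩ ((separates_iff hn C D ⟨H, hH⟩).1 hs))

omit hn in
lemma sum_ind_tri {ι V : Type*} [Fintype ι] [DecidableEq ι] (sgn : V → ι → Bool) (u v w : V) :
    ∑ H, ind sgn u w H ≤ ∑ H, ind sgn u v H + ∑ H, ind sgn v w H := by
  rw [← Finset.sum_add_distrib]
  exact Finset.sum_le_sum fun H _ => ind_tri sgn u v w H

lemma sum_ind_adj {C D : A.Chamber} (h : A.topeGraph.Adj C D) : ∑ i, ind (csgn n) C D i = 1 := by
  obtain ⟨i, hi, hu⟩ := (adj_iff hn C D).1 h
  rw [Finset.sum_eq_single i]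
  · unfold ind; rw [if_pos hi]
  · intro j _ hj
    unfold ind
    rw [if_neg]
    intro h2
    exact hj (hu j h2)
  · intro h2; exact absurd (mem_univ i) h2

lemma sum_ind_le_edist (C D : A.Chamber) :
    ((∑ i, ind (csgn n) C D i : ℕ) : ℕ∞) ≤ A.topeGraph.edist C D := by
  unfold SimpleGraph.edist
  apply le_iInf
  intro p
  have : ∑ i, ind (csgn n) C D i ≤ p.length := by
    induction p with
    | nil =>
      rw [SimpleGraph.Walk.length_nil]
      apply le_of_eq
      apply Finset.sum_eq_zero
      intro i _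
      unfold ind
      rw [if_neg]
      exact fun h => h rfl
    | cons h p ih =>
      rename_i u v w
      rw [SimpleGraph.Walk.length_cons]
      have h1 := sum_ind_tri (csgn n) u v w
      have h2 := sum_ind_adj hn h
      omega
  exact_mod_cast this

lemma edist_le_sum_ind (hn0 : ∀ i, n i ≠ 0) : ∀ m : ℕ, ∀ C D : A.Chamber, ∑ i, ind (csgn n) C D i ≤ m →
    A.topeGraph.edist C D ≤ ((∑ i, ind (csgn n) C D i : ℕ) : ℕ∞) := by
  intro m
  induction m using Nat.strong_induction_on with
  | _ m ih =>
  intro C D hm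
  by_cases hCD : C = D
  · subst hCD
    rw [SimpleGraph.edist_self]
    exact bot_le
  · have hz1 := zs_sv (csgn n) C
    have hz2 := zs_sv (csgn n) D
    have hne : sv (csgn n) D ≠ sv (csgn n) C := fun h => hCD (sv_inj (csgn_inj hn) h).symm
    obtain ⟨h, hh, k1, k2, k3, k4⟩ := step (cV1 hn D) (cV1 hn C) (by rw [hz1, hz2]) hne
    rw [hz1] at k2 k3 k4
    rw [Finset.empty_union] at k3
    have hninj : ∀ i j : A.planes, LinearMap.ker (n i) = LinearMap.ker (n j) → i = j := by
      intro i j hij
      rw [hn, hn] at hij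
      exact Subtype.ext hij
    obtain ⟨i0, hi0⟩ := cover_empty_singleton hn0 hninj k4
    have hsep : sv (csgn n) D i0 ≠ sv (csgn n) C i0 := by
      have := k3 (show i0 ∈ zs h by rw [hi0]; exact Finset.mem_singleton_self i0)
      exact mem_sep.1 this
    obtain ⟨C', hC'⟩ := cV2 hn (comp h (sv (csgn n) D)) ((linSys n).comp_mem hh (cV1 hn D))
      (by rw [zs_comp, hz2, Finset.inter_empty])
    have e1 : ∀ j, j ≠ i0 → sv (csgn n) C' j = sv (csgn n) C j := by
      intro j hj
      rw [hC']
      have : h j ≠ 0 := by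
        intro h0
        have : j ∈ zs h := mem_zs.2 h0
        rw [hi0, Finset.mem_singleton] at this
        exact hj this
      unfold comp
      rw [if_neg this]
      exact k1 j this
    have e2 : sv (csgn n) C' i0 = sv (csgn n) D i0 := by
      rw [hC']
      have : h i0 = 0 := by
        rw [← mem_zs, hi0]; exact Finset.mem_singleton_self i0
      unfold comp
      rw [if_pos this]
    have conv : ∀ (X Y : A.Chamber) (j : A.planes), csgn n X j ≠ csgn n Y j ↔ sv (csgn n) X j ≠ sv (csgn n) Y j := by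
      intro X Y j
      rw [← sv_sep_iff, mem_sep]
    have hadj : A.topeGraph.Adj C C' := by
      rw [adj_iff hn]
      refine ⟨i0, ?_, ?_⟩
      · show csgn n C i0 ≠ csgn n C' i0
        rw [conv, e2]; exact hsep.symm
      · intro j hj
        have hj : csgn n C j ≠ csgn n C' j := hj
        rw [conv] at hj
        by_contra hcon
        exact hj (e1 j hcon).symm
    have hsum : ∑ i, ind (csgn n) C D i = 1 + ∑ i, ind (csgn n) C' D i := by
      rw [← sum_ind_adj hn hadj, ← Finset.sum_add_distrib]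
      apply Finset.sum_congr rfl
      intro j _
      unfold ind
      by_cases hj : j = i0
      · subst hj
        have h1 : csgn n C j ≠ csgn n D j := (conv _ _ _).2 hsep.symm
        have h2 : csgn n C j ≠ csgn n C' j := (conv _ _ _).2 (by rw [e2]; exact hsep.symm)
        have h3 : ¬ (csgn n C' j ≠ csgn n D j) := by rw [conv, e2]; exact fun h => h rfl
        rw [if_pos h1, if_pos h2, if_neg h3]
      · have h2 : csgn n C j = csgn n C' j := by
          by_contra hcon
          exact (conv _ _ _).1 hcon (e1 j hj).symm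
        rw [h2]
        simp
    have hlt : ∑ i, ind (csgn n) C' D i < m := by omega
    have h5 := ih _ hlt C' D le_rfl
    rw [hsum]
    calc A.topeGraph.edist C D ≤ A.topeGraph.edist C C' + A.topeGraph.edist C' D :=
          SimpleGraph.edist_triangle
      _ ≤ 1 + ((∑ i, ind (csgn n) C' D i : ℕ) : ℕ∞) := by
          refine add_le_add ?_ h5
          exact (SimpleGraph.edist_eq_one_iff_adj.2 hadj).le
      _ = ((1 + ∑ i, ind (csgn n) C' D i : ℕ) : ℕ∞) := by push_cast; rfl

lemma edist_eq (hn0 : ∀ i, n i ≠ 0) (C D : A.Chamber) :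
    A.topeGraph.edist C D = ((∑ i, ind (csgn n) C D i : ℕ) : ℕ∞) :=
  le_antisymm (edist_le_sum_ind hn hn0 _ C D le_rfl) (sum_ind_le_edist hn C D)

lemma chamber_finite : Finite A.Chamber := Finite.of_injective _ (csgn_inj hn)

lemma index_finite (l : ℕ) : {p : A.Chamber × (A.planes → ℕ) | ∑ H, p.2 H = l}.Finite := by
  have := chamber_finite hn
  have h1 : {b : A.planes → ℕ | ∑ H, b H = l}.Finite := by
    refine Set.Finite.subset (Set.finite_Iic (fun _ => l : A.planes → ℕ)) ?_
    intro b hb H
    exact le_of_sum hb H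
  refine Set.Finite.subset ((Set.finite_univ (α := A.Chamber)).prod h1) ?_
  intro p hp
  exact ⟨trivial, hp⟩

end Chambers

end Pool.Agent.Lib.MP_1c795d_co
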