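import Pool.Agent.Lib.MP_1c795d_co.Cov

/-!
The global induction: homology of the single boxes.
-/

set_option linter.unusedSectionVars false

namespace Pool.Agent.Lib.MP_1c795d_co

open Finset

variable {V ι : Type*} [Fintype ι] [DecidableEq ι]

/-- the sign vector of a vertex -/
def sv (sgn : V → ι → Bool) (z : V) : ι → SignType := fun H => if sgn z H then 1 else -1

lemma ne_zero_of_zs {F : ι → SignType} (h : zs F = ∅) (H : ι) : F H ≠ 0 := by
  intro e
  have : H ∈ zs F := mem_zs.2 e
  rw [h] at this
  simp at this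

/-- upper level sets -/
def lev (b : ι → ℕ) (j : ℕ) : Finset ι := univ.filter (fun H => j < b H)

/-- alternating level sets -/
def Ps (b : ι → ℕ) (j : ℕ) : Finset ι := univ.filter (fun H => j ≤ b H ∧ (b H - j) % 2 = 0)

@[simp] lemma mem_lev {b : ι → ℕ} {j : ℕ} {H : ι} : H ∈ lev b j ↔ j < b H := by simp [lev]
@[simp] lemma mem_Ps {b : ι → ℕ} {j : ℕ} {H : ι} : H ∈ Ps b j ↔ j ≤ b H ∧ (b H - j) % 2 = 0 := by
  simp [Ps]

lemma zs_sv (sgn : V → ι → Bool) (z : V) : zs (sv sgn z) = ∅ := by
  ext H
  rw [mem_zs]
  unfold sv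
  split_ifs <;> simp

/-- `b` has all its upper level sets equal to zero sets of faces of `xs` -/
def InL (C : CovSys ι) (xs : ι → SignType) (b : ι → ℕ) : Prop := ∀ j, FaceSet C xs (lev b j)

/-- total rank of the levels -/
def del (rk : Finset ι → ℕ) (b : ι → ℕ) : ℕ := ∑ j ∈ range (∑ H, b H), rk (lev b j)

lemma lev_eq_empty {b : ι → ℕ} {m j : ℕ} (hb : ∀ H, b H ≤ m) (hj : m ≤ j) : lev b j = ∅ := by
  ext H
  have := hb H
  simp only [mem_lev, Finset.notMem_empty, iff_false]
  omega

lemma del_eq {rk : Finset ι → ℕ} (h0 : rk ∅ = 0) {b : ι → ℕ} {N : ℕ} (hb : ∀ H, b H ≤ N) :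
    ∑ j ∈ range N, rk (lev b j) = del rk b := by
  have key : ∀ N' : ℕ, (∀ H, b H ≤ N') → ∀ M, N' ≤ M →
      ∑ j ∈ range M, rk (lev b j) = ∑ j ∈ range N', rk (lev b j) := by
    intro N' hN' M hM
    symm
    apply Finset.sum_subset (Finset.range_subset_range.2 hM)
    intro j _ hj
    rw [lev_eq_empty hN' (by simpa using hj), h0]
  have hS : ∀ H, b H ≤ ∑ H, b H := fun H => Finset.single_le_sum (f := b) (fun _ _ => Nat.zero_le _) (mem_univ H)
  unfold del
  rw [← key N hb (max N (∑ H, b H)) (le_max_left _ _), ← key _ hS (max N (∑ H, b H)) (le_max_right _ _)]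

section

variable {C : CovSys ι} {xs : ι → SignType} (hx : xs ∈ C.cov) (hx0 : zs xs = ∅)

include hx hx0 in
lemma faceSet_empty : FaceSet C xs ∅ := ⟨xs, hx, face_refl xs, hx0⟩

include hx hx0 in
lemma topeSet_empty : TopeSet C xs ∅ := ⟨xs, hx, hx0, by ext H; simp⟩

include hx hx0 in
lemma topeSet_sdiff {A S : Finset ι} (hA : FaceSet C xs A) (hS : TopeSet C xs S) :
    TopeSet C xs (A \ S) := by
  obtain ⟨F, hF, hFx, rfl⟩ := hA
  obtain ⟨y, hy, hy0, rfl⟩ := hS
  refine ⟨comp F (opp y), C.comp_mem hF (C.opp_mem hy), ?_, ?_⟩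
  · rw [zs_comp, zs_opp, hy0]; simp
  · ext H
    have hxH : xs H ≠ 0 := ne_zero_of_zs hx0 H
    have hyH : y H ≠ 0 := ne_zero_of_zs hy0 H
    rw [mem_sep, Finset.mem_sdiff, mem_zs, mem_sep]
    by_cases e : F H = 0
    · simp only [comp, e, if_true, opp, true_and, not_not]
      constructor
      · intro h
        by_contra h2
        exact h (eq_neg_of_ne hxH hyH h2)
      · intro h h2
        rw [h] at h2
        exact neg_ne_self' hyH h2.symm
    · simp only [comp, e, if_false, false_and, iff_false, not_not]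
      exact (hFx H e).symm

include hx hx0 in
lemma lemmaY {b a : ι → ℕ} (hb : TopeSet C xs (Ps b 1)) (ha : InL C xs a) (h1 : pred1 b ≤ a)
    (h2 : a ≤ b) : ∀ j, 1 ≤ j → TopeSet C xs (Ps b j) := by
  intro j hj
  induction j, hj using Nat.le_induction with
  | base => exact hb
  | succ j hj ih =>
    have : Ps b (j+1) = lev a (j-1) \ Ps b j := by
      ext H
      have e1 : b H - 1 ≤ a H := h1 H
      have e2 : a H ≤ b H := h2 H
      simp only [mem_Ps, Finset.mem_sdiff, mem_lev]
      constructor
      · rintro ⟨h3, h4⟩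
        exact ⟨by omega, by omega⟩
      · rintro ⟨h3, h4⟩
        omega
    rw [this]
    exact topeSet_sdiff hx hx0 (ha (j-1)) ih

include hx hx0 in
lemma lemmaW {b : ι → ℕ} {m : ℕ} (hb : ∀ j < m, FaceSet C xs (lev b j))
    (hm : TopeSet C xs (Ps b (m+1))) : TopeSet C xs (Ps b 1) := by
  have : ∀ i ≤ m, TopeSet C xs (Ps b (m+1-i)) := by
    intro i hi
    induction i with
    | zero => simpa using hm
    | succ i ih =>
      have e : Ps b (m+1-(i+1)) = lev b (m-(i+1)) \ Ps b (m+1-i) := by
        ext H
        simp only [mem_Ps, Finset.mem_sdiff, mem_lev]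
        constructor
        · rintro ⟨h3, h4⟩
          exact ⟨by omega, by omega⟩
        · rintro ⟨h3, h4⟩
          omega
      rw [e]
      exact topeSet_sdiff hx hx0 (hb _ (by omega)) (ih (by omega))
  have := this m le_rfl
  simpa using this

lemma lev_bump_lt {c : ι → ℕ} {m j : ℕ} {T : Finset ι} (hcT : ∀ H ∈ T, c H = m)
    (hj : j < m) : lev (bump c T) j = lev c j := by
  ext H
  simp only [mem_lev, bump]
  split_ifs with h
  · have := hcT H h; omega
  · simp

lemma lev_bump_eq {c : ι → ℕ} {m : ℕ} {T : Finset ι} (hc : ∀ H, c H ≤ m) (hcT : ∀ H ∈ T, c H = m) :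
    lev (bump c T) m = T := by
  ext H
  simp only [mem_lev, bump]
  have := hc H
  split_ifs with h
  · have := hcT H h; simp [h]; omega
  · simp [h]; omega

lemma bump_le {c : ι → ℕ} {m : ℕ} {T : Finset ι} (hc : ∀ H, c H ≤ m) (H : ι) :
    bump c T H ≤ m + 1 := by
  simp only [bump]
  have := hc H
  split_ifs <;> omega

lemma Ps_bump_top {c : ι → ℕ} {m : ℕ} {T : Finset ι} (hc : ∀ H, c H ≤ m) (hcT : ∀ H ∈ T, c H = m) :
    Ps (bump c T) (m+1) = T := by
  ext H
  simp only [mem_Ps, bump]
  have := hc H
  split_ifs with h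
  · have := hcT H h; simp [h]; omega
  · simp [h]; omega

include hx hx0 in
lemma inL_of_levels {b : ι → ℕ} {m : ℕ} (hb : ∀ H, b H ≤ m) (h : ∀ j < m, FaceSet C xs (lev b j)) :
    InL C xs b := by
  intro j
  by_cases hj : j < m
  · exact h j hj
  · rw [lev_eq_empty hb (by omega)]; exact faceSet_empty hx hx0

include hx hx0 in
lemma inL_bump {c : ι → ℕ} {m : ℕ} {T : Finset ι} (hc : ∀ H, c H ≤ m) (hcT : ∀ H ∈ T, c H = m)
    (hcL : InL C xs c) (hT : FaceSet C xs T) : InL C xs (bump c T) := by
  refine inL_of_levels hx hx0 (m := m+1) (bump_le hc) ?_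
  intro j hj
  by_cases h : j < m
  · rw [lev_bump_lt hcT h]; exact hcL j
  · have : j = m := by omega
    subst this
    rw [lev_bump_eq hc hcT]; exact hT

include hx hx0 in
lemma inL_of_bump {c : ι → ℕ} {m : ℕ} {T : Finset ι} (hc : ∀ H, c H ≤ m) (hcT : ∀ H ∈ T, c H = m)
    (h : InL C xs (bump c T)) : InL C xs c := by
  refine inL_of_levels hx hx0 (m := m) hc ?_
  intro j hj
  have := h j
  rw [lev_bump_lt hcT hj] at this
  exact this

end

/-- decomposition of a nonzero function by its top level -/
lemma exists_top {b : ι → ℕ} (hb : b ≠ 0) : ∃ (c : ι → ℕ) (m : ℕ) (B : Finset ι),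
    (∀ H, c H ≤ m) ∧ (∀ H ∈ B, c H = m) ∧ B ≠ ∅ ∧ bump c B = b := by
  have hne : (univ : Finset ι).Nonempty := by
    by_contra h
    apply hb
    funext H
    exact absurd ⟨H, mem_univ H⟩ h
  obtain ⟨H0, -, hH0⟩ := Finset.exists_max_image univ b hne
  have hpos : 0 < b H0 := by
    by_contra h
    apply hb
    funext H
    have := hH0 H (mem_univ H)
    show b H = 0
    omega
  refine ⟨fun H => if b H = b H0 then b H - 1 else b H, b H0 - 1,
    univ.filter (fun H => b H = b H0), ?_, ?_, ?_, ?_⟩
  · intro H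
    have := hH0 H (mem_univ H)
    show (if b H = b H0 then b H - 1 else b H) ≤ b H0 - 1
    split_ifs with h
    · omega
    · omega
  · intro H hH
    rw [Finset.mem_filter] at hH
    show (if b H = b H0 then b H - 1 else b H) = b H0 - 1
    rw [if_pos hH.2, hH.2]
  · rw [← Finset.nonempty_iff_ne_empty]
    exact ⟨H0, by simp⟩
  · funext H
    simp only [bump, Finset.mem_filter, Finset.mem_univ, true_and]
    split_ifs with h
    · omega
    · omega

lemma sum_bump (c : ι → ℕ) (T : Finset ι) : ∑ H, bump c T H = (∑ H, c H) + T.card := by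
  simp only [bump]
  rw [Finset.sum_add_distrib]
  simp

section Main

variable {C : CovSys ι} {sgn : V → ι → Bool} (hinj : Function.Injective sgn)
  (hV1 : ∀ z, sv sgn z ∈ C.cov) (hV2 : ∀ F ∈ C.cov, zs F = ∅ → ∃ z, sv sgn z = F) (x : V)

lemma good_AC (hinj : Function.Injective sgn) (x : V) : Good (AC sgn x) where
  whole := fun _ _ _ hH h1 h2 => AC.whole hinj hH h1 h2
  upper := fun _ _ _ hH h1 h2 => AC.upper hinj hH h1 h2

lemma sv_sep_iff (sgn : V → ι → Bool) (x z : V) (H : ι) : H ∈ sep (sv sgn x) (sv sgn z) ↔ sgn x H ≠ sgn z H := by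
  rw [mem_sep]
  unfold sv
  cases sgn x H <;> cases sgn z H <;> simp

include hV1 in
lemma tope_of_reach {b : ι → ℕ} {z : V} (hz : Reach sgn x b z) :
    TopeSet C (sv sgn x) (Ps b 1) := by
  refine ⟨sv sgn z, hV1 z, zs_sv sgn z, ?_⟩
  ext H
  rw [sv_sep_iff, mem_Ps, hz H]
  rcases Nat.mod_two_eq_zero_or_one (b H) with h | h
  · simp [h]; omega
  · simp [h]; omega

include hV2 in
lemma reach_of_tope {b : ι → ℕ} (h : TopeSet C (sv sgn x) (Ps b 1)) : ∃ z, Reach sgn x b z := by
  obtain ⟨y, hy, hy0, hs⟩ := h
  obtain ⟨z, rfl⟩ := hV2 y hy hy0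
  refine ⟨z, fun H => ?_⟩
  have : H ∈ sep (sv sgn x) (sv sgn z) ↔ H ∈ Ps b 1 := by rw [hs]
  rw [sv_sep_iff, mem_Ps] at this
  rcases Nat.mod_two_eq_zero_or_one (b H) with h | h
  · rw [if_pos h]
    by_contra hcon
    have := this.1 (Ne.symm hcon)
    omega
  · rw [if_neg (by omega)]
    have h2 := this.2 (by omega)
    cases h3 : sgn z H <;> cases h4 : sgn x H <;> simp_all

include hinj hV1 hV2 in
theorem AC_main : ∀ n : ℕ,
    (∀ (c : ι → ℕ) (m : ℕ) (B : Finset ι), (∀ H, c H ≤ m) → (∀ H ∈ B, c H = m) → B ≠ ∅ →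
      (∃ z, Reach sgn x (bump c B) z) → ∑ H, bump c B H ≤ n → AC sgn x c B) ∧
    (∀ b : ι → ℕ, ∑ H, b H ≤ n → ¬ InL C (sv sgn x) b → AC sgn x b ∅) := by
  intro n
  have hx := hV1 x
  have hx0 := zs_sv sgn x
  have G := good_AC hinj x
  induction n using Nat.strong_induction_on with
  | _ n ih =>
  have P1 : ∀ (c : ι → ℕ) (m : ℕ) (B : Finset ι), (∀ H, c H ≤ m) → (∀ H ∈ B, c H = m) → B ≠ ∅ →
      (∃ z, Reach sgn x (bump c B) z) → ∑ H, bump c B H ≤ n → AC sgn x c B := by
    intro c m B hc hcB hB ⟨z, hz⟩ hn
    set b := bump c B with hb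
    have hbB : ∀ H ∈ B, b H = m + 1 := by
      intro H hH; simp [hb, bump, hH, hcB H hH]
    have hbB' : ∀ H, H ∉ B → b H = c H := by
      intro H hH; simp [hb, bump, hH]
    have hb0 : b ≠ 0 := by
      obtain ⟨H, hH⟩ := Finset.nonempty_iff_ne_empty.2 hB
      intro e
      have := hbB H hH
      rw [e] at this
      simp at this
    have h0 := AC_pred hinj hz hb0
    set K := univ.filter (fun H => H ∉ B ∧ b H ≠ 0) with hK
    have hKB : Disjoint K B := by
      rw [Finset.disjoint_left]
      intro H h1 h2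
      rw [hK, Finset.mem_filter] at h1
      exact h1.2.1 h2
    have hsupp : univ.filter (fun H => b H ≠ 0) = K ∪ B := by
      ext H
      rw [Finset.mem_filter, Finset.mem_union, hK, Finset.mem_filter]
      by_cases h : H ∈ B
      · simp [h, hbB H h]
      · simp [h]
    rw [hsupp] at h0
    have hfin : bump (pred1 b) K = c := by
      funext H
      simp only [bump, pred1, hK, Finset.mem_filter, Finset.mem_univ, true_and]
      by_cases h : H ∈ B
      · simp [h, hbB H h, hcB H h]
      · have := hbB' H h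
        by_cases h2 : b H = 0
        · simp [h2]; omega
        · simp [h, h2]; omega
    have h1 := G.extract hKB (pred1 b) h0 (fun T hT => by
      set c' := bump (pred1 b) T with hc'
      have hTB : ∀ H ∈ B, H ∉ T := fun H h1 h2 => (Finset.disjoint_left.1 hKB) (hT.1 h2) h1
      have hc'm : ∀ H, c' H ≤ m := by
        intro H
        by_cases h : H ∈ B
        · simp [hc', bump, pred1, hTB H h, hbB H h]
        · have h2 := hc H
          have h3 := hbB' H h
          simp only [hc', bump, pred1]
          split_ifs with h4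
          · have h5 := (Finset.mem_filter.1 (hT.1 h4)).2.2
            omega
          · omega
      have hc'B : ∀ H ∈ B, c' H = m := by
        intro H h
        simp [hc', bump, pred1, hTB H h, hbB H h]
      have hle : ∀ T' ⊆ B, bump c' T' ≤ b := by
        intro T' hT' H
        by_cases h : H ∈ B
        · rw [hbB H h]; exact bump_le hc'm H
        · have h' : H ∉ T' := fun h2 => h (hT' h2)
          simp only [bump, h', if_false, hc', pred1, add_zero]
          split_ifs with h4
          · have h5 := (Finset.mem_filter.1 (hT.1 h4)).2.2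
            omega
          · omega
      have hcard : ∑ H, bump c' B H < ∑ H, b H := by
        have h2 := sum_bump c' B
        have h3 := sum_bump (pred1 b) T
        have h4 := sum_bump (pred1 b) K
        rw [hfin] at h4
        have h5 := sum_bump c B
        have h6 := Finset.card_lt_card hT
        rw [← hb] at h5
        rw [← hc'] at h3
        omega
      by_cases hr : ∃ z, Reach sgn x (bump c' B) z
      · exact (ih _ (lt_of_lt_of_le hcard hn)).1 c' m B hc'm hc'B hB hr le_rfl
      · have := G.patch (K := B) (D := ∅) (Finset.disjoint_empty_right B) c' (fun T' hT' => by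
          have hs : ∑ H, bump c' T' H ≤ ∑ H, bump c' B H := by
            have e1 := sum_bump c' T'
            have e2 := sum_bump c' B
            have := Finset.card_le_card hT'
            omega
          refine (ih _ (lt_of_lt_of_le hcard hn)).2 _ hs ?_
          intro hL
          apply hr
          apply reach_of_tope (C := C) hV2
          have hcT' : ∀ H ∈ T', c' H = m := fun H hH => hc'B H (hT' hH)
          refine lemmaW hx hx0 (m := m) ?_ ?_
          · intro j hj
            rw [lev_bump_lt hc'B hj, ← lev_bump_lt hcT' hj]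
            exact hL j
          · rw [Ps_bump_top hc'm hc'B]
            have := lemmaY hx hx0 (tope_of_reach hV1 x hz) hL ?_ (hle T' hT') (m+1) (by omega)
            · rw [hb, Ps_bump_top hc hcB] at this
              exact this
            · intro H
              have : pred1 b H ≤ c' H := le_bump (pred1 b) T H
              exact le_trans this (le_bump c' T' H))
        simpa using this)
    rw [hfin] at h1
    exact h1
  refine ⟨P1, ?_⟩
  intro b hn hbL
  by_cases hr : ∃ z, Reach sgn x b z
  · obtain ⟨z, hz⟩ := hr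
    have hb0 : b ≠ 0 := by
      rintro rfl
      apply hbL
      intro j
      have : lev (0 : ι → ℕ) j = ∅ := by ext H; simp
      rw [this]
      exact faceSet_empty hx hx0
    obtain ⟨c, m, B, hc, hcB, hB, rfl⟩ := exists_top hb0
    have h1 := P1 c m B hc hcB hB ⟨z, hz⟩ hn
    have hsum : ∀ T ⊂ B, ∑ H, bump c T H < ∑ H, bump c B H := by
      intro T hT
      rw [sum_bump, sum_bump]
      have := Finset.card_lt_card hT
      omega
    by_cases hcL : InL C (sv sgn x) c
    · refine local_noface hx hx0 G (c := c) (Z := B) ?_ ?_ ?_ ?_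
      · intro T hT hTF
        refine (ih _ (lt_of_lt_of_le (hsum T hT) hn)).2 _ le_rfl ?_
        intro hL
        apply hTF
        have := hL m
        rw [lev_bump_eq hc (fun H hH => hcB H (hT.1 hH))] at this
        exact this
      · intro S hS hS0 hST
        refine P1 c m S hc (fun H hH => hcB H (hS hH)) hS0 ?_ ?_
        · apply reach_of_tope (C := C) hV2
          refine lemmaW hx hx0 (m := m) ?_ ?_
          · intro j hj
            rw [lev_bump_lt (fun H hH => hcB H (hS hH)) hj]
            exact hcL j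
          · rw [Ps_bump_top hc (fun H hH => hcB H (hS hH))]
            exact hST
        · refine le_trans ?_ hn
          rw [sum_bump, sum_bump]
          have := Finset.card_le_card hS
          omega
      · intro hF
        exact hbL (inL_bump hx hx0 hc hcB hcL hF)
      · have := lemmaY hx hx0 (tope_of_reach hV1 x hz) hcL ?_ (le_bump c B) (m+1) (by omega)
        · rw [Ps_bump_top hc hcB] at this
          exact this
        · intro H
          simp only [pred1, bump]
          split_ifs <;> omega
    · have := G.extract (K := B) (D := ∅) (Finset.disjoint_empty_right B) c (by simpa using h1)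
        (fun T hT => by
          refine (ih _ (lt_of_lt_of_le (hsum T hT) hn)).2 _ le_rfl ?_
          intro hL
          exact hcL (inL_of_bump hx hx0 hc (fun H hH => hcB H (hT.1 hH)) hL))
      exact this
  · push Not at hr
    exact AC_of_not_reach hr

lemma CA.patch (hinj : Function.Injective sgn) {x : V} {c : ι → ℕ} {n : ℕ} {D : Finset ι}
    (h0 : CA sgn x c ∅ n)
    (h : ∀ T ⊆ D, T ≠ ∅ → AC sgn x (bump c T) ∅) : CA sgn x c D n := by
  have G := good_AC hinj x
  induction D using Finset.induction_on with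
  | empty => exact h0
  | @insert H D hH ih =>
    refine CA.add_upper hinj hH (ih (fun T hT => h T (hT.trans (Finset.subset_insert H D)))) ?_
    have := G.patch (K := D) (D := ∅) (Finset.disjoint_empty_right D) (bump c {H}) (fun T hT => by
      have hd : Disjoint ({H} : Finset ι) T := by
        rw [Finset.disjoint_singleton_left]; exact fun h => hH (hT h)
      rw [bump_bump _ hd]
      refine h _ ?_ ?_
      · rw [← Finset.insert_eq]
        exact Finset.insert_subset_insert H hT
      · rw [← Finset.nonempty_iff_ne_empty]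
        exact ⟨H, by simp⟩)
    simpa using this

lemma CA.extract (hinj : Function.Injective sgn) {x : V} {n : ℕ} {D : Finset ι} (c : ι → ℕ)
    (h0 : CA sgn x c D n)
    (h : ∀ T ⊂ D, AC sgn x (bump c T) ∅) : CA sgn x (bump c D) ∅ n := by
  have G := good_AC hinj x
  induction D using Finset.induction_on generalizing c with
  | empty => simpa using h0
  | @insert H D hH ih =>
    have h1 : AC sgn x c D := by
      have := G.patch (K := D) (D := ∅) (Finset.disjoint_empty_right D) c (fun T hT => h T
        (Finset.ssubset_of_subset_of_ssubset hT (Finset.ssubset_insert hH)))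
      simpa using this
    have h2 := CA.drop_lower hinj hH h0 h1
    have hd : Disjoint ({H} : Finset ι) D := by
      rw [Finset.disjoint_singleton_left]; exact hH
    have h3 := ih (bump c {H}) h2 (fun T hT => by
      have hd' : Disjoint ({H} : Finset ι) T := by
        rw [Finset.disjoint_singleton_left]; exact fun h => hH (hT.1 h)
      rw [bump_bump _ hd']
      refine h _ ?_
      rw [← Finset.insert_eq]
      refine ⟨Finset.insert_subset_insert H hT.1, fun hcon => hT.2 ?_⟩
      intro a ha
      have := hcon (Finset.mem_insert_of_mem ha)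
      rw [Finset.mem_insert] at this
      rcases this with e | e
      · exact absurd (e ▸ ha) hH
      · exact e)
    rw [bump_bump _ hd, ← Finset.insert_eq] at h3
    exact h3

include hinj hV1 hV2 in
theorem AC_single {b : ι → ℕ} (hb : ¬ InL C (sv sgn x) b) : AC sgn x b ∅ :=
  (AC_main hinj hV1 hV2 x _).2 b le_rfl hb

include hinj hV1 hV2 in
theorem AC_top {c : ι → ℕ} {m : ℕ} {B : Finset ι} (hc : ∀ H, c H ≤ m) (hcB : ∀ H ∈ B, c H = m)
    (hB : B ≠ ∅) (h : ∃ z, Reach sgn x (bump c B) z) : AC sgn x c B :=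
  (AC_main hinj hV1 hV2 x _).1 c m B hc hcB hB h le_rfl

include hinj hV1 hV2 in
theorem CA_single {rk : Finset ι → ℕ} (rk0 : rk ∅ = 0)
    (rkc : ∀ f ∈ C.cov, ∀ h ∈ C.cov, IsCover C (zs f) (zs h) → rk (zs h) = rk (zs f) + 1) :
    ∀ n : ℕ, ∀ b : ι → ℕ, ∑ H, b H ≤ n → InL C (sv sgn x) b → CA sgn x b ∅ (del rk b) := by
  intro n
  have hx := hV1 x
  have hx0 := zs_sv sgn x
  have G := good_AC hinj x
  induction n using Nat.strong_induction_on with
  | _ n ih =>
  intro b hn hbL
  by_cases hb0 : b = 0
  · subst hb0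
    have : del rk (0 : ι → ℕ) = 0 := by simp [del]
    rw [this]
    exact CA_zero hinj x
  obtain ⟨c, m, B, hc, hcB, hB, rfl⟩ := exists_top hb0
  have hcL : InL C (sv sgn x) c := inL_of_bump hx hx0 hc hcB hbL
  have hBF : FaceSet C (sv sgn x) B := by
    have := hbL m
    rwa [lev_bump_eq hc hcB] at this
  obtain ⟨F, hF, hFx, hFB⟩ := hBF
  obtain ⟨f, hf, hfx, hcov, hAC⟩ := local_face hx hx0 G (c := c) (Z := B)
    (fun T hT hTF => by
      apply AC_single hinj hV1 hV2 x
      intro hL
      apply hTF
      have := hL m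
      rw [lev_bump_eq hc (fun H hH => hcB H (hT.1 hH))] at this
      exact this)
    (fun S hS hS0 hST => by
      refine AC_top hinj hV1 hV2 x hc (fun H hH => hcB H (hS hH)) hS0 ?_
      apply reach_of_tope (C := C) hV2
      refine lemmaW hx hx0 (m := m) ?_ ?_
      · intro j hj
        rw [lev_bump_lt (fun H hH => hcB H (hS hH)) hj]
        exact hcL j
      · rw [Ps_bump_top hc (fun H hH => hcB H (hS hH))]
        exact hST) hB hF hFx hFB
  have hsub : zs f ⊆ B := hcov.1.1
  have hcf : ∀ H ∈ zs f, c H = m := fun H hH => hcB H (hsub hH)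
  have hb'L : InL C (sv sgn x) (bump c (zs f)) := inL_bump hx hx0 hc hcf hcL ⟨f, hf, hfx, rfl⟩
  have hlt : ∑ H, bump c (zs f) H < ∑ H, bump c B H := by
    rw [sum_bump, sum_bump]
    have := Finset.card_lt_card hcov.1
    omega
  have hCA := ih _ (lt_of_lt_of_le hlt hn) _ le_rfl hb'L
  obtain ⟨H0, hH0, hH0'⟩ := Finset.exists_of_ssubset hcov.1
  set D := (B \ zs f).erase H0 with hD
  have hH0D : H0 ∉ D := Finset.notMem_erase _ _
  have hins : insert H0 D = B \ zs f := Finset.insert_erase (Finset.mem_sdiff.2 ⟨hH0, hH0'⟩)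
  -- non face sets
  have hnon : ∀ T ⊂ B \ zs f, T ≠ ∅ → AC sgn x (bump (bump c (zs f)) T) ∅ := by
    intro T hT hT0
    apply AC_single hinj hV1 hV2 x
    intro hL
    have hd : Disjoint (zs f) T := Finset.disjoint_of_subset_right hT.1 Finset.disjoint_sdiff
    rw [bump_bump _ hd] at hL
    have hcT : ∀ H ∈ zs f ∪ T, c H = m := by
      intro H hH
      rw [Finset.mem_union] at hH
      rcases hH with h | h
      · exact hcf H h
      · exact hcB H (Finset.mem_sdiff.1 (hT.1 h)).1
    have := hL m
    rw [lev_bump_eq hc hcT] at this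
    obtain ⟨F', hF', -, hz⟩ := this
    obtain ⟨H1, hH1⟩ := Finset.nonempty_iff_ne_empty.2 hT0
    have h3 : B ⊆ zs F' := by
      refine hcov.2 F' hF' (by rw [hz]; exact Finset.subset_union_left) ⟨H1, ?_, ?_, ?_⟩
      · exact (Finset.mem_sdiff.1 (hT.1 hH1)).1
      · exact (Finset.mem_sdiff.1 (hT.1 hH1)).2
      · rw [hz]; exact Finset.mem_union_right _ hH1
    apply hT.2
    intro a ha
    rw [Finset.mem_sdiff] at ha
    have := h3 ha.1
    rw [hz, Finset.mem_union] at this
    rcases this with h | h
    · exact absurd h ha.2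
    · exact h
  have hDss : D ⊂ B \ zs f := Finset.erase_ssubset (Finset.mem_sdiff.2 ⟨hH0, hH0'⟩)
  have h1 : CA sgn x (bump c (zs f)) D (del rk (bump c (zs f))) :=
    CA.patch hinj hCA (fun T hT hT0 => hnon T (Finset.ssubset_of_subset_of_ssubset hT hDss) hT0)
  have h2 : CA sgn x (bump (bump c (zs f)) {H0}) D (del rk (bump c (zs f)) + 1) :=
    CA.boundary hinj hH0D (by rw [hins]; exact hAC) h1
  have h3 := CA.extract hinj _ h2 (fun T hT => by
    have hd : Disjoint ({H0} : Finset ι) T := by
      rw [Finset.disjoint_singleton_left]; exact fun h => hH0D (hT.1 h)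
    rw [bump_bump _ hd]
    refine hnon _ ?_ ?_
    · rw [← hins, ← Finset.insert_eq]
      refine ⟨Finset.insert_subset_insert H0 hT.1, fun hcon => hT.2 ?_⟩
      intro a ha
      have := hcon (Finset.mem_insert_of_mem ha)
      rw [Finset.mem_insert] at this
      rcases this with e | e
      · exact absurd (e ▸ ha) hH0D
      · exact e
    · rw [← Finset.nonempty_iff_ne_empty]
      exact ⟨H0, by simp⟩)
  have hd : Disjoint ({H0} : Finset ι) D := by
    rw [Finset.disjoint_singleton_left]; exact hH0D
  rw [bump_bump _ hd, ← Finset.insert_eq, hins, bump_bump _ Finset.disjoint_sdiff,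
    Finset.union_sdiff_of_subset hsub] at h3
  have hdel : del rk (bump c B) = del rk (bump c (zs f)) + 1 := by
    rw [← del_eq rk0 (bump_le hc), ← del_eq rk0 (bump_le hc), Finset.sum_range_succ,
      Finset.sum_range_succ, lev_bump_eq hc hcB, lev_bump_eq hc hcf]
    have h4 : rk B = rk (zs f) + 1 := by
      have := rkc f hf F hF (by rw [hFB]; exact hcov)
      rw [hFB] at this
      exact this
    rw [h4, add_assoc]
    congr 1
    apply Finset.sum_congr rfl
    intro j hj
    rw [Finset.mem_range] at hj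
    rw [lev_bump_lt hcB hj, lev_bump_lt hcf hj]
  rw [hdel]
  exact h3

end Main

end Pool.Agent.Lib.MP_1c795d_co
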