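import Pool.Agent.Lib.MP_1c795d_co.Count
import Pool.Agent.Lib.MP_1c795d_co.Defs

/-!
Sign vectors of a finite family of linear functionals form a covector system.
-/

set_option linter.unusedSectionVars false

namespace Pool.Agent.Lib.MP_1c795d_co

open Finset

section Lin

variable {ι : Type*} [Fintype ι] [DecidableEq ι]
variable {E : Type*} [AddCommGroup E] [Module ℝ E]

/-- sign vector of a point -/
noncomputable def sig (n : ι → E →ₗ[ℝ] ℝ) (v : E) : ι → SignType := fun i => SignType.sign (n i v)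

lemma mem_zs_sig {n : ι → E →ₗ[ℝ] ℝ} {v : E} {i : ι} : i ∈ zs (sig n v) ↔ n i v = 0 := by
  simp [sig, sign_eq_zero_iff]

lemma sig_comp (n : ι → E →ₗ[ℝ] ℝ) (v w : E) : ∃ u, sig n u = comp (sig n v) (sig n w) := by
  have h : ∀ i : ι, ∀ᶠ e : ℝ in nhdsWithin 0 (Set.Ioi 0),
      SignType.sign (n i (v + e • w)) = comp (sig n v) (sig n w) i := by
    intro i
    by_cases h0 : n i v = 0
    · filter_upwards [self_mem_nhdsWithin] with e he
      have he' : (0 : ℝ) < e := he
      simp only [comp, sig, h0, sign_zero, if_true, map_add, map_smul, zero_add, smul_eq_mul,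
        sign_mul, sign_pos he', one_mul]
    · have hc : Filter.Tendsto (fun e : ℝ => n i v + e * n i w) (nhdsWithin 0 (Set.Ioi 0))
          (nhds (n i v)) := by
        have : Filter.Tendsto (fun e : ℝ => n i v + e * n i w) (nhds 0) (nhds (n i v + 0 * n i w)) := by
          apply Continuous.tendsto
          fun_prop
        rw [zero_mul, add_zero] at this
        exact this.mono_left nhdsWithin_le_nhds
      have hne : sig n v i ≠ 0 := by
        show SignType.sign (n i v) ≠ 0
        rw [Ne, sign_eq_zero_iff]; exact h0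
      have hcp : comp (sig n v) (sig n w) i = SignType.sign (n i v) := by
        unfold comp
        rw [if_neg hne]
        rfl
      rw [hcp]
      rcases lt_or_gt_of_ne h0 with h1 | h1
      · filter_upwards [hc.eventually (gt_mem_nhds h1)] with e he
        rw [map_add, map_smul, smul_eq_mul, sign_neg he, sign_neg h1]
      · filter_upwards [hc.eventually (lt_mem_nhds h1)] with e he
        rw [map_add, map_smul, smul_eq_mul, sign_pos he, sign_pos h1]
  have h2 := (Filter.eventually_all.2 h).exists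
  obtain ⟨e, he⟩ := h2
  exact ⟨v + e • w, funext he⟩

lemma sig_hit (n : ι → E →ₗ[ℝ] ℝ) (v w : E) (hz : zs (sig n v) ⊆ zs (sig n w))
    (hne : sig n v ≠ sig n w) :
    ∃ u, face (sig n u) (sig n v) ∧ zs (sig n v) ⊂ zs (sig n u) ∧
      (∀ H, sig n v H = sig n w H → sig n u H = sig n v H) ∧
      (sig n u = sig n w ∨ zs (sig n u) ∩ zs (sig n w) = zs (sig n v)) := by
  classical
  set t : ι → ℝ := fun i => n i v / (n i v - n i w) with ht
  set S : Finset ι := univ.filter (fun i => sig n v i ≠ sig n w i) with hS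
  have hSne : S.Nonempty := by
    by_contra hcon
    rw [Finset.not_nonempty_iff_eq_empty] at hcon
    apply hne
    funext i
    by_contra h
    have : i ∈ S := by rw [hS, Finset.mem_filter]; exact ⟨mem_univ _, h⟩
    rw [hcon] at this
    exact absurd this (Finset.notMem_empty i)
  obtain ⟨i0, hi0, hmin⟩ := Finset.exists_min_image S t hSne
  -- facts
  have fact : ∀ i ∈ S, (0 < n i v ∧ n i w ≤ 0) ∨ (n i v < 0 ∧ 0 ≤ n i w) := by
    intro i hi
    rw [hS, Finset.mem_filter] at hi
    have h1 := hi.2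
    have h2 : n i v ≠ 0 := by
      intro h
      have h3 : i ∈ zs (sig n w) := hz (mem_zs_sig.2 h)
      rw [mem_zs_sig] at h3
      apply h1
      simp [sig, h, h3]
    rcases lt_or_gt_of_ne h2 with h3 | h3
    · right
      refine ⟨h3, ?_⟩
      by_contra h4
      rw [not_le] at h4
      apply h1
      simp [sig, sign_neg h3, sign_neg h4]
    · left
      refine ⟨h3, ?_⟩
      by_contra h4
      rw [not_le] at h4
      apply h1
      simp [sig, sign_pos h3, sign_pos h4]
  have ht0 : 0 < t i0 := by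
    rcases fact i0 hi0 with ⟨h1, h2⟩ | ⟨h1, h2⟩
    · exact div_pos h1 (by linarith)
    · exact div_pos_of_neg_of_neg h1 (by linarith)
  have ht1 : t i0 ≤ 1 := by
    rcases fact i0 hi0 with ⟨h1, h2⟩ | ⟨h1, h2⟩
    · rw [ht]; simp only
      rw [div_le_one (by linarith)]; linarith
    · rw [ht]; simp only
      rw [div_le_one_of_neg (by linarith)]; linarith
  set τ := t i0 with hτ
  have hu : ∀ i, n i (v + τ • (w - v)) = (1 - τ) * n i v + τ * n i w := by
    intro i
    simp only [map_add, map_smul, map_sub, smul_eq_mul]; ring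
  have hzero : n i0 (v + τ • (w - v)) = 0 := by
    rw [hu]
    have h3 : n i0 v - n i0 w ≠ 0 := by
      rcases fact i0 hi0 with ⟨h1, h2⟩ | ⟨h1, h2⟩
      · intro h; linarith
      · intro h; linarith
    have : τ * (n i0 v - n i0 w) = n i0 v := by
      rw [hτ, ht]; field_simp
    linarith
  have hsame : ∀ i, sig n v i = sig n w i → sig n (v + τ • (w - v)) i = sig n v i := by
    intro i hi
    show SignType.sign (n i (v + τ • (w - v))) = SignType.sign (n i v)
    have hi' : SignType.sign (n i v) = SignType.sign (n i w) := hi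
    rcases lt_trichotomy (n i v) 0 with h | h | h
    · have h5 : n i w < 0 := by
        rw [sign_neg h] at hi'
        exact sign_eq_neg_one_iff.1 hi'.symm
      rw [sign_neg h]
      apply sign_neg
      rw [hu]
      nlinarith
    · have h5 : n i w = 0 := by
        rw [h, sign_zero] at hi'
        exact sign_eq_zero_iff.1 hi'.symm
      rw [hu, h, h5]; simp
    · have h5 : 0 < n i w := by
        rw [sign_pos h] at hi'
        exact sign_eq_one_iff.1 hi'.symm
      rw [sign_pos h]
      apply sign_pos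
      rw [hu]
      nlinarith
  have hface : face (sig n (v + τ • (w - v))) (sig n v) := by
    intro i hi
    by_cases hs : sig n v i = sig n w i
    · exact hsame i hs
    · have hiS : i ∈ S := by rw [hS, Finset.mem_filter]; exact ⟨mem_univ _, hs⟩
      have hm := hmin i hiS
      have hi2 : n i (v + τ • (w - v)) ≠ 0 := by
        intro h
        apply hi
        simp [sig, h]
      show SignType.sign (n i (v + τ • (w - v))) = SignType.sign (n i v)
      rcases fact i hiS with ⟨h1, h2⟩ | ⟨h1, h2⟩
      · rw [sign_pos h1]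
        apply sign_pos
        refine lt_of_le_of_ne ?_ (Ne.symm hi2)
        rw [hu]
        have h3 : 0 < n i v - n i w := by linarith
        have h4 : τ * (n i v - n i w) ≤ n i v := by
          have := mul_le_mul_of_nonneg_right hm h3.le
          rw [ht] at this
          simp only at this
          rwa [div_mul_cancel₀ _ h3.ne'] at this
        linarith
      · rw [sign_neg h1]
        apply sign_neg
        refine lt_of_le_of_ne ?_ hi2
        rw [hu]
        have h3 : n i v - n i w < 0 := by linarith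
        have h4 : n i v ≤ τ * (n i v - n i w) := by
          have := mul_le_mul_of_nonpos_right hm h3.le
          rw [ht] at this
          simp only at this
          rwa [div_mul_cancel₀ _ h3.ne] at this
        linarith
  refine ⟨v + τ • (w - v), hface, ?_, hsame, ?_⟩
  · refine ⟨hface.zs_subset, fun hcon => ?_⟩
    have h5 := hcon (mem_zs_sig.2 hzero)
    rw [mem_zs_sig] at h5
    rcases fact i0 hi0 with ⟨h1, h2⟩ | ⟨h1, h2⟩
    · linarith
    · linarith
  · by_cases h1 : τ = 1
    · left
      rw [h1]; simp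
    · right
      have h2 : τ < 1 := lt_of_le_of_ne ht1 h1
      ext i
      rw [Finset.mem_inter, mem_zs_sig, mem_zs_sig, mem_zs_sig, hu]
      constructor
      · rintro ⟨h3, h4⟩
        rw [h4, mul_zero, add_zero] at h3
        rcases mul_eq_zero.1 h3 with h5 | h5
        · linarith
        · exact h5
      · intro h3
        have h4 : n i w = 0 := mem_zs_sig.1 (hz (mem_zs_sig.2 h3))
        rw [h3, h4]; simp

/-- the covector system of a family of linear functionals -/
noncomputable def linSys (n : ι → E →ₗ[ℝ] ℝ) : CovSys ι where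
  cov := Set.range (sig n)
  zero_mem := ⟨0, by funext i; simp [sig]⟩
  opp_mem := by
    rintro _ ⟨v, rfl⟩
    exact ⟨-v, by funext i; simp [sig, opp, Left.sign_neg]⟩
  comp_mem := by
    rintro _ _ ⟨v, rfl⟩ ⟨w, rfl⟩
    exact sig_comp n v w
  hit := by
    rintro _ _ ⟨v, rfl⟩ ⟨w, rfl⟩ hz hne
    obtain ⟨u, h1, h2, h3, h4⟩ := sig_hit n v w hz hne
    exact ⟨sig n u, ⟨u, rfl⟩, h1, h2, h3, h4⟩

lemma mem_linSys {n : ι → E →ₗ[ℝ] ℝ} {F : ι → SignType} :
    F ∈ (linSys n).cov ↔ ∃ v, sig n v = F := Iff.rfl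

variable [FiniteDimensional ℝ E]

/-- intersection of the hyperplanes indexed by `Z` -/
def inter (n : ι → E →ₗ[ℝ] ℝ) (Z : Finset ι) : Submodule ℝ E := Z.inf (fun i => LinearMap.ker (n i))

lemma mem_inter' {n : ι → E →ₗ[ℝ] ℝ} {Z : Finset ι} {v : E} :
    v ∈ inter n Z ↔ ∀ i ∈ Z, n i v = 0 := by
  unfold inter
  rw [Submodule.mem_finsetInf]
  simp only [LinearMap.mem_ker]

/-- the rank: codimension of the intersection -/
noncomputable def rkL (n : ι → E →ₗ[ℝ] ℝ) (Z : Finset ι) : ℕ :=
  Module.finrank ℝ E - Module.finrank ℝ (inter n Z)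

lemma rkL_empty (n : ι → E →ₗ[ℝ] ℝ) : rkL n ∅ = 0 := by
  unfold rkL inter
  rw [Finset.inf_empty, finrank_top, Nat.sub_self]

lemma finrank_inf_ker (X : Submodule ℝ E) (f : E →ₗ[ℝ] ℝ) (v : E) (hv : v ∈ X) (hf : f v ≠ 0) :
    Module.finrank ℝ (X ⊓ LinearMap.ker f : Submodule ℝ E) + 1 = Module.finrank ℝ X := by
  have h1 := LinearMap.finrank_range_add_finrank_ker (f.domRestrict X)
  have h2 : LinearMap.range (f.domRestrict X) = ⊤ := by
    rw [LinearMap.range_eq_top]
    intro y
    refine ⟨(y / f v) • ⟨v, hv⟩, ?_⟩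
    rw [map_smul, LinearMap.domRestrict_apply, smul_eq_mul]
    field_simp
  rw [h2, finrank_top, Module.finrank_self] at h1
  have h3 : LinearMap.ker (f.domRestrict X) = (X ⊓ LinearMap.ker f).comap X.subtype := by
    ext x
    simp
  have h4 : Module.finrank ℝ (LinearMap.ker (f.domRestrict X)) =
      Module.finrank ℝ (X ⊓ LinearMap.ker f : Submodule ℝ E) := by
    rw [h3]
    exact (Submodule.comapSubtypeEquivOfLe inf_le_left).finrank_eq
  omega

lemma rkL_cover (n : ι → E →ₗ[ℝ] ℝ) (f : ι → SignType) (hf : f ∈ (linSys n).cov)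
    (h : ι → SignType) (hh : h ∈ (linSys n).cov) (hc : IsCover (linSys n) (zs f) (zs h)) :
    rkL n (zs h) = rkL n (zs f) + 1 := by
  obtain ⟨v, rfl⟩ := hf
  obtain ⟨w, rfl⟩ := hh
  obtain ⟨hss, hcov⟩ := hc
  obtain ⟨i0, h1, h2⟩ := Finset.exists_of_ssubset hss
  have hX : inter n (zs (sig n w)) = inter n (zs (sig n v)) ⊓ LinearMap.ker (n i0) := by
    apply le_antisymm
    · intro u hu
      rw [mem_inter'] at hu
      rw [Submodule.mem_inf, mem_inter', LinearMap.mem_ker]
      exact ⟨fun i hi => hu i (hss.1 hi), hu i0 h1⟩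
    · intro u hu
      rw [Submodule.mem_inf, mem_inter', LinearMap.mem_ker] at hu
      rw [mem_inter']
      intro i hi
      have := hcov (sig n u) ⟨u, rfl⟩ (fun j hj => mem_zs_sig.2 (hu.1 j hj))
        ⟨i0, h1, h2, mem_zs_sig.2 hu.2⟩
      exact mem_zs_sig.1 (this hi)
  have h3 : Module.finrank ℝ (inter n (zs (sig n w))) + 1 = Module.finrank ℝ (inter n (zs (sig n v))) := by
    rw [hX]
    apply finrank_inf_ker _ _ v
    · rw [mem_inter']
      intro i hi
      exact mem_zs_sig.1 hi
    · intro h4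
      exact h2 (mem_zs_sig.2 h4)
  have h4 : Module.finrank ℝ (inter n (zs (sig n v))) ≤ Module.finrank ℝ E := Submodule.finrank_le _
  unfold rkL
  omega

/-- A subspace contained in none of finitely many hyperplanes has a vector outside all of them. -/
lemma exists_generic (n : ι → E →ₗ[ℝ] ℝ) (X : Submodule ℝ E) :
    ∃ v ∈ X, ∀ i, ¬ X ≤ LinearMap.ker (n i) → n i v ≠ 0 := by
  classical
  set S : Finset ι := univ.filter (fun i => ¬ X ≤ LinearMap.ker (n i)) with hS
  set T : Finset (Submodule ℝ X) := S.image (fun i => (LinearMap.ker (n i)).comap X.subtype) with hT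
  have hTt : ⊤ ∉ T := by
    intro h
    rw [hT, Finset.mem_image] at h
    obtain ⟨i, hi, h2⟩ := h
    rw [hS, Finset.mem_filter] at hi
    apply hi.2
    intro x hx
    have : (⟨x, hx⟩ : X) ∈ (LinearMap.ker (n i)).comap X.subtype := by rw [h2]; trivial
    exact this
  have := Subspace.biUnion_ne_univ_of_top_notMem (s := T) hTt
  rw [Ne, Set.eq_univ_iff_forall] at this
  push Not at this
  obtain ⟨x, hx⟩ := this
  refine ⟨x.1, x.2, fun i hi h0 => hx ?_⟩
  rw [Set.mem_iUnion₂]
  refine ⟨(LinearMap.ker (n i)).comap X.subtype, ?_, ?_⟩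
  · rw [hT, Finset.mem_image]
    refine ⟨i, ?_, rfl⟩
    rw [hS, Finset.mem_filter]
    exact ⟨mem_univ _, hi⟩
  · exact h0

/-- a hyperplane contained in another one is equal to it -/
lemma ker_eq_of_le {f g : E →ₗ[ℝ] ℝ} (hg : g ≠ 0) (h : LinearMap.ker f ≤ LinearMap.ker g) :
    LinearMap.ker f = LinearMap.ker g := by
  obtain ⟨w, hw⟩ : ∃ w, g w ≠ 0 := by
    by_contra hcon
    push Not at hcon
    exact hg (LinearMap.ext hcon)
  have hfw : f w ≠ 0 := fun h0 => hw (h h0)
  refine le_antisymm h ?_
  intro x hx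
  rw [LinearMap.mem_ker] at hx ⊢
  have h1 : f (x - (f x / f w) • w) = 0 := by
    rw [map_sub, map_smul, smul_eq_mul]; field_simp; ring
  have h2 : g (x - (f x / f w) • w) = 0 := h h1
  rw [map_sub, map_smul, smul_eq_mul, hx, zero_sub, neg_eq_zero] at h2
  rcases mul_eq_zero.1 h2 with h3 | h3
  · rw [div_eq_zero_iff] at h3
    exact h3.resolve_right hfw
  · exact absurd h3 hw

lemma cover_empty_singleton {n : ι → E →ₗ[ℝ] ℝ} (hn0 : ∀ i, n i ≠ 0)
    (hninj : ∀ i j, LinearMap.ker (n i) = LinearMap.ker (n j) → i = j) {Z : Finset ι}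
    (hc : IsCover (linSys n) ∅ Z) : ∃ i, Z = {i} := by
  obtain ⟨h1, h2⟩ := hc
  obtain ⟨i, hi, _⟩ := Finset.exists_of_ssubset h1
  refine ⟨i, ?_⟩
  apply Finset.eq_singleton_iff_unique_mem.2
  refine ⟨hi, fun j hj => ?_⟩
  by_contra hij
  have h3 : ¬ LinearMap.ker (n i) ≤ LinearMap.ker (n j) := fun h => hij (hninj _ _ (ker_eq_of_le (hn0 j) h)).symm
  obtain ⟨u, hu, hu2⟩ := SetLike.not_le_iff_exists.1 h3
  have := h2 (sig n u) ⟨u, rfl⟩ (Finset.empty_subset _) ⟨i, hi, Finset.notMem_empty i, mem_zs_sig.2 hu⟩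
  exact hu2 (mem_zs_sig.1 (this hj))

end Lin

end Pool.Agent.Lib.MP_1c795d_co
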