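import Pool.Agent.Lib.MP_1c795d_co.Geom

/-!
Flats of an arrangement versus zero sets of covectors, and the main theorem.
-/

set_option linter.unusedSectionVars false

namespace Pool.Agent.Lib.MP_1c795d_co

open Finset

section Flats

variable {d : ℕ} {A : Arrangement d} {n : A.planes → EuclideanSpace ℝ (Fin d) →ₗ[ℝ] ℝ}
  (hn : ∀ i, LinearMap.ker (n i) = i.1) [DecidableEq A.planes]

/-- the flat of a set of hyperplanes -/
noncomputable def toFlat (Z : Finset A.planes) : A.Flat := by
  classical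
  exact ⟨(Z.image Subtype.val).inf id, Z.image Subtype.val, by
    intro H hH
    rw [Finset.mem_image] at hH
    obtain ⟨i, _, rfl⟩ := hH
    exact i.2, rfl⟩

open Classical in
/-- the hyperplanes containing a flat -/
noncomputable def ofFlat (X : A.Flat) : Finset A.planes := univ.filter (fun i => X.1 ≤ i.1)

lemma mem_ofFlat {X : A.Flat} {i : A.planes} : i ∈ ofFlat X ↔ X.1 ≤ i.1 := by
  classical
  simp [ofFlat]

lemma le_toFlat {Z : Finset A.planes} {Y : Submodule ℝ (EuclideanSpace ℝ (Fin d))} :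
    Y ≤ (toFlat Z).1 ↔ ∀ i ∈ Z, Y ≤ i.1 := by
  classical
  show Y ≤ (Z.image Subtype.val).inf id ↔ _
  rw [Finset.le_inf_iff]
  constructor
  · intro h i hi
    exact h i.1 (Finset.mem_image_of_mem _ hi)
  · intro h H hH
    rw [Finset.mem_image] at hH
    obtain ⟨i, hi, rfl⟩ := hH
    exact h i hi

lemma toFlat_ofFlat (X : A.Flat) : toFlat (ofFlat X) = X := by
  apply Subtype.ext
  apply le_antisymm
  · obtain ⟨B, hB, hX⟩ := X.2
    have h1 : (toFlat (ofFlat X)).1 ≤ B.inf id := by
      rw [Finset.le_inf_iff]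
      intro H hH
      have h2 : X.1 ≤ H := by
        rw [hX]; exact Finset.inf_le (f := id) hH
      have h3 : (⟨H, hB hH⟩ : A.planes) ∈ ofFlat X := mem_ofFlat.2 h2
      exact le_toFlat.1 le_rfl _ h3
    rw [← hX] at h1
    exact h1
  · rw [le_toFlat]
    intro i hi
    exact mem_ofFlat.1 hi

include hn

lemma ofFlat_toFlat {Z : Finset A.planes} (hZ : IsFl (linSys n) Z) : ofFlat (toFlat Z) = Z := by
  obtain ⟨_, ⟨v, rfl⟩, rfl⟩ := hZ
  ext i
  rw [mem_ofFlat]
  constructor
  · intro h
    rw [mem_zs_sig]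
    have h1 : v ∈ (toFlat (zs (sig n v))).1 := by
      have : Submodule.span ℝ {v} ≤ (toFlat (zs (sig n v))).1 := by
        rw [le_toFlat]
        intro j hj
        rw [Submodule.span_singleton_le_iff_mem, ← hn j]
        exact mem_zs_sig.1 hj
      exact this (Submodule.mem_span_singleton_self v)
    have h2 := h h1
    rw [← hn i] at h2
    exact h2
  · intro h
    exact le_toFlat.1 le_rfl i h

lemma isFl_ofFlat (X : A.Flat) : IsFl (linSys n) (ofFlat X) := by
  obtain ⟨v, hv, hv2⟩ := exists_generic n X.1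
  refine ⟨sig n v, ⟨v, rfl⟩, ?_⟩
  ext i
  rw [mem_zs_sig, mem_ofFlat]
  constructor
  · intro h
    by_contra hcon
    rw [← hn i] at hcon
    exact hv2 i hcon h
  · intro h
    have := h hv
    rw [← hn i] at this
    exact this

omit hn in
lemma ofFlat_mono {X Y : A.Flat} (h : X ≤ Y) : ofFlat Y ⊆ ofFlat X := by
  intro i hi
  rw [mem_ofFlat] at *
  exact le_trans h hi

omit hn in
lemma toFlat_anti {Z W : Finset A.planes} (h : Z ⊆ W) : toFlat W ≤ toFlat Z := by
  show (toFlat W).1 ≤ (toFlat Z).1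
  rw [le_toFlat]
  intro i hi
  exact le_toFlat.1 le_rfl i (h hi)

omit hn in
/-- the whole space as a flat -/
def topFlat (A : Arrangement d) : A.Flat := ⟨⊤, ∅, Finset.empty_subset _, by simp⟩

omit hn in
/-- a hyperplane of the arrangement as a flat -/
def hypFlat (i : A.planes) : A.Flat := ⟨i.1, {i.1}, by simp, by simp⟩

lemma isFl_empty (hn0 : ∀ i, n i ≠ 0) : IsFl (linSys n) ∅ := by
  have h1 := isFl_ofFlat hn (topFlat A)
  have h2 : ofFlat (topFlat A) = ∅ := by
    rw [Finset.eq_empty_iff_forall_notMem]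
    intro i hi
    rw [mem_ofFlat] at hi
    have hi' : (⊤ : Submodule ℝ (EuclideanSpace ℝ (Fin d))) ≤ i.1 := hi
    rw [top_le_iff, ← hn i, LinearMap.ker_eq_top] at hi'
    exact hn0 i hi'
  rwa [h2] at h1

lemma isFl_single (hn0 : ∀ i, n i ≠ 0) (i : A.planes) : IsFl (linSys n) {i} := by
  have h1 := isFl_ofFlat hn (hypFlat i)
  have h2 : ofFlat (hypFlat i) = {i} := by
    ext j
    rw [mem_ofFlat, Finset.mem_singleton]
    constructor
    · intro h
      have h' : i.1 ≤ j.1 := h
      rw [← hn i, ← hn j] at h'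
      have := ker_eq_of_le (hn0 j) h'
      rw [hn, hn] at this
      exact (Subtype.ext this).symm
    · rintro rfl; exact le_refl _
  rwa [h2] at h1

end Flats

section FlatIso

variable {d d' : ℕ} {A : Arrangement d} {A' : Arrangement d'}
  {n : A.planes → EuclideanSpace ℝ (Fin d) →ₗ[ℝ] ℝ} (hn : ∀ i, LinearMap.ker (n i) = i.1)
  {n' : A'.planes → EuclideanSpace ℝ (Fin d') →ₗ[ℝ] ℝ} (hn' : ∀ i, LinearMap.ker (n' i) = i.1)
  [DecidableEq A.planes] [DecidableEq A'.planes]

/-- an isomorphism of intersection lattices as an isomorphism of flats of covectors -/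
noncomputable def flOrd (Φ : A.L ≃o A'.L) : FlOrd (linSys n) (linSys n') where
  φ Z := ofFlat (OrderDual.ofDual (Φ (OrderDual.toDual (toFlat Z))))
  ψ Z := ofFlat (OrderDual.ofDual (Φ.symm (OrderDual.toDual (toFlat Z))))
  hφ _ _ := isFl_ofFlat hn' _
  hψ _ _ := isFl_ofFlat hn _
  left Z hZ := by
    rw [toFlat_ofFlat, OrderDual.toDual_ofDual, OrderIso.symm_apply_apply, OrderDual.ofDual_toDual,
      ofFlat_toFlat hn hZ]
  right Z hZ := by
    rw [toFlat_ofFlat, OrderDual.toDual_ofDual, OrderIso.apply_symm_apply, OrderDual.ofDual_toDual,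
      ofFlat_toFlat hn' hZ]
  mono Z W _ _ h := by
    apply ofFlat_mono
    have h1 : OrderDual.toDual (toFlat Z) ≤ OrderDual.toDual (toFlat W) := toFlat_anti h
    exact Φ.monotone h1
  mono' Z W _ _ h := by
    apply ofFlat_mono
    have h1 : OrderDual.toDual (toFlat Z) ≤ OrderDual.toDual (toFlat W) := toFlat_anti h
    exact Φ.symm.monotone h1

end FlatIso

/-- precomposition with a bijection is an isomorphism of groups of functions -/
def funCongr {α β : Type*} (e : α ≃ β) : (α → ℤ) ≃+ (β → ℤ) where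
  toFun f := fun b => f (e.symm b)
  invFun g := fun a => g (e a)
  left_inv f := by funext a; simp
  right_inv g := by funext b; simp
  map_add' _ _ := rfl

theorem main {d d' : ℕ} (A : Arrangement d) (A' : Arrangement d') (h : Nonempty (A.L ≃o A'.L))
    (k l : ℕ) : Nonempty (MH A.topeGraph k l ≃+ MH A'.topeGraph k l) := by
  classical
  obtain ⟨Φ⟩ := h
  obtain ⟨n, hn, hn0⟩ := A.exists_normals
  obtain ⟨n', hn', hn0'⟩ := A'.exists_normals
  obtain ⟨e1⟩ := MH_equiv (G := A.topeGraph) (csgn_inj hn) (edist_eq hn hn0)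
    (fun C b => InL (linSys n) (sv (csgn n) C) b) (fun _ b => del (rkL n) b)
    (fun C b hb => AC_single (csgn_inj hn) (cV1 hn) (cV2 hn) C hb)
    (fun C b hb => CA_single (csgn_inj hn) (cV1 hn) (cV2 hn) C (rkL_empty n) (rkL_cover n) _ b le_rfl hb)
    k l (index_finite hn l)
  obtain ⟨e2⟩ := MH_equiv (G := A'.topeGraph) (csgn_inj hn') (edist_eq hn' hn0')
    (fun C b => InL (linSys n') (sv (csgn n') C) b) (fun _ b => del (rkL n') b)
    (fun C b hb => AC_single (csgn_inj hn') (cV1 hn') (cV2 hn') C hb)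
    (fun C b hb => CA_single (csgn_inj hn') (cV1 hn') (cV2 hn') C (rkL_empty n') (rkL_cover n') _ b le_rfl hb)
    k l (index_finite hn' l)
  let I : FlIso (linSys n) (linSys n') (rkL n) (rkL n') :=
    (flOrd hn hn' Φ).toFlIso (isFl_single hn hn0) (isFl_single hn' hn0') (isFl_empty hn hn0)
      (isFl_empty hn' hn0') (rkL_empty n) (rkL_empty n') (rkL_cover n) (rkL_cover n')
  obtain ⟨e3⟩ := index_equiv I (rkL_empty n) (rkL_empty n') (rkL_cover n) (rkL_cover n')
    (csgn_inj hn) (csgn_inj hn') (cV1 hn) (cV2 hn) (cV1 hn') (cV2 hn') k l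
  exact ⟨e1.trans ((funCongr e3).trans e2.symm)⟩

end Pool.Agent.Lib.MP_1c795d_co
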