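import Mathlib

/-!
Lists of vertices with crossing numbers and the plain simplicial boundary; acyclicity of boxes.
-/

namespace Pool.Agent.Lib.MP_1c795d_co

open Finset

section Boundary

variable {V : Type*}

/-- simplicial boundary on the basis of lists -/
noncomputable def bdL : List V → (List V →₀ ℤ)
  | [] => 0
  | z :: R => Finsupp.single R 1 - Finsupp.mapDomain (List.cons z) (bdL R)

/-- the boundary as a linear map -/
noncomputable def bd : (List V →₀ ℤ) →ₗ[ℤ] (List V →₀ ℤ) := Finsupp.linearCombination ℤ bdL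

/-- prepend `z` -/
noncomputable def consL (z : V) : (List V →₀ ℤ) →ₗ[ℤ] (List V →₀ ℤ) :=
  Finsupp.lmapDomain ℤ ℤ (List.cons z)

@[simp] lemma bd_single (R : List V) (n : ℤ) : bd (Finsupp.single R n) = n • bdL R := by
  simp [bd, Finsupp.linearCombination_single]

@[simp] lemma consL_single (z : V) (R : List V) (n : ℤ) :
    consL z (Finsupp.single R n) = Finsupp.single (z :: R) n := by
  simp [consL, Finsupp.lmapDomain_apply, Finsupp.mapDomain_single]

lemma bdL_cons (z : V) (R : List V) : bdL (z :: R) = Finsupp.single R 1 - consL z (bdL R) := rfl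

lemma bd_consL (z : V) (c : List V →₀ ℤ) : bd (consL z c) = c - consL z (bd c) := by
  induction c using Finsupp.induction_linear with
  | zero => simp
  | add f g hf hg => rw [map_add, map_add, hf, hg, map_add, map_add]; abel
  | single R n =>
    rw [consL_single, bd_single, bd_single, bdL_cons, smul_sub, map_smul, Finsupp.smul_single]
    simp

lemma bd_bdL (R : List V) : bd (bdL R) = 0 := by
  induction R with
  | nil => simp [bdL]
  | cons z R ih =>
    rw [bdL_cons, map_sub, bd_consL, ih, bd_single]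
    simp

lemma bd_bd (c : List V →₀ ℤ) : bd (bd c) = 0 := by
  induction c using Finsupp.induction_linear with
  | zero => simp
  | add f g hf hg => rw [map_add, map_add, hf, hg, add_zero]
  | single R n => rw [bd_single, map_smul, bd_bdL, smul_zero]

/-- one-element deletion -/
inductive Del : List V → List V → Prop
  | hd (z : V) (R : List V) : Del (z :: R) R
  | tl (z : V) {R R' : List V} : Del R R' → Del (z :: R) (z :: R')

lemma del_of_mem_support {R R' : List V} (h : R' ∈ (bdL R).support) : Del R R' := by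
  classical
  induction R generalizing R' with
  | nil => simp [bdL] at h
  | cons z R ih =>
    rw [bdL_cons] at h
    have h2 := Finsupp.support_sub h
    rw [Finset.mem_union] at h2
    rcases h2 with h2 | h2
    · have : R' = R := by
        have := Finsupp.support_single_subset h2
        simpa using this
      subst this
      exact Del.hd z R'
    · have h3 : R' ∈ (Finsupp.mapDomain (List.cons z) (bdL R)).support := h2
      have h4 := Finsupp.mapDomain_support h3
      rw [Finset.mem_image] at h4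
      obtain ⟨R'', hR'', rfl⟩ := h4
      exact Del.tl z (ih hR'')

/-- `s` supported elements -/
abbrev Sup (s : Set (List V)) : Submodule ℤ (List V →₀ ℤ) := Finsupp.supported ℤ ℤ s

lemma bdL_mem_Sup {s : Set (List V)} {R : List V} (h : ∀ R', Del R R' → R' ∈ s) : bdL R ∈ Sup s := by
  rw [Finsupp.mem_supported]
  intro R' hR'
  exact h R' (del_of_mem_support hR')

/-- to check that `bd` maps `Sup s` into `Sup t` it is enough to look at deletions -/
lemma bd_mem_Sup {s t : Set (List V)} (h : ∀ R ∈ s, ∀ R', Del R R' → R' ∈ t)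
    {c : List V →₀ ℤ} (hc : c ∈ Sup s) : bd c ∈ Sup t := by
  rw [bd, Finsupp.linearCombination_apply, Finsupp.sum]
  refine Submodule.sum_mem _ fun R hR => Submodule.smul_mem _ _ ?_
  exact bdL_mem_Sup (h R (by rw [Finsupp.mem_supported] at hc; exact hc hR))

lemma Del.length {R R' : List V} (h : Del R R') : R'.length + 1 = R.length := by
  induction h with
  | hd z R => simp
  | tl z h ih => simp [ih]

lemma Sup_mono {s t : Set (List V)} (h : s ⊆ t) : Sup s ≤ Sup t := Finsupp.supported_mono h

lemma Sup_union_split {s t : Set (List V)} {c : List V →₀ ℤ} (hc : c ∈ Sup (s ∪ t)) :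
    ∃ a ∈ Sup s, ∃ b ∈ Sup t, c = a + b := by
  rw [Sup, Finsupp.supported_union] at hc
  obtain ⟨a, ha, b, hb, h⟩ := Submodule.mem_sup.1 hc
  exact ⟨a, ha, b, hb, h.symm⟩

lemma Sup_inter {s t : Set (List V)} {c : List V →₀ ℤ} (hs : c ∈ Sup s) (ht : c ∈ Sup t) :
    c ∈ Sup (s ∩ t) := by
  rw [Finsupp.mem_supported] at *
  exact Set.subset_inter hs ht

end Boundary

section Acyclic

variable {V : Type*}

/-- the pair `(T, K)` of generator sets is acyclic: the complex `(Sup T + Sup K)/Sup K` is exact -/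
def Acy (T K : Set (List V)) : Prop :=
  ∀ u ∈ Sup T, bd u ∈ Sup K → ∃ w ∈ Sup T, u - bd w ∈ Sup K

/-- the pair `(T, K)` has the homology of one cell of dimension `n` -/
def Cell (T K : Set (List V)) (n : ℕ) : Prop :=
  ∃ z ∈ Sup T, bd z ∈ Sup K ∧ z ∈ Sup {R : List V | R.length = n} ∧
    ∀ u ∈ Sup T, bd u ∈ Sup K → ∃! t : ℤ, ∃ w ∈ Sup T, u - t • z - bd w ∈ Sup K

/-- the data of a splitting of a box -/
structure Split (T T' K K' : Set (List V)) : Prop where
  TT : T' ⊆ T
  KK : K ⊆ K'
  TK : T' ⊆ K'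
  inter : T ∩ K' ⊆ T' ∪ K
  sT : ∀ R ∈ T, ∀ R', Del R R' → R' ∈ T ∪ K
  sT' : ∀ R ∈ T', ∀ R', Del R R' → R' ∈ T' ∪ K
  sK : ∀ R ∈ K, ∀ R', Del R R' → R' ∈ K
  sK' : ∀ R ∈ K', ∀ R', Del R R' → R' ∈ K'

variable {T T' K K' : Set (List V)}

lemma Split.split (S : Split T T' K K') {c : List V →₀ ℤ} (h1 : c ∈ Sup (T ∪ K)) (h2 : c ∈ Sup K') :
    ∃ a ∈ Sup T', ∃ b ∈ Sup K, c = a + b := by
  refine Sup_union_split (Sup_mono ?_ (Sup_inter h1 h2))
  rintro R ⟨hR | hR, hR'⟩
  · exact S.inter ⟨hR, hR'⟩
  · exact Or.inr hR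

lemma Acy.whole (S : Split T T' K K') (h1 : Acy T' K) (h2 : Acy T K') : Acy T K := by
  intro u hu hdu
  obtain ⟨w, hw, hw2⟩ := h2 u hu (Sup_mono S.KK hdu)
  have hb : bd w ∈ Sup (T ∪ K) := bd_mem_Sup S.sT hw
  obtain ⟨a, ha, b, hb', hab⟩ := S.split (Submodule.sub_mem _ (Sup_mono Set.subset_union_left hu) hb) hw2
  have hda : bd a ∈ Sup K := by
    have : bd a = bd u - bd b := by
      have := congrArg bd hab
      rw [map_sub, map_add, bd_bd, sub_zero] at this
      rw [this]; abel
    rw [this]
    exact Submodule.sub_mem _ hdu (bd_mem_Sup S.sK hb')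
  obtain ⟨w', hw', hw2'⟩ := h1 a ha hda
  refine ⟨w + w', Submodule.add_mem _ hw (Sup_mono S.TT hw'), ?_⟩
  have : u - bd (w + w') = (a - bd w') + b := by
    rw [map_add, ← sub_sub, hab]; abel
  rw [this]
  exact Submodule.add_mem _ hw2' hb'

lemma Acy.upper (S : Split T T' K K') (h1 : Acy T K) (h2 : Acy T' K) : Acy T K' := by
  intro u hu hdu
  obtain ⟨a, ha, b, hb, hab⟩ := S.split (bd_mem_Sup S.sT hu) hdu
  have hda : bd a ∈ Sup K := by
    have : bd a = - bd b := by
      have := congrArg bd hab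
      rw [bd_bd, map_add] at this
      exact eq_neg_of_add_eq_zero_left this.symm
    rw [this]
    exact Submodule.neg_mem _ (bd_mem_Sup S.sK hb)
  obtain ⟨v, hv, hv2⟩ := h2 a ha hda
  have hduv : bd (u - v) ∈ Sup K := by
    have : bd (u - v) = (a - bd v) + b := by rw [map_sub, hab]; abel
    rw [this]
    exact Submodule.add_mem _ hv2 hb
  obtain ⟨w, hw, hw2⟩ := h1 (u - v) (Submodule.sub_mem _ hu (Sup_mono S.TT hv)) hduv
  refine ⟨w, hw, ?_⟩
  have : u - bd w = (u - v - bd w) + v := by abel
  rw [this]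
  exact Submodule.add_mem _ (Sup_mono S.KK hw2) (Sup_mono S.TK hv)

lemma Cell.eq_zero {z : List V →₀ ℤ}
    (hz : z ∈ Sup T) (hdz : bd z ∈ Sup K)
    (h : ∀ u ∈ Sup T, bd u ∈ Sup K → ∃! t : ℤ, ∃ w ∈ Sup T, u - t • z - bd w ∈ Sup K)
    {s : ℤ} {v : List V →₀ ℤ} (hv : v ∈ Sup T) (hs : s • z + bd v ∈ Sup K) : s = 0 := by
  obtain ⟨t, ht, hu⟩ := h (s • z) (Submodule.smul_mem _ _ hz)
    (by rw [map_smul]; exact Submodule.smul_mem _ _ hdz)
  have e1 : s = t := hu s ⟨0, Submodule.zero_mem _, by simp⟩
  have e2 : (0 : ℤ) = t := hu 0 ⟨-v, Submodule.neg_mem _ hv, by simpa using hs⟩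
  rw [e1, ← e2]

lemma Cell.add_upper {n : ℕ} (S : Split T T' K K') (h1 : Cell T' K n) (h2 : Acy T K') : Cell T K n := by
  obtain ⟨z, hz, hdz, hlen, h⟩ := h1
  refine ⟨z, Sup_mono S.TT hz, hdz, hlen, ?_⟩
  intro u hu hdu
  obtain ⟨w, hw, hw2⟩ := h2 u hu (Sup_mono S.KK hdu)
  have hb : bd w ∈ Sup (T ∪ K) := bd_mem_Sup S.sT hw
  obtain ⟨a, ha, b, hb', hab⟩ := S.split (Submodule.sub_mem _ (Sup_mono Set.subset_union_left hu) hb) hw2
  have hda : bd a ∈ Sup K := by
    have : bd a = bd u - bd b := by
      have := congrArg bd hab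
      rw [map_sub, map_add, bd_bd, sub_zero] at this
      rw [this]; abel
    rw [this]
    exact Submodule.sub_mem _ hdu (bd_mem_Sup S.sK hb')
  obtain ⟨t, ⟨w', hw', hw2'⟩, -⟩ := h a ha hda
  have key : u - t • z - bd (w + w') ∈ Sup K := by
    have : u - t • z - bd (w + w') = (a - t • z - bd w') + b := by
      rw [map_add]
      have : u = a + b + bd w := by rw [← hab]; abel
      rw [this]; abel
    rw [this]
    exact Submodule.add_mem _ hw2' hb'
  refine ⟨t, ⟨w + w', Submodule.add_mem _ hw (Sup_mono S.TT hw'), key⟩, ?_⟩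
  rintro t1 ⟨w1, hw1, hk1⟩
  -- difference
  have hs : (t - t1) • z + bd (w + w' - w1) ∈ Sup K := by
    have : (t - t1) • z + bd (w + w' - w1) = (u - t1 • z - bd w1) - (u - t • z - bd (w + w')) := by
      rw [sub_smul, map_sub]; abel
    rw [this]
    exact Submodule.sub_mem _ hk1 key
  set v := w + w' - w1 with hv
  have hvT : v ∈ Sup T := Submodule.sub_mem _ (Submodule.add_mem _ hw (Sup_mono S.TT hw')) hw1
  have hbv : bd v ∈ Sup K' := by
    have : bd v = ((t - t1) • z + bd v) - (t - t1) • z := by abel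
    rw [this]
    exact Submodule.sub_mem _ (Sup_mono S.KK hs) (Submodule.smul_mem _ _ (Sup_mono S.TK hz))
  obtain ⟨w2, hw2, hw3⟩ := h2 v hvT hbv
  obtain ⟨a', ha', b', hb'', hab'⟩ := S.split
    (Submodule.sub_mem _ (Sup_mono Set.subset_union_left hvT) (bd_mem_Sup S.sT hw2)) hw3
  have h5 : bd v = bd a' + bd b' := by
    have := congrArg bd hab'
    rw [map_sub, map_add, bd_bd, sub_zero] at this
    exact this
  have : t - t1 = 0 := by
    refine Cell.eq_zero (T := T') (K := K) hz hdz h ha' ?_
    have : (t - t1) • z + bd a' = ((t - t1) • z + bd v) - bd b' := by rw [h5]; abel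
    rw [this]
    exact Submodule.sub_mem _ hs (bd_mem_Sup S.sK hb'')
  omega

lemma Cell.drop_lower {n : ℕ} (S : Split T T' K K') (h1 : Cell T K n) (h2 : Acy T' K) : Cell T K' n := by
  obtain ⟨z, hz, hdz, hlen, h⟩ := h1
  refine ⟨z, hz, Sup_mono S.KK hdz, hlen, ?_⟩
  intro u hu hdu
  obtain ⟨a, ha, b, hb, hab⟩ := S.split (bd_mem_Sup S.sT hu) hdu
  have hda : bd a ∈ Sup K := by
    have : bd a = - bd b := by
      have := congrArg bd hab
      rw [bd_bd, map_add] at this
      exact eq_neg_of_add_eq_zero_left this.symm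
    rw [this]
    exact Submodule.neg_mem _ (bd_mem_Sup S.sK hb)
  obtain ⟨v, hv, hv2⟩ := h2 a ha hda
  have hduv : bd (u - v) ∈ Sup K := by
    have : bd (u - v) = (a - bd v) + b := by rw [map_sub, hab]; abel
    rw [this]
    exact Submodule.add_mem _ hv2 hb
  obtain ⟨t, ⟨w, hw, hw2⟩, -⟩ := h (u - v) (Submodule.sub_mem _ hu (Sup_mono S.TT hv)) hduv
  have key : u - t • z - bd w ∈ Sup K' := by
    have : u - t • z - bd w = (u - v - t • z - bd w) + v := by abel
    rw [this]
    exact Submodule.add_mem _ (Sup_mono S.KK hw2) (Sup_mono S.TK hv)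
  refine ⟨t, ⟨w, hw, key⟩, ?_⟩
  rintro t1 ⟨w1, hw1, hk1⟩
  have hs : (t - t1) • z + bd (w - w1) ∈ Sup K' := by
    have : (t - t1) • z + bd (w - w1) = (u - t1 • z - bd w1) - (u - t • z - bd w) := by
      rw [sub_smul, map_sub]; abel
    rw [this]
    exact Submodule.sub_mem _ hk1 key
  have hvT : w - w1 ∈ Sup T := Submodule.sub_mem _ hw hw1
  obtain ⟨a', ha', b', hb', hab'⟩ := S.split
    (Submodule.add_mem _ (Sup_mono Set.subset_union_left (Submodule.smul_mem _ (t - t1) hz))
      (bd_mem_Sup S.sT hvT)) hs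
  have hda' : bd a' ∈ Sup K := by
    have : bd a' = (t - t1) • bd z - bd b' := by
      have := congrArg bd hab'
      rw [map_add, map_add, bd_bd, add_zero, map_smul] at this
      rw [this]; abel
    rw [this]
    exact Submodule.sub_mem _ (Submodule.smul_mem _ _ hdz) (bd_mem_Sup S.sK hb')
  obtain ⟨v', hv', hv2'⟩ := h2 a' ha' hda'
  have : t - t1 = 0 := by
    refine Cell.eq_zero (T := T) (K := K) hz hdz h
      (v := w - w1 - v') (Submodule.sub_mem _ hvT (Sup_mono S.TT hv')) ?_
    have : (t - t1) • z + bd (w - w1 - v') = (a' - bd v') + b' := by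
      rw [map_sub, ← add_sub_assoc, hab']; abel
    rw [this]
    exact Submodule.add_mem _ hv2' hb'
  omega

/-- restriction to lists of a given length -/
noncomputable def lenPart (n : ℕ) (c : List V →₀ ℤ) : List V →₀ ℤ := c.filter (fun R => R.length = n)

lemma lenPart_mem {s : Set (List V)} {c : List V →₀ ℤ} (hc : c ∈ Sup s) (n : ℕ) : lenPart n c ∈ Sup s := by
  classical
  rw [Finsupp.mem_supported] at *
  intro R hR
  rw [lenPart] at hR
  have : R ∈ (c.filter (fun R => R.length = n)).support := hR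
  rw [Finsupp.support_filter] at this
  exact hc (Finset.mem_coe.2 (Finset.mem_filter.1 this).1)

lemma lenPart_len (n : ℕ) (c : List V →₀ ℤ) : lenPart n c ∈ Sup {R : List V | R.length = n} := by
  classical
  rw [Finsupp.mem_supported]
  intro R hR
  have : R ∈ (c.filter (fun R => R.length = n)).support := hR
  rw [Finsupp.support_filter] at this
  exact (Finset.mem_filter.1 this).2

lemma lenPart_eq_self {n : ℕ} {c : List V →₀ ℤ} (hc : c ∈ Sup {R : List V | R.length = n}) :
    lenPart n c = c := by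
  classical
  rw [lenPart, Finsupp.filter_eq_self_iff]
  intro R hR
  rw [Finsupp.mem_supported] at hc
  exact hc (Finset.mem_coe.2 (Finsupp.mem_support_iff.2 hR))

lemma lenPart_eq_zero {n m : ℕ} (h : m ≠ n) {c : List V →₀ ℤ} (hc : c ∈ Sup {R : List V | R.length = m}) :
    lenPart n c = 0 := by
  classical
  rw [lenPart, Finsupp.filter_eq_zero_iff]
  intro R hR
  rw [Finsupp.mem_supported] at hc
  by_contra h0
  have := hc (Finset.mem_coe.2 (Finsupp.mem_support_iff.2 h0))
  simp only [Set.mem_ofPred_eq] at this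
  omega

lemma lenPart_zero (n : ℕ) : lenPart n (0 : List V →₀ ℤ) = 0 := Finsupp.filter_zero _

lemma lenPart_add (n : ℕ) (a b : List V →₀ ℤ) : lenPart n (a + b) = lenPart n a + lenPart n b :=
  Finsupp.filter_add

lemma lenPart_smul (n : ℕ) (t : ℤ) (a : List V →₀ ℤ) : lenPart n (t • a) = t • lenPart n a :=
  Finsupp.filter_smul

lemma lenPart_sub (n : ℕ) (a b : List V →₀ ℤ) : lenPart n (a - b) = lenPart n a - lenPart n b := by
  have : a - b = a + (-1 : ℤ) • b := by simp [sub_eq_add_neg]
  rw [this, lenPart_add, lenPart_smul]; simp [sub_eq_add_neg]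

lemma bdL_len (R : List V) : bdL R ∈ Sup {R' : List V | R'.length + 1 = R.length} :=
  bdL_mem_Sup (fun _ h => h.length)

lemma lenPart_bd (n : ℕ) (c : List V →₀ ℤ) : lenPart n (bd c) = bd (lenPart (n+1) c) := by
  classical
  induction c using Finsupp.induction_linear with
  | zero => simp [lenPart_zero]
  | add f g hf hg => rw [map_add, lenPart_add, lenPart_add, map_add, hf, hg]
  | single R m =>
    by_cases hR : R.length = n + 1
    · have e1 : lenPart (n+1) (Finsupp.single R m) = Finsupp.single R m := by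
        apply lenPart_eq_self
        rw [Finsupp.mem_supported]
        intro R' hR'
        have : R' = R := by simpa using Finsupp.support_single_subset hR'
        subst this; exact hR
      rw [e1, bd_single, lenPart_smul, lenPart_eq_self]
      refine Sup_mono ?_ (bdL_len R)
      intro R' hR'
      simp only [Set.mem_ofPred_eq] at *
      omega
    · have e1 : lenPart (n+1) (Finsupp.single R m) = 0 := by
        apply lenPart_eq_zero (m := R.length) hR
        rw [Finsupp.mem_supported]
        intro R' hR'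
        have : R' = R := by simpa using Finsupp.support_single_subset hR'
        subst this; rfl
      rw [e1, map_zero, bd_single, lenPart_smul]
      rcases Nat.eq_zero_or_pos R.length with h0 | h0
      · have : R = [] := List.length_eq_zero_iff.1 h0
        subst this; simp [bdL, lenPart_zero]
      · rw [lenPart_eq_zero (m := R.length - 1) (by omega), smul_zero]
        refine Sup_mono ?_ (bdL_len R)
        intro R' hR'
        simp only [Set.mem_ofPred_eq] at *
        omega

lemma Cell.boundary {n : ℕ} (S : Split T T' K K') (h1 : Acy T K) (h2 : Cell T' K n) : Cell T K' (n+1) := by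
  obtain ⟨z', hz', hdz', hlen', h⟩ := h2
  obtain ⟨w0, hw0, hw0'⟩ := h1 z' (Sup_mono S.TT hz') hdz'
  set z := lenPart (n+1) w0 with hzdef
  have hz : z ∈ Sup T := lenPart_mem hw0 _
  have hzK : z' - bd z ∈ Sup K := by
    have := lenPart_mem hw0' n
    rw [lenPart_sub, lenPart_bd, lenPart_eq_self hlen'] at this
    exact this
  have hdz : bd z ∈ Sup K' := by
    have : bd z = z' - (z' - bd z) := by abel
    rw [this]
    exact Submodule.sub_mem _ (Sup_mono S.TK hz') (Sup_mono S.KK hzK)
  refine ⟨z, hz, hdz, lenPart_len _ _, ?_⟩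
  intro u hu hdu
  obtain ⟨a, ha, b, hb, hab⟩ := S.split (bd_mem_Sup S.sT hu) hdu
  have hda : bd a ∈ Sup K := by
    have : bd a = - bd b := by
      have := congrArg bd hab
      rw [bd_bd, map_add] at this
      exact eq_neg_of_add_eq_zero_left this.symm
    rw [this]
    exact Submodule.neg_mem _ (bd_mem_Sup S.sK hb)
  obtain ⟨t, ⟨w', hw', hw2'⟩, -⟩ := h a ha hda
  have hT : u - t • z - w' ∈ Sup T :=
    Submodule.sub_mem _ (Submodule.sub_mem _ hu (Submodule.smul_mem _ _ hz)) (Sup_mono S.TT hw')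
  have hK : bd (u - t • z - w') ∈ Sup K := by
    have : bd (u - t • z - w') = (a - t • z' - bd w') + t • (z' - bd z) + b := by
      rw [map_sub, map_sub, map_smul, hab, smul_sub]; abel
    rw [this]
    exact Submodule.add_mem _ (Submodule.add_mem _ hw2' (Submodule.smul_mem _ _ hzK)) hb
  obtain ⟨w, hw, hw2⟩ := h1 _ hT hK
  have key : u - t • z - bd w ∈ Sup K' := by
    have : u - t • z - bd w = (u - t • z - w' - bd w) + w' := by abel
    rw [this]
    exact Submodule.add_mem _ (Sup_mono S.KK hw2) (Sup_mono S.TK hw')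
  refine ⟨t, ⟨w, hw, key⟩, ?_⟩
  rintro t1 ⟨w1, hw1, hk1⟩
  have hs : (t - t1) • z + bd (w - w1) ∈ Sup K' := by
    have : (t - t1) • z + bd (w - w1) = (u - t1 • z - bd w1) - (u - t • z - bd w) := by
      rw [sub_smul, map_sub]; abel
    rw [this]
    exact Submodule.sub_mem _ hk1 key
  have hvT : w - w1 ∈ Sup T := Submodule.sub_mem _ hw hw1
  obtain ⟨a', ha', b', hb', hab'⟩ := S.split
    (Submodule.add_mem _ (Sup_mono Set.subset_union_left (Submodule.smul_mem _ (t - t1) hz))
      (bd_mem_Sup S.sT hvT)) hs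
  have : t - t1 = 0 := by
    refine Cell.eq_zero (T := T') (K := K) hz' hdz' h
      (v := - a') (Submodule.neg_mem _ ha') ?_
    have e := congrArg bd hab'
    rw [map_add, map_add, bd_bd, add_zero, map_smul] at e
    have : (t - t1) • z' + bd (-a') = (t - t1) • (z' - bd z) + bd b' := by
      rw [map_neg, smul_sub, e]; abel
    rw [this]
    exact Submodule.add_mem _ (Submodule.smul_mem _ _ hzK) (bd_mem_Sup S.sK hb')
  omega

end Acyclic

end Pool.Agent.Lib.MP_1c795d_co
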